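import Pool.Agent.T6.H5.PL.Defs

/-! Project PL (helper5), module CA (helper58): the cut off fields are C^1 with compact support -/

set_option autoImplicit false
open MeasureTheory Filter Topology Finset
open scoped ContDiff ENNReal

namespace Pool.Agent.T6.H5.PL

open Pool.Agent.Y139.SW Pool.Agent.T6.H5.PW

namespace ModCA

lemma c1_of_deriv {h h' : ℝ → ℝ} (hd : ∀ y ∈ Set.Ioo (-1 : ℝ) 1, HasDerivAt h (h' y) y)
    (hc : ContinuousOn h' (Set.Ioo (-1 : ℝ) 1)) : ContDiffOn ℝ 1 h (Set.Ioo (-1 : ℝ) 1) := by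
  have h0 : (1 : ℕ∞ω) = 0 + 1 := by norm_num
  rw [h0, contDiffOn_succ_iff_deriv_of_isOpen isOpen_Ioo]
  refine ⟨fun y hy => (hd y hy).differentiableAt.differentiableWithinAt, by simp, ?_⟩
  rw [contDiffOn_zero]
  refine hc.congr fun y hy => ?_
  exact (hd y hy).deriv

lemma cut_contDiff (ε δ N : ℝ) : ContDiff ℝ 1 (cut ε δ N) := by
  unfold cut kap
  have hs : ContDiff ℝ 1 Real.smoothTransition := Real.smoothTransition.contDiff
  have h1 : ContDiff ℝ 1 fun z : ℝ × ℝ => (z.2 - z.1 ^ 2) / ε - 1 := by fun_prop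
  have h2 : ContDiff ℝ 1 fun z : ℝ × ℝ => z.2 / δ - 1 := by fun_prop
  have h3 : ContDiff ℝ 1 fun z : ℝ × ℝ => z.2 / N - 1 := by fun_prop
  exact (hs.comp h1).mul ((hs.comp h2).mul (contDiff_const.sub (hs.comp h3)))

lemma main {h : ℝ → ℝ} (hh : ContDiffOn ℝ 1 h (Set.Ioo (-1 : ℝ) 1)) (α : ℝ) {ε δ N : ℝ}
    (hε : 0 < ε) (hδ : 0 < δ) (hN : 0 < N) :
    ContDiff ℝ 1 (fun z : ℝ × ℝ => cut ε δ N z * (z.2 ^ α * h (z.1 / √z.2))) ∧
    HasCompactSupport (fun z : ℝ × ℝ => cut ε δ N z * (z.2 ^ α * h (z.1 / √z.2))) := by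
  constructor
  · rw [contDiff_iff_contDiffAt]
    intro z
    by_cases hz : z.1 ^ 2 < z.2
    · have hz2 : 0 < z.2 := lt_of_le_of_lt (sq_nonneg _) hz
      have hs : 0 < √z.2 := Real.sqrt_pos.2 hz2
      refine (cut_contDiff ε δ N).contDiffAt.mul (ContDiffAt.mul ?_ ?_)
      · exact contDiffAt_snd.rpow_const_of_ne hz2.ne'
      · have hy : z.1 / √z.2 ∈ Set.Ioo (-1 : ℝ) 1 := by
          have h1 : |z.1| < √z.2 := Real.lt_sqrt_of_sq_lt (by rwa [sq_abs])
          have h2 := abs_lt.1 h1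
          constructor
          · rw [lt_div_iff₀ hs]; linarith
          · rw [div_lt_iff₀ hs]; linarith
        have h1 : ContDiffAt ℝ 1 h (z.1 / √z.2) := hh.contDiffAt (isOpen_Ioo.mem_nhds hy)
        have h2 : ContDiffAt ℝ 1 (fun z : ℝ × ℝ => z.1 / √z.2) z :=
          contDiffAt_fst.div (contDiffAt_snd.sqrt hz2.ne') hs.ne'
        exact ContDiffAt.comp z h1 h2
    · have hopen : IsOpen {w : ℝ × ℝ | w.2 - w.1 ^ 2 < ε} :=
        isOpen_lt (by fun_prop) continuous_const
      have hmem : z ∈ {w : ℝ × ℝ | w.2 - w.1 ^ 2 < ε} := by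
        show z.2 - z.1 ^ 2 < ε
        linarith [not_lt.1 hz]
      have hev : (fun z : ℝ × ℝ => cut ε δ N z * (z.2 ^ α * h (z.1 / √z.2))) =ᶠ[𝓝 z]
          fun _ => 0 := by
        filter_upwards [hopen.mem_nhds hmem] with w hw
        have hw' : w.2 - w.1 ^ 2 < ε := hw
        have : (w.2 - w.1 ^ 2) / ε - 1 ≤ 0 := by
          rw [sub_nonpos, div_le_one hε]; exact hw'.le
        simp [cut, Real.smoothTransition.zero_of_nonpos this]
      exact contDiffAt_const.congr_of_eventuallyEq hev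
  · refine HasCompactSupport.intro (K := Set.Icc (-(2 * N + 1)) (2 * N + 1) ×ˢ Set.Icc 0 (2 * N))
      (isCompact_Icc.prod isCompact_Icc) ?_
    intro z hz
    by_contra hne
    apply hz
    have hcut : cut ε δ N z ≠ 0 := left_ne_zero_of_mul hne
    unfold cut kap at hcut
    have h1 := left_ne_zero_of_mul hcut
    have h2 := left_ne_zero_of_mul (right_ne_zero_of_mul hcut)
    have h3 := right_ne_zero_of_mul (right_ne_zero_of_mul hcut)
    have k1 : 0 < (z.2 - z.1 ^ 2) / ε - 1 := by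
      by_contra h
      exact h1 (Real.smoothTransition.zero_of_nonpos (not_lt.1 h))
    have k2 : 0 < z.2 / δ - 1 := by
      by_contra h
      exact h2 (Real.smoothTransition.zero_of_nonpos (not_lt.1 h))
    have k3 : z.2 / N - 1 < 1 := by
      by_contra h
      apply h3
      rw [Real.smoothTransition.one_of_one_le (not_lt.1 h), sub_self]
    have m1 : ε < z.2 - z.1 ^ 2 := by
      rw [sub_pos, one_lt_div hε] at k1; exact k1
    have m2 : δ < z.2 := by
      rw [sub_pos, one_lt_div hδ] at k2; exact k2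
    have m3 : z.2 < 2 * N := by
      have : z.2 / N < 2 := by linarith
      rwa [div_lt_iff₀ hN] at this
    refine ⟨⟨?_, ?_⟩, ⟨by linarith, m3.le⟩⟩
    · nlinarith [sq_nonneg (z.1 + 1)]
    · nlinarith [sq_nonneg (z.1 - 1)]

end ModCA

open ModCA in
theorem stmtCA : StmtCA := by
  intro p g e g' e' K hp hG ε δ N hε hδ hN
  have hne : ∀ y ∈ Set.Ioo (-1 : ℝ) 1, (1 - y ^ 2 : ℝ) ≠ 0 := by
    intro y hy
    have : y ^ 2 < 1 := by
      rw [sq_lt_one_iff_abs_lt_one, abs_lt]; exact hy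
    linarith
  have hgc : ContinuousOn g (Set.Ioo (-1 : ℝ) 1) := fun y hy =>
    (hG.hg y hy).continuousAt.continuousWithinAt
  have hec : ContinuousOn e (Set.Ioo (-1 : ℝ) 1) := fun y hy =>
    (hG.he y hy).continuousAt.continuousWithinAt
  have habs : Continuous fun y : ℝ => |y| ^ p :=
    continuous_abs.rpow_const fun x => Or.inr (by linarith)
  have hg'c : ContinuousOn g' (Set.Ioo (-1 : ℝ) 1) := by
    have : ContinuousOn (fun y : ℝ => (y * g y + (|y| ^ p - Cp p)) / (1 - y ^ 2))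
        (Set.Ioo (-1 : ℝ) 1) := by
      refine ContinuousOn.div ?_ (by fun_prop) hne
      exact (continuousOn_id.mul hgc).add ((habs.sub continuous_const).continuousOn)
    refine this.congr fun y hy => ?_
    have := hG.ode1 y hy
    field_simp [hne y hy]
    linarith
  have he'c : ContinuousOn e' (Set.Ioo (-1 : ℝ) 1) := by
    have : ContinuousOn (fun y : ℝ => (2 * y * e y + (1 - y ^ 2) *
        ((p - 1) * g y - y * g' y)) / (1 - y ^ 2)) (Set.Ioo (-1 : ℝ) 1) := by
      refine ContinuousOn.div ?_ (by fun_prop) hne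
      refine ((continuousOn_const.mul continuousOn_id).mul hec).add
        (ContinuousOn.mul (by fun_prop) ?_)
      exact (continuousOn_const.mul hgc).sub (continuousOn_id.mul hg'c)
    refine this.congr fun y hy => ?_
    have := hG.ode2 y hy
    rw [eq_div_iff (hne y hy)]
    linarith
  have h1 := c1_of_deriv hG.hg hg'c
  have h2 := c1_of_deriv hG.he he'c
  exact ⟨main h1 ((p - 1) / 2) hε hδ hN, main h2 ((p - 2) / 2) hε hδ hN⟩

end Pool.Agent.T6.H5.PL
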