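import Pool.Agent.T6.H5.PL.Defs

/-!
Project PL (helper5), module CB: the exact chain rule formula.
-/

set_option autoImplicit false
open MeasureTheory Filter Topology Finset
open scoped ContDiff ENNReal

namespace Pool.Agent.T6.H5.PL

open Pool.Agent.Y139.SW Pool.Agent.T6.H5.PW

noncomputable section

namespace CB

lemma hf {r h' : ℝ} {h : ℝ → ℝ} {x ρ : ℝ} (hρ : 0 < ρ) (hh : HasDerivAt h h' (x / √ρ)) :
    ∃ L : ℝ × ℝ →L[ℝ] ℝ, HasFDerivAt (fun z : ℝ × ℝ => z.2 ^ r * h (z.1 / √z.2)) L (x, ρ) ∧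
      L (1, 0) = ρ ^ r * h' / √ρ ∧
      L (0, 1) = r * ρ ^ (r - 1) * h (x / √ρ) - ρ ^ r * h' * x / (2 * ρ * √ρ) := by
  have f1 : HasFDerivAt (fun z : ℝ × ℝ => z.1) (ContinuousLinearMap.fst ℝ ℝ ℝ) (x, ρ) :=
    hasFDerivAt_fst
  have f2 : HasFDerivAt (fun z : ℝ × ℝ => z.2) (ContinuousLinearMap.snd ℝ ℝ ℝ) (x, ρ) :=
    hasFDerivAt_snd
  have hs : 0 < √ρ := Real.sqrt_pos.2 hρ
  have p1 : HasDerivAt (fun t : ℝ => t ^ r) (r * ρ ^ (r - 1)) ρ :=
    Real.hasDerivAt_rpow_const (Or.inl hρ.ne')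
  have g1 := p1.comp_hasFDerivAt (x, ρ) f2
  have p2 : HasDerivAt (fun t : ℝ => (√t)⁻¹) (-(1 / (2 * √ρ)) / (√ρ) ^ 2) ρ :=
    (Real.hasDerivAt_sqrt hρ.ne').fun_inv hs.ne'
  have g2 := p2.comp_hasFDerivAt (x, ρ) f2
  have g3 := f1.fun_mul g2
  have e3 : (fun z : ℝ × ℝ => z.1 * ((fun t : ℝ => (√t)⁻¹) ∘ fun z : ℝ × ℝ => z.2) z) =
      fun z => z.1 / √z.2 := by
    funext z; rw [div_eq_mul_inv]; rfl
  rw [e3] at g3
  have hh' : HasDerivAt h h' ((fun z : ℝ × ℝ => z.1 / √z.2) (x, ρ)) := hh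
  have g4 := hh'.comp_hasFDerivAt (x, ρ) g3
  have g5 := g1.fun_mul g4
  refine ⟨_, g5, ?_, ?_⟩
  · simp [div_eq_mul_inv]
    ring
  · simp only [add_apply, smul_apply, smul_eq_mul,
      ContinuousLinearMap.coe_snd', ContinuousLinearMap.coe_fst', Function.comp]
    have h2 : √ρ ^ 2 = ρ := Real.sq_sqrt hρ.le
    rw [h2]
    field_simp
    ring

lemma hst (u : ℝ) : HasDerivAt Real.smoothTransition (deriv Real.smoothTransition u) u :=
  ((Real.smoothTransition.contDiff (n := 1)).differentiable (by norm_num) u).hasDerivAt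

lemma kap_diff (δ N : ℝ) : Differentiable ℝ (kap δ N) := by
  unfold kap
  have h := (Real.smoothTransition.contDiff (n := 1)).differentiable (by norm_num)
  have h1 : Differentiable ℝ fun ρ : ℝ => ρ / δ - 1 := by fun_prop
  have h2 : Differentiable ℝ fun ρ : ℝ => ρ / N - 1 := by fun_prop
  exact (h.comp h1).mul ((differentiable_const (1 : ℝ)).sub (h.comp h2))

lemma hcut (ε δ N x ρ : ℝ) :
    ∃ L : ℝ × ℝ →L[ℝ] ℝ, HasFDerivAt (cut ε δ N) L (x, ρ) ∧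
      L (1, 0) = deriv Real.smoothTransition ((ρ - x ^ 2) / ε - 1) * (-(2 * x) / ε) * kap δ N ρ ∧
      L (0, 1) = deriv Real.smoothTransition ((ρ - x ^ 2) / ε - 1) * (1 / ε) * kap δ N ρ +
        Real.smoothTransition ((ρ - x ^ 2) / ε - 1) * deriv (kap δ N) ρ := by
  have f1 : HasFDerivAt (fun z : ℝ × ℝ => z.1) (ContinuousLinearMap.fst ℝ ℝ ℝ) (x, ρ) :=
    hasFDerivAt_fst
  have f2 : HasFDerivAt (fun z : ℝ × ℝ => z.2) (ContinuousLinearMap.snd ℝ ℝ ℝ) (x, ρ) :=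
    hasFDerivAt_snd
  have f3 := ((f2.fun_sub (f1.fun_mul f1)).fun_mul (hasFDerivAt_const (ε⁻¹) (x, ρ))).sub_const 1
  have e0 : (ρ - x ^ 2) / ε - 1 = (ρ - x * x) * ε⁻¹ - 1 := by rw [sq, div_eq_mul_inv]
  have h1 : HasDerivAt Real.smoothTransition (deriv Real.smoothTransition ((ρ - x ^ 2) / ε - 1))
      ((fun z : ℝ × ℝ => (z.2 - z.1 * z.1) * ε⁻¹ - 1) (x, ρ)) := by
    rw [e0]; exact hst _
  have g1 := h1.comp_hasFDerivAt (x, ρ) f3
  have h2 : HasDerivAt (kap δ N) (deriv (kap δ N) ρ) ((fun z : ℝ × ℝ => z.2) (x, ρ)) :=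
    (kap_diff δ N ρ).hasDerivAt
  have g2 := h2.comp_hasFDerivAt (x, ρ) f2
  have g3 := g1.fun_mul g2
  refine ⟨_, g3.congr_of_eventuallyEq (Eventually.of_forall fun z => ?_), ?_, ?_⟩
  · show Real.smoothTransition ((z.2 - z.1 ^ 2) / ε - 1) * kap δ N z.2 =
      Real.smoothTransition ((z.2 - z.1 * z.1) * ε⁻¹ - 1) * kap δ N z.2
    rw [sq, div_eq_mul_inv]
  · simp only [add_apply, smul_apply, smul_eq_mul, sub_apply,
      ContinuousLinearMap.coe_snd', ContinuousLinearMap.coe_fst', Function.comp, zero_apply]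
    rw [div_eq_mul_inv]
    ring
  · simp only [add_apply, smul_apply, smul_eq_mul, sub_apply,
      ContinuousLinearMap.coe_snd', ContinuousLinearMap.coe_fst', Function.comp, zero_apply]
    rw [e0, div_eq_mul_inv]
    ring

end CB

open CB in
theorem stmtCB : StmtCB := by
  intro p g e g' e' K hp hG ε δ N hε hδ hN d x v H hq
  obtain ⟨q, hqd⟩ : ∃ q, q = jq v := ⟨_, rfl⟩
  obtain ⟨ρ, hρd⟩ : ∃ ρ, ρ = jr x v := ⟨_, rfl⟩
  have hρq : ρ = x ^ 2 + q := by rw [hρd, hqd]; rfl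
  rw [← hqd] at hq
  have hρ : 0 < ρ := by rw [hρq]; positivity
  obtain ⟨s, hs⟩ : ∃ s, s = √ρ := ⟨_, rfl⟩
  have s0 : 0 < s := by rw [hs]; exact Real.sqrt_pos.2 hρ
  have s2 : s ^ 2 = ρ := by rw [hs]; exact Real.sq_sqrt hρ.le
  obtain ⟨y, hy⟩ : ∃ y, y = x / √ρ := ⟨_, rfl⟩
  have hx : x = y * s := by rw [hy, hs]; field_simp
  have hq1 : q = s ^ 2 * (1 - y ^ 2) := by
    have : q = ρ - x ^ 2 := by rw [hρq]; ring
    rw [this, ← s2, hx]; ring
  have hy1 : 0 < 1 - y ^ 2 := by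
    by_contra h
    push Not at h
    have : q ≤ 0 := by rw [hq1]; exact mul_nonpos_of_nonneg_of_nonpos (sq_nonneg _) h
    linarith
  have hyI : y ∈ Set.Ioo (-1 : ℝ) 1 := by
    constructor <;> nlinarith
  have hgy := hG.hg y hyI
  have hey := hG.he y hyI
  have o1 := hG.ode1 y hyI
  have o2 := hG.ode2 y hyI
  obtain ⟨La, fa, a1, a2⟩ := hf (r := (p - 1) / 2) (x := x) hρ (by rw [← hy]; exact hgy)
  obtain ⟨Lc, fc, c1, c2⟩ := hf (r := (p - 2) / 2) (x := x) hρ (by rw [← hy]; exact hey)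
  obtain ⟨Lk, fk, k1, k2⟩ := hcut ε δ N x ρ
  have fA : HasFDerivAt (AF p g ε δ N) _ (x, ρ) := fk.fun_mul fa
  have fC : HasFDerivAt (CF p e ε δ N) _ (x, ρ) := fk.fun_mul fc
  obtain ⟨u, hu⟩ : ∃ u, u = ρ ^ ((p - 4) / 2) := ⟨_, rfl⟩
  have hsr : s = ρ ^ (1 / 2 : ℝ) := by rw [hs, Real.sqrt_eq_rpow]
  have r2 : ρ ^ ((p - 2) / 2) = u * s ^ 2 := by
    rw [s2, hu, ← Real.rpow_add_one hρ.ne']; congr 1; ring
  have r1 : ρ ^ ((p - 1) / 2) = u * s ^ 3 := by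
    have : u * s ^ 3 = (u * ρ) * s := by rw [← s2]; ring
    rw [this, hu, ← Real.rpow_add_one hρ.ne', hsr, ← Real.rpow_add hρ]; congr 1; ring
  have r0 : ρ ^ (p / 2) = u * s ^ 4 := by
    have : u * s ^ 4 = (u * ρ) * ρ := by rw [← s2]; ring
    rw [this, hu, ← Real.rpow_add_one hρ.ne', ← Real.rpow_add_one hρ.ne']; congr 1; ring
  have r3 : ρ ^ ((p - 1) / 2 - 1) = u * s := by
    rw [hu, hsr, ← Real.rpow_add hρ]; congr 1; ring
  have r4 : ρ ^ ((p - 2) / 2 - 1) = u := by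
    rw [hu]; congr 1; ring
  have rx : |x| ^ p = u * s ^ 4 * |y| ^ p := by
    rw [hx, abs_mul, abs_of_pos s0, mul_comm, Real.mul_rpow s0.le (abs_nonneg _), ← r0]
    congr 1
    rw [hsr, ← Real.rpow_mul hρ.le]; congr 1; ring
  obtain ⟨A, hA⟩ : ∃ A, A = ∑ i, v i * jw x v H i := ⟨_, rfl⟩
  obtain ⟨B, hB⟩ : ∃ B, B = ∑ i, jw x v H i ^ 2 := ⟨_, rfl⟩
  have sum1 : ∀ a c : ℝ, ∑ i, jw x v H i * (a * v i - 1 / 2 * c * jw x v H i) =
      a * A - 1 / 2 * c * B := by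
    intro a c
    rw [hA, hB, Finset.mul_sum, Finset.mul_sum, ← Finset.sum_sub_distrib]
    refine Finset.sum_congr rfl fun i _ => ?_
    ring
  have sum2 : ∀ a c : ℝ, ∑ i, 2 * jh H v i * (a * v i - 1 / 2 * c * jw x v H i) =
      a * A - 1 / 2 * c * B - 2 * x * a * q + x * c * A := by
    intro a c
    rw [hA, hB, hqd]
    unfold jq
    rw [Finset.mul_sum, Finset.mul_sum, Finset.mul_sum, Finset.mul_sum,
      ← Finset.sum_sub_distrib, ← Finset.sum_sub_distrib, ← Finset.sum_add_distrib]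
    refine Finset.sum_congr rfl fun i _ => ?_
    have : jh H v i = jw x v H i / 2 - x * v i := by unfold jw; ring
    rw [this]; ring
  rw [sum1, sum2]
  unfold II
  rw [← hqd, ← hρd, ← hA, ← hB]
  rw [fA.fderiv, fC.fderiv]
  have ea : aF p g (x, ρ) = u * s ^ 3 * g y := by
    show ρ ^ ((p - 1) / 2) * g (x / √ρ) = _
    rw [r1, ← hy]
  have ec : cF p e (x, ρ) = u * s ^ 2 * e y := by
    show ρ ^ ((p - 2) / 2) * e (x / √ρ) = _
    rw [r2, ← hy]
  have ek : cut ε δ N (x, ρ) = Real.smoothTransition (q / ε - 1) * kap δ N ρ := by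
    show Real.smoothTransition ((ρ - x ^ 2) / ε - 1) * kap δ N ρ = _
    rw [show ρ - x ^ 2 = q by rw [hρq]; ring]
  have eA : AF p g ε δ N (x, ρ) = Real.smoothTransition (q / ε - 1) * kap δ N ρ *
      (u * s ^ 3 * g y) := by
    show cut ε δ N (x, ρ) * aF p g (x, ρ) = _
    rw [ek, ea]
  have eC : CF p e ε δ N (x, ρ) = Real.smoothTransition (q / ε - 1) * kap δ N ρ *
      (u * s ^ 2 * e y) := by
    show cut ε δ N (x, ρ) * cF p e (x, ρ) = _
    rw [ek, ec]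
  have eR : cR p e e' x ρ = u * ((p - 2) / 2 * e y - 1 / 2 * y * e' y) := by
    unfold cR
    rw [← hu, ← hy]
  rw [eA, eC, eR, ea, ec, rx, r0]
  simp only [add_apply, smul_apply, smul_eq_mul]
  rw [a1, a2, c1, c2, k1, k2, ek]
  rw [show ρ - x ^ 2 = q by rw [hρq]; ring]
  rw [← hy, ← hs, r1, r2, r3, r4]
  obtain ⟨t, ht⟩ : ∃ t, t = x / q := ⟨_, rfl⟩
  have htq : t * q = x := by rw [ht]; field_simp
  rw [← ht]
  have hk : (p - 1) * g y - y * g' y - e' y + 2 * s * e y * t = 0 := by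
    have h1 : s * (1 - y ^ 2) * t = y := by
      have : t * (s ^ 2 * (1 - y ^ 2)) = y * s := by rw [← hq1, htq, hx]
      have h2 : s * (s * (1 - y ^ 2) * t) = s * y := by linarith
      exact mul_left_cancel₀ s0.ne' h2
    have h3 : (1 - y ^ 2) * ((p - 1) * g y - y * g' y - e' y + 2 * s * e y * t) = 0 := by
      linear_combination -o2 + 2 * e y * h1
    exact (mul_eq_zero.1 h3).resolve_left hy1.ne'
  have d1 : u * s ^ 3 * g' y / s = u * s ^ 2 * g' y := by field_simp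
  have d2 : u * s ^ 3 * g' y * x / (2 * ρ * s) = u * g' y * x / 2 := by
    rw [← s2]; field_simp
  have d3 : u * s ^ 2 * e' y / s = u * s * e' y := by field_simp
  have d4 : u * s ^ 2 * e' y * x / (2 * ρ * s) = u * e' y * y / 2 := by
    rw [← s2, hx]; field_simp
  rw [d1, d2, d3, d4]
  generalize Real.smoothTransition (q / ε - 1) = ch
  generalize deriv Real.smoothTransition (q / ε - 1) = dch
  generalize deriv (kap δ N) ρ = dk
  generalize kap δ N ρ = k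
  rw [hx, hq1]
  linear_combination (ch * k * u * s ^ 4) * o1 + (ch * k * A * u * s / 2) * hk

end

end Pool.Agent.T6.H5.PL
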