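import Pool.Agent.T6.H5.PL.Defs

/-!
Project PL (helper5), module CC: the pointwise inequality.
-/

set_option autoImplicit false
open MeasureTheory Filter Topology Finset
open scoped ContDiff ENNReal

namespace Pool.Agent.T6.H5.PL

open Pool.Agent.Y139.SW Pool.Agent.T6.H5.PW

noncomputable section

namespace CC

abbrev st := Real.smoothTransition

lemma dst_nn (u : ℝ) : 0 ≤ deriv st u := Real.smoothTransition.monotone.deriv_nonneg

lemma dst_out {u : ℝ} (h : u < 0 ∨ 1 < u) : deriv st u = 0 := by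
  rcases h with h | h
  · have : st =ᶠ[𝓝 u] fun _ => (0 : ℝ) := by
      filter_upwards [Iio_mem_nhds h] with z hz
      exact Real.smoothTransition.zero_of_nonpos (le_of_lt hz)
    rw [this.deriv_eq]; simp
  · have : st =ᶠ[𝓝 u] fun _ => (1 : ℝ) := by
      filter_upwards [Ioi_mem_nhds h] with z hz
      exact Real.smoothTransition.one_of_one_le (le_of_lt hz)
    rw [this.deriv_eq]; simp

lemma dst_bd : ∃ L : ℝ, 0 < L ∧ ∀ u, deriv st u ≤ L := by
  have hc : Continuous (deriv st) :=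
    (Real.smoothTransition.contDiff (n := 1)).continuous_deriv (by norm_num)
  obtain ⟨C, hC⟩ := (isCompact_Icc (a := (0 : ℝ)) (b := 1)).exists_bound_of_continuousOn
    hc.continuousOn
  refine ⟨max C 1, lt_max_of_lt_right one_pos, fun u => ?_⟩
  by_cases hu : u ∈ Set.Icc (0 : ℝ) 1
  · exact (le_abs_self _).trans ((hC u hu).trans (le_max_left _ _))
  · have : deriv st u = 0 := by
      apply dst_out
      rw [Set.mem_Icc, not_and_or] at hu
      rcases hu with h | h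
      · left; exact not_le.1 h
      · right; exact not_le.1 h
    rw [this]; exact (le_max_right C 1).trans' zero_le_one

lemma st_d (u : ℝ) : HasDerivAt st (deriv st u) u :=
  ((Real.smoothTransition.contDiff (n := 1)).differentiable (by norm_num) u).hasDerivAt

lemma kap_d (δ N ρ : ℝ) : deriv (kap δ N) ρ =
    deriv st (ρ / δ - 1) / δ * (1 - st (ρ / N - 1)) - st (ρ / δ - 1) * (deriv st (ρ / N - 1) / N) := by
  have h0 : ∀ c : ℝ, HasDerivAt (fun t : ℝ => t / c - 1) (1 / c) ρ := fun c => by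
    simpa using ((hasDerivAt_id ρ).div_const c).sub_const 1
  have h1 : HasDerivAt (fun t : ℝ => st (t / δ - 1)) (deriv st (ρ / δ - 1) * (1 / δ)) ρ :=
    HasDerivAt.comp ρ (h₂ := st) (st_d (ρ / δ - 1)) (h0 δ)
  have h2 : HasDerivAt (fun t : ℝ => st (t / N - 1)) (deriv st (ρ / N - 1) * (1 / N)) ρ :=
    HasDerivAt.comp ρ (h₂ := st) (st_d (ρ / N - 1)) (h0 N)
  have h3 := h1.fun_mul ((hasDerivAt_const ρ (1 : ℝ)).fun_sub h2)
  have h4 : HasDerivAt (kap δ N) _ ρ := h3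
  rw [h4.deriv]
  ring

section alg

variable {d : ℕ}

lemma hv_sq (v : Fin d → ℝ) (H : Fin d → Fin d → ℝ) : ∑ i, jh H v i ^ 2 ≤ jH H * jq v := by
  unfold jH jh jq
  rw [Finset.sum_mul]
  exact Finset.sum_le_sum fun i _ => Finset.sum_mul_sq_le_sq_mul_sq _ _ _

lemma vhv_sq (v : Fin d → ℝ) (H : Fin d → Fin d → ℝ) :
    (∑ i, v i * jh H v i) ^ 2 ≤ jH H * jq v ^ 2 := by
  have h1 : (∑ i, v i * jh H v i) ^ 2 ≤ jq v * ∑ i, jh H v i ^ 2 :=
    Finset.sum_mul_sq_le_sq_mul_sq _ _ _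
  have h2 := hv_sq v H
  have h3 : 0 ≤ jq v := Finset.sum_nonneg fun i _ => sq_nonneg _
  calc _ ≤ jq v * ∑ i, jh H v i ^ 2 := h1
    _ ≤ jq v * (jH H * jq v) := mul_le_mul_of_nonneg_left h2 h3
    _ = _ := by ring

lemma sumA (x : ℝ) (v : Fin d → ℝ) (H : Fin d → Fin d → ℝ) :
    ∑ i, v i * jw x v H i = 2 * (x * jq v + ∑ i, v i * jh H v i) := by
  unfold jw jq
  rw [Finset.mul_sum, ← Finset.sum_add_distrib, Finset.mul_sum]
  exact Finset.sum_congr rfl fun i _ => by ring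

lemma sumB (x : ℝ) (v : Fin d → ℝ) (H : Fin d → Fin d → ℝ) :
    ∑ i, jw x v H i ^ 2 =
      4 * (x ^ 2 * jq v + 2 * x * ∑ i, v i * jh H v i + ∑ i, jh H v i ^ 2) := by
  unfold jw jq
  rw [Finset.mul_sum, Finset.mul_sum, ← Finset.sum_add_distrib, ← Finset.sum_add_distrib,
    Finset.mul_sum]
  exact Finset.sum_congr rfl fun i _ => by ring

lemma sumC (x : ℝ) (v : Fin d → ℝ) (H : Fin d → Fin d → ℝ) (a c : ℝ) :
    ∑ i, 2 * jh H v i * (a * v i - 1 / 2 * c * jw x v H i) =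
      2 * a * (∑ i, v i * jh H v i) -
        2 * c * (x * (∑ i, v i * jh H v i) + ∑ i, jh H v i ^ 2) := by
  unfold jw
  rw [Finset.mul_sum, Finset.mul_sum, ← Finset.sum_add_distrib, Finset.mul_sum,
    ← Finset.sum_sub_distrib]
  exact Finset.sum_congr rfl fun i _ => by ring

lemma sumD (x : ℝ) (v : Fin d → ℝ) (H : Fin d → Fin d → ℝ) (a c : ℝ) :
    ∑ i, jw x v H i * (a * v i - 1 / 2 * c * jw x v H i) =
      a * (∑ i, v i * jw x v H i) - 1 / 2 * c * ∑ i, jw x v H i ^ 2 := by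
  rw [Finset.mul_sum, Finset.mul_sum, ← Finset.sum_sub_distrib]
  exact Finset.sum_congr rfl fun i _ => by ring

end alg

/-- scalar version of the estimates -/
lemma scal {x q J V W h : ℝ} (q0 : 0 ≤ q) (h0 : 0 ≤ h) (hJ : h ^ 2 = J) (W0 : 0 ≤ W)
    (hW : W ≤ J * q) (hV : V ^ 2 ≤ J * q ^ 2) :
    |V| ≤ q * h ∧ |2 * (x * q + V)| ≤ 2 * q * (|x| + h) ∧
    4 * (x ^ 2 * q + 2 * x * V + W) ≤ 4 * q * (|x| + h) ^ 2 := by
  have hV' : |V| ≤ q * h := by
    refine abs_le_of_sq_le_sq ?_ (mul_nonneg q0 h0)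
    rw [mul_pow, hJ]; linarith
  have hx := abs_nonneg x
  have hxV : |x * V| ≤ |x| * (q * h) := by
    rw [abs_mul]; exact mul_le_mul_of_nonneg_left hV' hx
  refine ⟨hV', ?_, ?_⟩
  · rw [abs_mul, abs_two]
    have : |x * q + V| ≤ |x| * q + q * h := by
      refine (abs_add_le _ _).trans ?_
      rw [abs_mul, abs_of_nonneg q0]; linarith
    nlinarith
  · have h1 := (abs_le.1 hxV).2
    have h2 : |x| ^ 2 = x ^ 2 := sq_abs x
    have h3 : (|x| + h) ^ 2 = x ^ 2 + 2 * |x| * h + J := by rw [← hJ, ← h2]; ring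
    rw [h3]
    nlinarith

/-- powers between bounds -/
lemma rpow_bd {δ M ρ r : ℝ} (hδ : 0 < δ) (h1 : δ ≤ ρ) (h2 : ρ ≤ M) : ρ ^ r ≤ δ ^ r + M ^ r := by
  have hρ : 0 < ρ := hδ.trans_le h1
  rcases le_or_gt 0 r with h | h
  · have := Real.rpow_le_rpow hρ.le h2 h
    have := Real.rpow_nonneg hδ.le r
    linarith
  · have := Real.rpow_le_rpow_of_nonpos hδ h1 h.le
    have := Real.rpow_nonneg (hρ.le.trans h2) r
    linarith

/-- the estimate for large `ρ` -/
lemma far {p ρ j M : ℝ} (hp : 1 ≤ p) (hρ : 1 ≤ ρ) (hj : ρ ≤ j) (M0 : 0 ≤ M) (hM : M ^ 2 ≤ 2 * j) :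
    ρ ^ ((p - 1) / 2) * M + ρ ^ ((p - 2) / 2) * M ^ 2 ≤ 4 * j ^ (max p 2 / 2) := by
  have j1 : 1 ≤ j := hρ.trans hj
  have j0 : 0 < j := by linarith
  have ρ0 : 0 < ρ := by linarith
  have hs : √j ^ 2 = j := Real.sq_sqrt j0.le
  have hM' : M ≤ 2 * √j := by
    refine abs_le_of_sq_le_sq' ?_ (by positivity) |>.2
    rw [mul_pow, hs]; nlinarith
  have hsj : √j = j ^ (1 / 2 : ℝ) := Real.sqrt_eq_rpow j
  rcases le_or_gt 2 p with h | h
  · rw [max_eq_left h]
    have a1 : ρ ^ ((p - 1) / 2) ≤ j ^ ((p - 1) / 2) :=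
      Real.rpow_le_rpow ρ0.le hj (by linarith)
    have a2 : ρ ^ ((p - 2) / 2) ≤ j ^ ((p - 2) / 2) :=
      Real.rpow_le_rpow ρ0.le hj (by linarith)
    have b1 : j ^ ((p - 1) / 2) * √j = j ^ (p / 2) := by
      rw [hsj, ← Real.rpow_add j0]; congr 1; ring
    have b2 : j ^ ((p - 2) / 2) * j = j ^ (p / 2) := by
      rw [← Real.rpow_add_one j0.ne']; congr 1; ring
    have c1 : ρ ^ ((p - 1) / 2) * M ≤ j ^ ((p - 1) / 2) * (2 * √j) :=
      mul_le_mul a1 hM' M0 (Real.rpow_nonneg j0.le _)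
    have c2 : ρ ^ ((p - 2) / 2) * M ^ 2 ≤ j ^ ((p - 2) / 2) * (2 * j) :=
      mul_le_mul a2 hM (sq_nonneg _) (Real.rpow_nonneg j0.le _)
    nlinarith
  · rw [max_eq_right h.le]
    have e : j ^ ((2 : ℝ) / 2) = j := by norm_num
    rw [e]
    have a1 : ρ ^ ((p - 1) / 2) ≤ √j := by
      calc ρ ^ ((p - 1) / 2) ≤ ρ ^ (1 / 2 : ℝ) :=
            Real.rpow_le_rpow_of_exponent_le hρ (by linarith)
        _ = √ρ := (Real.sqrt_eq_rpow ρ).symm
        _ ≤ √j := Real.sqrt_le_sqrt hj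
    have a2 : ρ ^ ((p - 2) / 2) ≤ 1 :=
      Real.rpow_le_one_of_one_le_of_nonpos hρ (by linarith)
    have c1 : ρ ^ ((p - 1) / 2) * M ≤ √j * (2 * √j) :=
      mul_le_mul a1 hM' M0 (Real.sqrt_nonneg _)
    have c2 : ρ ^ ((p - 2) / 2) * M ^ 2 ≤ 1 * (2 * j) :=
      mul_le_mul a2 hM (sq_nonneg _) zero_le_one
    nlinarith

lemma h_le {h J : ℝ} (h2 : h ^ 2 = J) : h ≤ 1 + J := by nlinarith [sq_nonneg (h - 1)]

lemma e2 {ε q k D L a c Ka Kc x N V W J h : ℝ} (ε0 : 0 < ε) (q0 : 0 ≤ q) (hq : q ≤ 2 * ε)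
    (k0 : 0 ≤ k) (k1 : k ≤ 1) (D0 : 0 ≤ D) (D1 : D ≤ L) (ha : |a| ≤ Ka) (hc : |c| ≤ Kc)
    (N0 : 0 < N) (hx : |x| ≤ 2 * N) (h0 : 0 ≤ h) (h2 : h ^ 2 = J) (hV : |V| ≤ q * h)
    (W0 : 0 ≤ W) (W1 : W ≤ J * q) :
    |1 / ε * D * k * (2 * a * V - 2 * c * (x * V + W))| ≤
      4 * L * (Ka + Kc * (2 * N + 1)) * (1 + J) := by
  have Ka0 : 0 ≤ Ka := (abs_nonneg _).trans ha
  have Kc0 : 0 ≤ Kc := (abs_nonneg _).trans hc
  have L0 : 0 ≤ L := D0.trans D1
  have J0 : 0 ≤ J := by rw [← h2]; positivity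
  have hJh := h_le h2
  have hxV : |x * V + W| ≤ q * (2 * N * h + J) := by
    refine (abs_add_le _ _).trans ?_
    rw [abs_mul, abs_of_nonneg W0]
    have e1 : |x| * |V| ≤ 2 * N * (q * h) := mul_le_mul hx hV (abs_nonneg _) (by positivity)
    calc |x| * |V| + W ≤ 2 * N * (q * h) + J * q := add_le_add e1 W1
      _ = _ := by ring
  have z1 : |2 * a * V| ≤ 2 * Ka * (q * h) := by
    rw [abs_mul, abs_mul, abs_two]
    exact mul_le_mul (by linarith) hV (abs_nonneg _) (by positivity)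
  have z2 : |2 * c * (x * V + W)| ≤ 2 * Kc * (q * (2 * N * h + J)) := by
    rw [abs_mul, abs_mul, abs_two]
    exact mul_le_mul (by linarith) hxV (abs_nonneg _) (by positivity)
  have z3 : 2 * N * h + J ≤ (2 * N + 1) * (1 + J) := by
    have := mul_le_mul_of_nonneg_left hJh (by positivity : (0 : ℝ) ≤ 2 * N)
    linarith
  have z4 : |2 * a * V - 2 * c * (x * V + W)| ≤ q * (2 * ((Ka + Kc * (2 * N + 1)) * (1 + J))) := by
    refine (abs_sub _ _).trans ((add_le_add z1 z2).trans ?_)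
    have e1 : Ka * h ≤ Ka * (1 + J) := mul_le_mul_of_nonneg_left hJh Ka0
    have e2 : Kc * (2 * N * h + J) ≤ Kc * ((2 * N + 1) * (1 + J)) :=
      mul_le_mul_of_nonneg_left z3 Kc0
    have e3 := mul_le_mul_of_nonneg_left (add_le_add e1 e2) q0
    calc 2 * Ka * (q * h) + 2 * Kc * (q * (2 * N * h + J))
        = 2 * (q * (Ka * h + Kc * (2 * N * h + J))) := by ring
      _ ≤ 2 * (q * (Ka * (1 + J) + Kc * ((2 * N + 1) * (1 + J)))) := by linarith
      _ = _ := by ring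
  have z5 : |2 * a * V - 2 * c * (x * V + W)| ≤
      2 * ε * (2 * ((Ka + Kc * (2 * N + 1)) * (1 + J))) :=
    z4.trans (mul_le_mul_of_nonneg_right hq (by positivity))
  have hdk : D * k ≤ L * 1 := mul_le_mul D1 k1 k0 L0
  rw [abs_mul, abs_of_nonneg (by positivity : 0 ≤ 1 / ε * D * k)]
  calc 1 / ε * D * k * |2 * a * V - 2 * c * (x * V + W)|
      = 1 / ε * ((D * k) * |2 * a * V - 2 * c * (x * V + W)|) := by ring
    _ ≤ 1 / ε * ((L * 1) * (2 * ε * (2 * ((Ka + Kc * (2 * N + 1)) * (1 + J))))) := by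
        refine mul_le_mul_of_nonneg_left ?_ (by positivity)
        exact mul_le_mul hdk z5 (abs_nonneg _) (by positivity)
    _ = _ := by field_simp; ring

lemma m_le {x h J j q ρ : ℝ} (hρq : ρ = x ^ 2 + q) (q0 : 0 ≤ q) (hjρ : j = ρ + J)
    (h2 : h ^ 2 = J) : |x| + h ≤ 2 * (1 + j) := by
  have e1 : |x| ≤ 1 + x ^ 2 := by
    have := sq_abs x
    nlinarith [sq_nonneg (|x| - 1)]
  have e2 := h_le h2
  have J0 : 0 ≤ J := by rw [← h2]; positivity
  have := sq_nonneg x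
  rw [hjρ, hρq]; linarith

lemma m_sq {x h J j q ρ : ℝ} (hρq : ρ = x ^ 2 + q) (q0 : 0 ≤ q) (hjρ : j = ρ + J)
    (h2 : h ^ 2 = J) : (|x| + h) ^ 2 ≤ 2 * j := by
  have := sq_abs x
  rw [hjρ, hρq, ← h2, ← this]
  nlinarith [sq_nonneg (|x| - h)]

lemma e3 {δ P L a A K T M j : ℝ} (δ0 : 0 < δ) (P0 : 0 ≤ P) (P1 : P ≤ L / δ) (L0 : 0 ≤ L)
    (K0 : 0 ≤ K) (T0 : 0 ≤ T) (ha : |a| ≤ K * T) (hA : |A| ≤ 4 * δ * M) (hM : M ≤ 2 * (1 + j))
    (j0 : 0 ≤ j) : P * (|a| * |A|) ≤ 8 * L * K * T * (1 + j) := by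
  calc P * (|a| * |A|) ≤ L / δ * ((K * T) * (4 * δ * (2 * (1 + j)))) := by
        refine mul_le_mul P1 ?_ (by positivity) (by positivity)
        refine mul_le_mul ha (hA.trans ?_) (abs_nonneg _) (by positivity)
        exact mul_le_mul_of_nonneg_left hM (by positivity)
    _ = 8 * L * K * T * (1 + j) := by field_simp; ring

lemma e4 {N P L a A c B K R1 R2 M Z : ℝ} (N0 : 0 < N) (P0 : 0 ≤ P) (P1 : P ≤ L / N) (L0 : 0 ≤ L)
    (K0 : 0 ≤ K) (R10 : 0 ≤ R1) (R20 : 0 ≤ R2) (ha : |a| ≤ K * R1) (hc : |c| ≤ K * R2) (M0 : 0 ≤ M)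
    (hA : |A| ≤ 4 * N * M) (B0 : 0 ≤ B) (hB : B ≤ 8 * N * M ^ 2) (hZ : R1 * M + R2 * M ^ 2 ≤ 4 * Z)
    (Z0 : 0 ≤ Z) : P * (|a| * |A| + 1 / 2 * (|c| * B)) ≤ 16 * L * K * Z := by
  have e1 : |a| * |A| ≤ (K * R1) * (4 * N * M) := mul_le_mul ha hA (abs_nonneg _) (by positivity)
  have e2 : |c| * B ≤ (K * R2) * (8 * N * M ^ 2) := mul_le_mul hc hB B0 (by positivity)
  have e3 : |a| * |A| + 1 / 2 * (|c| * B) ≤ 4 * N * K * (4 * Z) := by
    calc |a| * |A| + 1 / 2 * (|c| * B)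
        ≤ (K * R1) * (4 * N * M) + 1 / 2 * ((K * R2) * (8 * N * M ^ 2)) := by linarith
      _ = 4 * N * K * (R1 * M + R2 * M ^ 2) := by ring
      _ ≤ _ := mul_le_mul_of_nonneg_left hZ (by positivity)
  calc P * (|a| * |A| + 1 / 2 * (|c| * B)) ≤ L / N * (4 * N * K * (4 * Z)) :=
        mul_le_mul P1 e3 (by positivity) (by positivity)
    _ = _ := by field_simp; ring

lemma sg_cases (p : ℝ) : sg p = 1 ∨ sg p = -1 := by
  unfold sg; split_ifs <;> simp

lemma sg_abs (p y : ℝ) : sg p * y ≤ |y| := by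
  rcases sg_cases p with h | h <;> rw [h]
  · rw [one_mul]; exact le_abs_self y
  · rw [neg_one_mul]; exact neg_le_abs y

end CC

open CC in
theorem stmtCC (hB : StmtCB) : StmtCC := by
  intro p g e g' e' K hp hp2 hG d
  obtain ⟨L, L0, hL⟩ := dst_bd
  have K0 : 0 ≤ K := (abs_nonneg _).trans (hG.bg 0 (by constructor <;> norm_num))
  have T0 : (0 : ℝ) < 2 ^ ((p - 1) / 2) := Real.rpow_pos_of_pos two_pos _
  refine ⟨8 * L * K * 2 ^ ((p - 1) / 2) + 16 * L * K + 1, by positivity, ?_⟩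
  intro δ N δ0 δ1 N2
  obtain ⟨Ka, hKa⟩ : ∃ Ka, Ka = K * (δ ^ ((p - 1) / 2) + (2 * N) ^ ((p - 1) / 2)) := ⟨_, rfl⟩
  obtain ⟨Kc, hKc⟩ : ∃ Kc, Kc = K * (δ ^ ((p - 2) / 2) + (2 * N) ^ ((p - 2) / 2)) := ⟨_, rfl⟩
  have N0 : 0 < N := by linarith
  have Ka0 : 0 ≤ Ka := by rw [hKa]; positivity
  have Kc0 : 0 ≤ Kc := by rw [hKc]; positivity
  refine ⟨4 * L * (Ka + Kc * (2 * N + 1)) + 1, by positivity, ?_⟩
  intro ε ε0 ε1 x v H
  obtain ⟨q, hq⟩ : ∃ q, q = jq v := ⟨_, rfl⟩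
  obtain ⟨ρ, hρ⟩ : ∃ ρ, ρ = jr x v := ⟨_, rfl⟩
  obtain ⟨J, hJ⟩ : ∃ J, J = jH H := ⟨_, rfl⟩
  obtain ⟨j, hj⟩ : ∃ j, j = jj x v H := ⟨_, rfl⟩
  have hρq : ρ = x ^ 2 + q := by rw [hρ, hq]; rfl
  have hjρ : j = ρ + J := by rw [hj, hρ, hJ]; rfl
  have q0 : 0 ≤ q := by rw [hq]; exact Finset.sum_nonneg fun i _ => sq_nonneg _
  have J0 : 0 ≤ J := by
    rw [hJ]; exact Finset.sum_nonneg fun i _ => Finset.sum_nonneg fun k _ => sq_nonneg _
  have ρ0 : 0 ≤ ρ := by rw [hρq]; positivity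
  have j0 : 0 ≤ j := by rw [hjρ]; linarith
  have i1 : ∀ (s : Set ℝ) (u : ℝ), 0 ≤ s.indicator (fun _ => (1 : ℝ)) u := fun s u =>
    Set.indicator_nonneg (fun _ _ => zero_le_one) u
  rw [← hq, ← hρ, ← hj]
  rcases q0.eq_or_lt with h0 | hpos
  · -- the degenerate case
    have v1 : cut ε δ N =ᶠ[𝓝 (x, ρ)] fun _ => 0 := by
      have hc : Continuous fun z : ℝ × ℝ => z.2 - z.1 ^ 2 := by fun_prop
      have ho : {z : ℝ × ℝ | z.2 - z.1 ^ 2 < ε} ∈ 𝓝 (x, ρ) := by
        refine (isOpen_Iio.preimage hc).mem_nhds ?_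
        show ρ - x ^ 2 < ε
        rw [hρq, ← h0]; linarith
      filter_upwards [ho] with z hz
      have hz' : z.2 - z.1 ^ 2 < ε := hz
      unfold cut
      rw [Real.smoothTransition.zero_of_nonpos, zero_mul]
      have : (z.2 - z.1 ^ 2) / ε < 1 := (div_lt_one ε0).2 hz'
      linarith
    have v2 : AF p g ε δ N =ᶠ[𝓝 (x, ρ)] fun _ => 0 := by
      filter_upwards [v1] with z hz
      unfold AF; rw [hz, zero_mul]
    have v3 : CF p e ε δ N =ᶠ[𝓝 (x, ρ)] fun _ => 0 := by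
      filter_upwards [v1] with z hz
      unfold CF; rw [hz, zero_mul]
    have : II (AF p g ε δ N) (CF p e ε δ N) x v H = 0 := by
      unfold II
      rw [← hρ, v2.fderiv_eq, v3.fderiv_eq, v2.eq_of_nhds, v3.eq_of_nhds]
      simp
    rw [this, mul_zero]
    have e1 : Real.smoothTransition (q / ε - 1) = 0 := by
      apply Real.smoothTransition.zero_of_nonpos
      rw [← h0]; simp
    rw [e1]
    have := Real.rpow_nonneg j0 (max p 2 / 2)
    have a1 := i1 (Set.Icc ε (2 * ε)) q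
    have a2 := i1 (Set.Icc δ (2 * δ)) ρ
    have a3 := i1 (Set.Ici N) ρ
    have : 0 ≤ 1 + j := by linarith
    rw [zero_mul, zero_mul, mul_zero, zero_add]
    positivity
  have hρ0 : 0 < ρ := by rw [hρq]; positivity
  rw [hB p g e g' e' K hp hG ε δ N ε0 δ0 N0 d x v H (by rw [← hq]; exact hpos)]
  rw [← hq, ← hρ, ← hJ]
  obtain ⟨V, hV⟩ : ∃ V, V = ∑ i, v i * jh H v i := ⟨_, rfl⟩
  obtain ⟨W, hW⟩ : ∃ W, W = ∑ i, jh H v i ^ 2 := ⟨_, rfl⟩
  have W0 : 0 ≤ W := by rw [hW]; exact Finset.sum_nonneg fun i _ => sq_nonneg _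
  have W1 : W ≤ J * q := by rw [hW, hJ, hq]; exact hv_sq v H
  have V1 : V ^ 2 ≤ J * q ^ 2 := by rw [hV, hJ, hq]; exact vhv_sq v H
  obtain ⟨h, hh⟩ : ∃ h, h = √J := ⟨_, rfl⟩
  have h0 : 0 ≤ h := by rw [hh]; exact Real.sqrt_nonneg _
  have h2 : h ^ 2 = J := by rw [hh]; exact Real.sq_sqrt J0
  obtain ⟨s1, s2, s3⟩ := scal (x := x) q0 h0 h2 W0 W1 V1
  obtain ⟨A, hA⟩ : ∃ A, A = ∑ i, v i * jw x v H i := ⟨_, rfl⟩
  obtain ⟨B, hB'⟩ : ∃ B, B = ∑ i, jw x v H i ^ 2 := ⟨_, rfl⟩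
  have A1 : A = 2 * (x * q + V) := by rw [hA, hq, hV]; exact sumA x v H
  have B1 : B = 4 * (x ^ 2 * q + 2 * x * V + W) := by rw [hB', hq, hV, hW]; exact sumB x v H
  have B0 : 0 ≤ B := by rw [hB']; exact Finset.sum_nonneg fun i _ => sq_nonneg _
  rw [sumC, sumD, ← hV, ← hW, ← hA, ← hB']
  rw [← A1] at s2
  rw [← B1] at s3
  obtain ⟨y, hy⟩ : ∃ y, y = x / √ρ := ⟨_, rfl⟩
  obtain ⟨s, hs⟩ : ∃ s, s = √ρ := ⟨_, rfl⟩
  have s0 : 0 < s := by rw [hs]; exact Real.sqrt_pos.2 hρ0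
  have ss : s ^ 2 = ρ := by rw [hs]; exact Real.sq_sqrt hρ0.le
  have hx : x = y * s := by rw [hy, hs]; field_simp
  have hq1 : q = ρ * (1 - y ^ 2) := by
    have : q = ρ - x ^ 2 := by rw [hρq]; ring
    rw [this, hx, mul_pow, ss]; ring
  have hy1 : 0 < 1 - y ^ 2 := by
    by_contra hc
    push Not at hc
    have : q ≤ 0 := by rw [hq1]; exact mul_nonpos_of_nonneg_of_nonpos hρ0.le hc
    linarith
  have hyI : y ∈ Set.Ioo (-1 : ℝ) 1 := by
    constructor <;> nlinarith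
  obtain ⟨a, ha⟩ : ∃ a, a = aF p g (x, ρ) := ⟨_, rfl⟩
  obtain ⟨c, hc⟩ : ∃ c, c = cF p e (x, ρ) := ⟨_, rfl⟩
  rw [← ha, ← hc]
  have ha1 : |a| ≤ K * ρ ^ ((p - 1) / 2) := by
    have : a = ρ ^ ((p - 1) / 2) * g y := by rw [ha, hy]; rfl
    rw [this, abs_mul, abs_of_nonneg (Real.rpow_nonneg hρ0.le _), mul_comm]
    exact mul_le_mul_of_nonneg_right (hG.bg y hyI) (Real.rpow_nonneg hρ0.le _)
  have hce : c = ρ ^ ((p - 2) / 2) * e y := by rw [hc, hy]; rfl
  have hc1 : |c| ≤ K * ρ ^ ((p - 2) / 2) := by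
    rw [hce, abs_mul, abs_of_nonneg (Real.rpow_nonneg hρ0.le _), mul_comm]
    exact mul_le_mul_of_nonneg_right (hG.be y hyI) (Real.rpow_nonneg hρ0.le _)
  have hcs : 0 ≤ sg p * c := by
    rw [hce]
    have := mul_nonneg (Real.rpow_nonneg hρ0.le ((p - 2) / 2)) (hG.pos1 y hyI)
    calc 0 ≤ ρ ^ ((p - 2) / 2) * (sg p * e y) := this
      _ = _ := by ring
  obtain ⟨R, hR⟩ : ∃ R, R = cR p e e' x ρ := ⟨_, rfl⟩
  rw [← hR]
  have hRs : 0 ≤ sg p * (2 * q * R + c) := by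
    have hpw : ρ ^ ((p - 2) / 2) = ρ ^ ((p - 4) / 2) * ρ := by
      rw [← Real.rpow_add_one hρ0.ne']; congr 1; ring
    have hRe : R = ρ ^ ((p - 4) / 2) * ((p - 2) / 2 * e y - 1 / 2 * y * e' y) := by
      rw [hR, hy]; rfl
    have : 2 * q * R + c = ρ ^ ((p - 2) / 2) * ((1 - y ^ 2) * ((p - 2) * e y - y * e' y) + e y) := by
      rw [hRe, hce, hq1, hpw]; ring
    rw [this]
    have := mul_nonneg (Real.rpow_nonneg hρ0.le ((p - 2) / 2)) (hG.pos2 y hyI)
    calc 0 ≤ ρ ^ ((p - 2) / 2) * (sg p * ((1 - y ^ 2) * ((p - 2) * e y - y * e' y) + e y)) := this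
      _ = _ := by ring
  -- the main bracket
  have LA : B / (4 * q) ≤ J - x ^ 2 + x / q * A := by
    have e1 : J - x ^ 2 + x / q * A - B / (4 * q) = (J * q - W) / q := by
      rw [A1, B1]; field_simp; ring
    have e2 : 0 ≤ (J * q - W) / q := div_nonneg (by linarith) q0
    linarith
  have main : 0 ≤ sg p * (1 / 2 * R * B + c * (J - x ^ 2 + x / q * A)) := by
    have e1 := mul_le_mul_of_nonneg_left LA hcs
    have e2 : sg p * (1 / 2 * R * B) + sg p * c * (B / (4 * q)) =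
        B / (4 * q) * (sg p * (2 * q * R + c)) := by
      field_simp; ring
    have e3 : 0 ≤ B / (4 * q) * (sg p * (2 * q * R + c)) :=
      mul_nonneg (by positivity) hRs
    calc 0 ≤ B / (4 * q) * (sg p * (2 * q * R + c)) := e3
      _ = sg p * (1 / 2 * R * B) + sg p * c * (B / (4 * q)) := e2.symm
      _ ≤ sg p * (1 / 2 * R * B) + sg p * c * (J - x ^ 2 + x / q * A) := by linarith
      _ = _ := by ring
  obtain ⟨ch, hch⟩ : ∃ ch, ch = Real.smoothTransition (q / ε - 1) := ⟨_, rfl⟩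
  obtain ⟨k, hk⟩ : ∃ k, k = kap δ N ρ := ⟨_, rfl⟩
  have ch0 : 0 ≤ ch := by rw [hch]; exact Real.smoothTransition.nonneg _
  have ch1 : ch ≤ 1 := by rw [hch]; exact Real.smoothTransition.le_one _
  have k0 : 0 ≤ k := by
    rw [hk]; unfold kap
    exact mul_nonneg (Real.smoothTransition.nonneg _)
      (by linarith [Real.smoothTransition.le_one (ρ / N - 1)])
  have k1 : k ≤ 1 := by
    rw [hk]; unfold kap
    exact mul_le_one₀ (Real.smoothTransition.le_one _)
      (by linarith [Real.smoothTransition.le_one (ρ / N - 1)])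
      (by linarith [Real.smoothTransition.nonneg (ρ / N - 1)])
  rw [← hch, ← hk]
  obtain ⟨Φ, hΦ⟩ : ∃ Φ, Φ = |x| ^ p - Cp p * ρ ^ (p / 2) := ⟨_, rfl⟩
  rw [← hΦ]
  have hxx : |x| ≤ s := by
    rw [hx, abs_mul, abs_of_pos s0]
    have : |y| ≤ 1 := by rw [abs_le]; exact ⟨hyI.1.le, hyI.2.le⟩
    exact mul_le_of_le_one_left s0.le this
  have hM0 : 0 ≤ |x| + h := add_nonneg (abs_nonneg _) h0
  -- second term
  have t2 : sg p * (1 / ε * deriv Real.smoothTransition (q / ε - 1) * k *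
      (2 * a * V - 2 * c * (x * V + W))) ≤
      (4 * L * (Ka + Kc * (2 * N + 1)) + 1) *
        (Set.Icc ε (2 * ε)).indicator (fun _ => (1 : ℝ)) q * (1 + j) := by
    by_cases hin : q ∈ Set.Icc ε (2 * ε)
    · rw [Set.indicator_of_mem hin, mul_one]
      refine (sg_abs _ _).trans ?_
      by_cases hk0 : k = 0
      · rw [hk0]; simp only [mul_zero, zero_mul, abs_zero]
        have : 0 ≤ 1 + j := by linarith
        positivity
      have hρr : δ ≤ ρ ∧ ρ ≤ 2 * N := by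
        constructor
        · by_contra hcon
          push Not at hcon
          apply hk0
          rw [hk]; unfold kap
          rw [Real.smoothTransition.zero_of_nonpos, zero_mul]
          have : ρ / δ < 1 := (div_lt_one δ0).2 hcon
          linarith
        · by_contra hcon
          push Not at hcon
          apply hk0
          rw [hk]; unfold kap
          rw [Real.smoothTransition.one_of_one_le (x := ρ / N - 1), sub_self, mul_zero]
          have : 2 ≤ ρ / N := by rw [le_div_iff₀ N0]; exact hcon.le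
          linarith
      have ha2 : |a| ≤ Ka := by
        rw [hKa]; exact ha1.trans (mul_le_mul_of_nonneg_left (rpow_bd δ0 hρr.1 hρr.2) K0)
      have hc2 : |c| ≤ Kc := by
        rw [hKc]; exact hc1.trans (mul_le_mul_of_nonneg_left (rpow_bd δ0 hρr.1 hρr.2) K0)
      have hx2 : |x| ≤ 2 * N := by
        have h3 : x ^ 2 ≤ ρ := by rw [hρq]; linarith
        have h4 : 2 * N * 1 ≤ 2 * N * (2 * N) :=
          mul_le_mul_of_nonneg_left (by linarith) (by linarith)
        have : x ^ 2 ≤ (2 * N) ^ 2 := by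
          rw [sq (2 * N)]; linarith [hρr.2]
        exact abs_le_of_sq_le_sq this (by positivity)
      have hE := CC.e2 ε0 q0 hin.2 k0 k1 (dst_nn (q / ε - 1)) (hL (q / ε - 1)) ha2 hc2 N0 hx2 h0 h2
        s1 W0 W1
      refine hE.trans ?_
      refine mul_le_mul (by linarith) (by rw [hjρ]; linarith) (by linarith) (by positivity)
    · have : deriv Real.smoothTransition (q / ε - 1) = 0 := by
        apply dst_out
        rw [Set.mem_Icc, not_and_or] at hin
        rcases hin with h' | h'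
        · left
          have : q / ε < 1 := (div_lt_one ε0).2 (not_le.1 h')
          linarith
        · right
          have : 2 < q / ε := by rw [lt_div_iff₀ ε0]; exact not_le.1 h'
          linarith
      rw [this, Set.indicator_of_notMem hin]
      simp
  -- third term
  have t3 : sg p * (ch * deriv (kap δ N) ρ * (a * A - 1 / 2 * c * B)) ≤
      (8 * L * K * 2 ^ ((p - 1) / 2) + 16 * L * K + 1) *
        (Set.Icc δ (2 * δ)).indicator (fun _ => (1 : ℝ)) ρ * (1 + j) +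
      (8 * L * K * 2 ^ ((p - 1) / 2) + 16 * L * K + 1) *
        (Set.Ici N).indicator (fun _ => (1 : ℝ)) ρ * j ^ (max p 2 / 2) := by
    rw [kap_d]
    obtain ⟨P1, hP1⟩ : ∃ P1, P1 = deriv st (ρ / δ - 1) / δ * (1 - st (ρ / N - 1)) := ⟨_, rfl⟩
    obtain ⟨P2, hP2⟩ : ∃ P2, P2 = st (ρ / δ - 1) * (deriv st (ρ / N - 1) / N) := ⟨_, rfl⟩
    rw [← hP1, ← hP2]
    have st0 := fun u => Real.smoothTransition.nonneg u
    have st1 := fun u => Real.smoothTransition.le_one u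
    have P10 : 0 ≤ P1 := by
      rw [hP1]
      exact mul_nonneg (div_nonneg (dst_nn _) δ0.le) (by linarith [st1 (ρ / N - 1)])
    have P20 : 0 ≤ P2 := by
      rw [hP2]
      exact mul_nonneg (st0 _) (div_nonneg (dst_nn _) N0.le)
    obtain ⟨Y, hY⟩ : ∃ Y, Y = sg p * (a * A - 1 / 2 * c * B) := ⟨_, rfl⟩
    have Yu : Y ≤ |a| * |A| := by
      have e1 : sg p * (a * A) ≤ |a| * |A| := by rw [← abs_mul]; exact sg_abs _ _
      have e2 := mul_nonneg hcs B0
      have : Y = sg p * (a * A) - 1 / 2 * (sg p * c * B) := by rw [hY]; ring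
      rw [this]; linarith
    have Yl : -Y ≤ |a| * |A| + 1 / 2 * (|c| * B) := by
      have e1 : -(sg p * (a * A)) ≤ |a| * |A| := by
        rw [← abs_mul]
        have := sg_abs p (-(a * A))
        rw [abs_neg] at this
        linarith
      have e2 : sg p * (c * B) ≤ |c| * B := by
        have := sg_abs p (c * B)
        rwa [abs_mul, abs_of_nonneg B0] at this
      have : Y = sg p * (a * A) - 1 / 2 * (sg p * (c * B)) := by rw [hY]; ring
      rw [this]; linarith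
    have z1 : sg p * (ch * (P1 - P2) * (a * A - 1 / 2 * c * B)) = ch * (P1 * Y - P2 * Y) := by
      rw [hY]; ring
    have z2 : ch * (P1 * Y - P2 * Y) ≤ P1 * (|a| * |A|) + P2 * (|a| * |A| + 1 / 2 * (|c| * B)) := by
      have e1 : P1 * Y ≤ P1 * (|a| * |A|) := mul_le_mul_of_nonneg_left Yu P10
      have e2 : P2 * (-Y) ≤ P2 * (|a| * |A| + 1 / 2 * (|c| * B)) := mul_le_mul_of_nonneg_left Yl P20
      have e3 : 0 ≤ P1 * (|a| * |A|) + P2 * (|a| * |A| + 1 / 2 * (|c| * B)) := by positivity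
      calc ch * (P1 * Y - P2 * Y) ≤ ch * (P1 * (|a| * |A|) + P2 * (|a| * |A| + 1 / 2 * (|c| * B))) :=
            mul_le_mul_of_nonneg_left (by linarith) ch0
        _ ≤ 1 * (P1 * (|a| * |A|) + P2 * (|a| * |A| + 1 / 2 * (|c| * B))) :=
            mul_le_mul_of_nonneg_right ch1 e3
        _ = _ := one_mul _
    rw [z1]
    refine z2.trans (add_le_add ?_ ?_)
    · -- near zero
      by_cases hin : ρ ∈ Set.Icc δ (2 * δ)
      · rw [Set.indicator_of_mem hin, mul_one]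
        have p1 : P1 ≤ L / δ := by
          rw [hP1]
          calc deriv st (ρ / δ - 1) / δ * (1 - st (ρ / N - 1)) ≤ L / δ * 1 := by
                refine mul_le_mul (div_le_div_of_nonneg_right (hL _) δ0.le)
                  (by linarith [st0 (ρ / N - 1)]) (by linarith [st1 (ρ / N - 1)]) (by positivity)
            _ = _ := mul_one _
        have p2 : |a| ≤ K * 2 ^ ((p - 1) / 2) := by
          refine ha1.trans (mul_le_mul_of_nonneg_left ?_ K0)
          exact Real.rpow_le_rpow hρ0.le (by linarith [hin.2]) (by linarith)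
        have hq2 : 2 * q ≤ 4 * δ := by
          have := hin.2
          rw [hρq] at this
          linarith [sq_nonneg x]
        have p3 : |A| ≤ 4 * δ * (|x| + h) := s2.trans (mul_le_mul_of_nonneg_right hq2 hM0)
        have p4 : |x| + h ≤ 2 * (1 + j) := m_le hρq q0 hjρ h2
        refine (CC.e3 δ0 P10 p1 L0.le K0 T0.le p2 p3 p4 j0).trans ?_
        refine mul_le_mul_of_nonneg_right ?_ (by linarith)
        have : 0 ≤ 16 * L * K := by positivity
        linarith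
      · have : P1 = 0 := by
          rw [hP1]
          have : deriv st (ρ / δ - 1) = 0 := by
            apply dst_out
            rw [Set.mem_Icc, not_and_or] at hin
            rcases hin with h' | h'
            · left
              have : ρ / δ < 1 := (div_lt_one δ0).2 (not_le.1 h')
              linarith
            · right
              have : 2 < ρ / δ := by rw [lt_div_iff₀ δ0]; exact not_le.1 h'
              linarith
          rw [this]; simp
        rw [this, Set.indicator_of_notMem hin]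
        simp
    · -- far away
      by_cases hin : ρ ∈ Set.Icc N (2 * N)
      · have hin' : ρ ∈ Set.Ici N := hin.1
        rw [Set.indicator_of_mem hin', mul_one]
        have p1 : P2 ≤ L / N := by
          rw [hP2]
          calc st (ρ / δ - 1) * (deriv st (ρ / N - 1) / N) ≤ 1 * (L / N) := by
                refine mul_le_mul (st1 _) (div_le_div_of_nonneg_right (hL _) N0.le)
                  (div_nonneg (dst_nn _) N0.le) zero_le_one
            _ = _ := one_mul _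
        have hqN : q ≤ 2 * N := by
          have := hin.2
          rw [hρq] at this
          linarith [sq_nonneg x]
        have hM2 : (|x| + h) ^ 2 ≤ 2 * j := m_sq hρq q0 hjρ h2
        have hfar := far hp (by linarith [hin.1] : 1 ≤ ρ) (by rw [hjρ]; linarith : ρ ≤ j) hM0 hM2
        have hA4 : |A| ≤ 4 * N * (|x| + h) :=
          s2.trans (mul_le_mul_of_nonneg_right (by linarith) hM0)
        have hB8 : B ≤ 8 * N * (|x| + h) ^ 2 :=
          s3.trans (mul_le_mul_of_nonneg_right (by linarith) (sq_nonneg _))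
        refine (CC.e4 N0 P20 p1 L0.le K0 (Real.rpow_nonneg hρ0.le _) (Real.rpow_nonneg hρ0.le _)
          ha1 hc1 hM0 hA4 B0 hB8 hfar (Real.rpow_nonneg j0 _)).trans ?_
        refine mul_le_mul_of_nonneg_right ?_ (Real.rpow_nonneg j0 _)
        have : 0 ≤ 8 * L * K * 2 ^ ((p - 1) / 2) := by positivity
        linarith
      · have : P2 = 0 := by
          rw [hP2]
          have : deriv st (ρ / N - 1) = 0 := by
            apply dst_out
            rw [Set.mem_Icc, not_and_or] at hin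
            rcases hin with h' | h'
            · left
              have : ρ / N < 1 := (div_lt_one N0).2 (not_le.1 h')
              linarith
            · right
              have : 2 < ρ / N := by rw [lt_div_iff₀ N0]; exact not_le.1 h'
              linarith
          rw [this]; simp
        rw [this, zero_mul]
        have a3 := i1 (Set.Ici N) ρ
        have := Real.rpow_nonneg j0 (max p 2 / 2)
        positivity
  have fin : sg p * (ch * k * (Φ - (1 / 2 * R * B + c * (J - x ^ 2 + x / q * A)))) ≤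
      sg p * (ch * k * Φ) := by
    have := mul_nonneg (mul_nonneg ch0 k0) main
    have e : sg p * (ch * k * (Φ - (1 / 2 * R * B + c * (J - x ^ 2 + x / q * A)))) =
      sg p * (ch * k * Φ) - ch * k * (sg p * (1 / 2 * R * B + c * (J - x ^ 2 + x / q * A))) := by
      ring
    rw [e]; linarith
  rw [mul_add, mul_add]
  linarith

end

end Pool.Agent.T6.H5.PL
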