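import Pool.Agent.T6.H5.PL.Defs

/-!
Project PL (helper5), MP_4fa179_mp, module CD: the inequality for random jets.
-/

set_option autoImplicit false
open MeasureTheory Filter Topology Finset
open scoped ContDiff ENNReal
open Pool.Agent.Y139.SW Pool.Agent.T6.H5.PW

namespace Pool.Agent.T6.H5.PL

namespace ModCD

lemma chi_nonneg (x : ℝ) : 0 ≤ Real.smoothTransition x := Real.smoothTransition.nonneg x

lemma chi_le (x : ℝ) : Real.smoothTransition x ≤ 1 := Real.smoothTransition.le_one x

lemma kap_nonneg (δ N ρ : ℝ) : 0 ≤ kap δ N ρ :=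
  mul_nonneg (chi_nonneg _) (by linarith [chi_le (ρ / N - 1)])

lemma kap_le (δ N ρ : ℝ) : kap δ N ρ ≤ 1 := by
  unfold kap
  calc Real.smoothTransition (ρ / δ - 1) * (1 - Real.smoothTransition (ρ / N - 1))
      ≤ 1 * 1 := mul_le_mul (chi_le _) (by linarith [chi_nonneg (ρ / N - 1)])
        (by linarith [chi_le (ρ / N - 1)]) zero_le_one
    _ = 1 := one_mul _

lemma kap_cont (δ N : ℝ) : Continuous (kap δ N) := by
  unfold kap
  have h := Real.smoothTransition.continuous
  exact (h.comp (by fun_prop)).mul (continuous_const.sub (h.comp (by fun_prop)))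

/-- convergence of the cutoff in `q` -/
lemma chi_tendsto {q : ℝ} (hq : 0 ≤ q) :
    Tendsto (fun n : ℕ => Real.smoothTransition (q / (1 / ((n : ℝ) + 2)) - 1)) atTop
      (𝓝 (if 0 < q then 1 else 0)) := by
  split_ifs with h
  · refine tendsto_const_nhds.congr' ?_
    filter_upwards [eventually_ge_atTop (Nat.ceil (2 / q))] with n hn
    symm
    refine Real.smoothTransition.one_of_one_le ?_
    have h1 : 2 / q ≤ n := (Nat.le_ceil _).trans (by exact_mod_cast hn)
    rw [div_le_iff₀ h] at h1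
    have h2 : q / (1 / ((n : ℝ) + 2)) = q * (n + 2) := by field_simp
    rw [h2]
    nlinarith
  · have h0 : q = 0 := le_antisymm (not_lt.mp h) hq
    refine tendsto_const_nhds.congr' (Eventually.of_forall fun n => ?_)
    symm
    refine Real.smoothTransition.zero_of_nonpos ?_
    rw [h0]; simp

lemma ind_tendsto {q : ℝ} (hq : 0 ≤ q) {a : ℕ → ℝ} (ha : ∀ n, 0 < a n)
    (hlim : Tendsto a atTop (𝓝 0)) :
    Tendsto (fun n : ℕ => (Set.Icc (a n) (2 * a n)).indicator (fun _ => (1 : ℝ)) q) atTop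
      (𝓝 0) := by
  refine tendsto_const_nhds.congr' ?_
  rcases hq.eq_or_lt with h | h
  · refine Eventually.of_forall fun n => ?_
    beta_reduce
    rw [Set.indicator_of_notMem]
    intro h2
    have := h2.1
    have := ha n
    linarith
  · have h1 : ∀ᶠ n in atTop, a n < q / 2 := hlim.eventually_lt_const (by linarith)
    filter_upwards [h1] with n hn
    rw [Set.indicator_of_notMem]
    intro h2
    have := h2.2
    linarith

lemma indN_tendsto (q : ℝ) :
    Tendsto (fun n : ℕ => (Set.Ici ((n : ℝ) + 2)).indicator (fun _ => (1 : ℝ)) q) atTop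
      (𝓝 0) := by
  refine tendsto_const_nhds.congr' ?_
  filter_upwards [eventually_ge_atTop (Nat.ceil q)] with n hn
  rw [Set.indicator_of_notMem]
  intro h2
  have h1 : q ≤ n := (Nat.le_ceil _).trans (by exact_mod_cast hn)
  have h3 : (n : ℝ) + 2 ≤ q := h2
  linarith

lemma kap_tendsto {ρ : ℝ} (h : 0 < ρ) :
    Tendsto (fun n : ℕ => kap (1 / ((n : ℝ) + 1)) ((n : ℝ) + 2) ρ) atTop (𝓝 1) := by
  refine tendsto_const_nhds.congr' ?_
  filter_upwards [eventually_ge_atTop (Nat.ceil (2 / ρ)), eventually_ge_atTop (Nat.ceil ρ)]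
    with n hn hn2
  have h1 : 2 / ρ ≤ n := (Nat.le_ceil _).trans (by exact_mod_cast hn)
  have h2 : ρ ≤ n := (Nat.le_ceil _).trans (by exact_mod_cast hn2)
  rw [div_le_iff₀ h] at h1
  unfold kap
  rw [Real.smoothTransition.one_of_one_le, Real.smoothTransition.zero_of_nonpos]
  · ring
  · have : ρ / ((n : ℝ) + 2) ≤ 1 := by
      rw [div_le_one (by positivity)]; linarith
    linarith
  · have h3 : ρ / (1 / ((n : ℝ) + 1)) = ρ * (n + 1) := by field_simp
    rw [h3]
    nlinarith

lemma jq_nonneg {d : ℕ} (v : Fin d → ℝ) : 0 ≤ jq v := Finset.sum_nonneg fun _ _ => sq_nonneg _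

lemma jq_eq_zero {d : ℕ} {v : Fin d → ℝ} (h : jq v = 0) : v = 0 := by
  funext i
  have := (Finset.sum_eq_zero_iff_of_nonneg (fun i _ => sq_nonneg (v i))).mp h i (Finset.mem_univ i)
  simpa using this

lemma jH_nonneg {d : ℕ} (H : Fin d → Fin d → ℝ) : 0 ≤ jH H :=
  Finset.sum_nonneg fun _ _ => Finset.sum_nonneg fun _ _ => sq_nonneg _

lemma jr_nonneg {d : ℕ} (x : ℝ) (v : Fin d → ℝ) : 0 ≤ jr x v :=
  add_nonneg (sq_nonneg _) (jq_nonneg _)

lemma jr_le_jj {d : ℕ} (x : ℝ) (v : Fin d → ℝ) (H : Fin d → Fin d → ℝ) : jr x v ≤ jj x v H := by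
  unfold jj
  linarith [jH_nonneg H]

lemma rpow_bd {p ρ J : ℝ} (hp : 1 ≤ p) (h0 : 0 ≤ ρ) (hJ : ρ ≤ J) :
    ρ ^ (p / 2) ≤ 1 + J ^ (max p 2 / 2) := by
  have hJ0 : 0 ≤ J := h0.trans hJ
  rcases le_total 2 p with h | h
  · rw [max_eq_left h]
    have := Real.rpow_le_rpow h0 hJ (by positivity : 0 ≤ p / 2)
    linarith
  · rw [max_eq_right h]
    norm_num
    rcases le_total ρ 1 with h1 | h1
    · have := Real.rpow_le_one h0 h1 (by positivity : 0 ≤ p / 2)
      linarith
    · have := Real.rpow_le_rpow_of_exponent_le h1 (by linarith : p / 2 ≤ 1)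
      rw [Real.rpow_one] at this
      linarith

lemma abs_rpow_le {d : ℕ} {p : ℝ} (hp : 1 ≤ p) (x : ℝ) (v : Fin d → ℝ) :
    |x| ^ p ≤ jr x v ^ (p / 2) := by
  have h1 : |x| ^ p = (x ^ 2) ^ (p / 2) := by
    rw [← sq_abs, ← Real.rpow_natCast, ← Real.rpow_mul (abs_nonneg x)]
    congr 1
    push_cast
    ring
  rw [h1]
  refine Real.rpow_le_rpow (sq_nonneg _) ?_ (by positivity)
  unfold jr
  linarith [jq_nonneg v]

end ModCD

open ModCD

theorem stmtCD.{u} (hG : StmtGE) (hA : StmtCA) (hC : StmtCC) : StmtCD.{u} := by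
  intro p hp hp2 d S _ P _ X V H hX hV hH hJ hJm hnull hII
  obtain ⟨g, e, g', e', K, hgp⟩ := hG p hp hp2
  obtain ⟨K₁, hK1, hC'⟩ := hC p g e g' e' K hp hp2 hgp d
  have hmq : Measurable fun s => jq (V s) := by
    unfold jq
    exact Finset.measurable_sum _ fun i _ => (hV i).pow_const 2
  have hmr : Measurable fun s => jr (X s) (V s) := by
    unfold jr
    exact (hX.pow_const 2).add hmq
  have hmJ : Measurable fun s => jj (X s) (V s) (H s) := by
    unfold jj jH
    exact hmr.add (Finset.measurable_sum _ fun i _ =>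
      Finset.measurable_sum _ fun j _ => (hH i j).pow_const 2)
  set m := max p 2 / 2 with hm
  have hJ0 : ∀ s, 0 ≤ jj (X s) (V s) (H s) := fun s => (jr_nonneg _ _).trans (jr_le_jj _ _ _)
  -- integrability of the two powers
  have hIr : Integrable (fun s => jr (X s) (V s) ^ (p / 2)) P := by
    refine Integrable.mono' (g := fun s => 1 + jj (X s) (V s) (H s) ^ m)
      ((integrable_const 1).add hJm) (hmr.pow_const _).aestronglyMeasurable
      (ae_of_all _ fun s => ?_)
    rw [Real.norm_eq_abs, abs_of_nonneg (Real.rpow_nonneg (jr_nonneg _ _) _)]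
    exact rpow_bd hp (jr_nonneg _ _) (jr_le_jj _ _ _)
  have hIX : Integrable (fun s => |X s| ^ p) P := by
    refine Integrable.mono' hIr ((hX.norm).pow_const _).aestronglyMeasurable
      (ae_of_all _ fun s => ?_)
    rw [Real.norm_eq_abs, abs_of_nonneg (Real.rpow_nonneg (abs_nonneg _) _)]
    exact abs_rpow_le hp _ _
  set Ps : S → ℝ := fun s => |X s| ^ p - Cp p * jr (X s) (V s) ^ (p / 2) with hPs
  have hIP : Integrable Ps P := hIX.sub (hIr.const_mul _)
  have hmP : Measurable Ps := ((hX.norm).pow_const _).sub ((hmr.pow_const _).const_mul _)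
  -- bound for `sg`
  have hsg : |sg p| ≤ 1 := by
    unfold sg
    split_ifs <;> norm_num
  have hchim := Real.smoothTransition.continuous.measurable
  -- the first limit
  have step1 : ∀ δ N : ℝ, 0 < δ → δ ≤ 1 → 2 ≤ N →
      0 ≤ ∫ s, (sg p * ((if 0 < jq (V s) then (1 : ℝ) else 0) * kap δ N (jr (X s) (V s)) * Ps s) +
        K₁ * (Set.Icc δ (2 * δ)).indicator (fun _ => (1 : ℝ)) (jr (X s) (V s)) *
          (1 + jj (X s) (V s) (H s)) +
        K₁ * (Set.Ici N).indicator (fun _ => (1 : ℝ)) (jr (X s) (V s)) *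
          jj (X s) (V s) (H s) ^ m) ∂P := by
    intro δ N hδ hδ1 hN
    obtain ⟨K₂, hK2, hC2⟩ := hC' δ N hδ hδ1 hN
    set F : ℕ → S → ℝ := fun n s =>
      sg p * (Real.smoothTransition (jq (V s) / (1 / ((n : ℝ) + 2)) - 1) *
        kap δ N (jr (X s) (V s)) * Ps s) +
      K₂ * (Set.Icc (1 / ((n : ℝ) + 2)) (2 * (1 / ((n : ℝ) + 2)))).indicator
        (fun _ => (1 : ℝ)) (jq (V s)) * (1 + jj (X s) (V s) (H s)) +
      K₁ * (Set.Icc δ (2 * δ)).indicator (fun _ => (1 : ℝ)) (jr (X s) (V s)) *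
        (1 + jj (X s) (V s) (H s)) +
      K₁ * (Set.Ici N).indicator (fun _ => (1 : ℝ)) (jr (X s) (V s)) *
        jj (X s) (V s) (H s) ^ m with hF
    have hFm : ∀ n, AEStronglyMeasurable (F n) P := by
      intro n
      refine Measurable.aestronglyMeasurable ?_
      have i1 : Measurable fun s => (Set.Icc (1 / ((n : ℝ) + 2)) (2 * (1 / ((n : ℝ) + 2)))).indicator
        (fun _ => (1 : ℝ)) (jq (V s)) :=
        (measurable_const.indicator measurableSet_Icc).comp hmq
      have i2 : Measurable fun s => (Set.Icc δ (2 * δ)).indicator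
        (fun _ => (1 : ℝ)) (jr (X s) (V s)) :=
        (measurable_const.indicator measurableSet_Icc).comp hmr
      have i3 : Measurable fun s => (Set.Ici N).indicator
        (fun _ => (1 : ℝ)) (jr (X s) (V s)) :=
        (measurable_const.indicator measurableSet_Ici).comp hmr
      have i4 : Measurable fun s => Real.smoothTransition (jq (V s) / (1 / ((n : ℝ) + 2)) - 1) :=
        hchim.comp ((hmq.div_const _).sub_const _)
      have i5 : Measurable fun s => kap δ N (jr (X s) (V s)) :=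
        (kap_cont δ N).measurable.comp hmr
      exact (((((i4.mul i5).mul hmP).const_mul _).add
        ((i1.const_mul _).mul (hmJ.const_add _))).add
        ((i2.const_mul _).mul (hmJ.const_add _))).add ((i3.const_mul _).mul (hmJ.pow_const _))
    have hind : ∀ (A : Set ℝ) (x : ℝ), 0 ≤ A.indicator (fun _ => (1 : ℝ)) x ∧
        A.indicator (fun _ => (1 : ℝ)) x ≤ 1 := by
      intro A x
      by_cases h : x ∈ A
      · rw [Set.indicator_of_mem h]; norm_num
      · rw [Set.indicator_of_notMem h]; norm_num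
    have hbd : ∀ n, ∀ᵐ s ∂P, ‖F n s‖ ≤ |Ps s| + K₂ * (1 + jj (X s) (V s) (H s)) +
        K₁ * (1 + jj (X s) (V s) (H s)) + K₁ * jj (X s) (V s) (H s) ^ m := by
      intro n
      refine ae_of_all _ fun s => ?_
      have hJs := hJ0 s
      have hJs' := Real.rpow_nonneg hJs m
      rw [Real.norm_eq_abs]
      have a1 : |sg p * (Real.smoothTransition (jq (V s) / (1 / ((n : ℝ) + 2)) - 1) *
        kap δ N (jr (X s) (V s)) * Ps s)| ≤ |Ps s| := by
        rw [abs_mul, abs_mul, abs_mul, abs_of_nonneg (chi_nonneg _), abs_of_nonneg (kap_nonneg _ _ _)]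
        have b1 : Real.smoothTransition (jq (V s) / (1 / ((n : ℝ) + 2)) - 1) *
          kap δ N (jr (X s) (V s)) ≤ 1 := by
          calc _ ≤ (1 : ℝ) * 1 := mul_le_mul (chi_le _) (kap_le _ _ _) (kap_nonneg _ _ _) zero_le_one
            _ = 1 := one_mul _
        have b2 : Real.smoothTransition (jq (V s) / (1 / ((n : ℝ) + 2)) - 1) *
          kap δ N (jr (X s) (V s)) * |Ps s| ≤ |Ps s| := by
          calc _ ≤ 1 * |Ps s| := mul_le_mul_of_nonneg_right b1 (abs_nonneg _)
            _ = _ := one_mul _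
        calc |sg p| * (Real.smoothTransition (jq (V s) / (1 / ((n : ℝ) + 2)) - 1) *
          kap δ N (jr (X s) (V s)) * |Ps s|) ≤ 1 * |Ps s| :=
              mul_le_mul hsg b2 (mul_nonneg (mul_nonneg (chi_nonneg _) (kap_nonneg _ _ _))
                (abs_nonneg _)) zero_le_one
          _ = _ := one_mul _
      have gen : ∀ (A : Set ℝ) (x K W : ℝ), 0 < K → 0 ≤ W →
          |K * A.indicator (fun _ => (1 : ℝ)) x * W| ≤ K * W := by
        intro A x K W hK hW
        obtain ⟨c1, c2⟩ := hind A x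
        rw [abs_of_nonneg (mul_nonneg (mul_nonneg hK.le c1) hW)]
        refine mul_le_mul_of_nonneg_right ?_ hW
        calc K * A.indicator (fun _ => (1 : ℝ)) x ≤ K * 1 := mul_le_mul_of_nonneg_left c2 hK.le
          _ = K := mul_one _
      have a2 := gen (Set.Icc (1 / ((n : ℝ) + 2)) (2 * (1 / ((n : ℝ) + 2)))) (jq (V s)) K₂
        (1 + jj (X s) (V s) (H s)) hK2 (by linarith)
      have a3 := gen (Set.Icc δ (2 * δ)) (jr (X s) (V s)) K₁
        (1 + jj (X s) (V s) (H s)) hK1 (by linarith)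
      have a4 := gen (Set.Ici N) (jr (X s) (V s)) K₁ (jj (X s) (V s) (H s) ^ m) hK1 hJs'
      simp only [hF]
      refine (abs_add_le _ _).trans (add_le_add ((abs_add_le _ _).trans
        (add_le_add ((abs_add_le _ _).trans (add_le_add a1 a2)) a3)) a4)
    have hbi : Integrable (fun s => |Ps s| + K₂ * (1 + jj (X s) (V s) (H s)) +
        K₁ * (1 + jj (X s) (V s) (H s)) + K₁ * jj (X s) (V s) (H s) ^ m) P := by
      have i1 : Integrable (fun s => 1 + jj (X s) (V s) (H s)) P := (integrable_const 1).add hJ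
      exact ((hIP.abs.add (i1.const_mul _)).add (i1.const_mul _)).add (hJm.const_mul _)
    have hlim : Tendsto (fun n => ∫ s, F n s ∂P) atTop (𝓝 (∫ s,
        (sg p * ((if 0 < jq (V s) then (1 : ℝ) else 0) * kap δ N (jr (X s) (V s)) * Ps s) +
        K₁ * (Set.Icc δ (2 * δ)).indicator (fun _ => (1 : ℝ)) (jr (X s) (V s)) *
          (1 + jj (X s) (V s) (H s)) +
        K₁ * (Set.Ici N).indicator (fun _ => (1 : ℝ)) (jr (X s) (V s)) *
          jj (X s) (V s) (H s) ^ m) ∂P)) := by
      refine tendsto_integral_of_dominated_convergence _ hFm hbi hbd (ae_of_all _ fun s => ?_)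
      have t1 := chi_tendsto (jq_nonneg (V s))
      have ha : Tendsto (fun n : ℕ => 1 / ((n : ℝ) + 2)) atTop (𝓝 0) := by
        have h1 := (tendsto_one_div_add_atTop_nhds_zero_nat (𝕜 := ℝ)).comp (tendsto_add_atTop_nat 1)
        refine h1.congr fun n => ?_
        simp only [Function.comp]
        push_cast
        congr 1
        ring
      have t2 := ind_tendsto (jq_nonneg (V s)) (a := fun n : ℕ => 1 / ((n : ℝ) + 2))
        (fun n => by positivity) ha
      have t3 := (((t1.mul_const (kap δ N (jr (X s) (V s)))).mul_const (Ps s)).const_mul (sg p))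
      have t4 := ((t2.const_mul K₂).mul_const (1 + jj (X s) (V s) (H s)))
      have t5 := ((t3.add t4).add_const
        (K₁ * (Set.Icc δ (2 * δ)).indicator (fun _ => (1 : ℝ)) (jr (X s) (V s)) *
        (1 + jj (X s) (V s) (H s)))).add_const
        (K₁ * (Set.Ici N).indicator (fun _ => (1 : ℝ)) (jr (X s) (V s)) *
        jj (X s) (V s) (H s) ^ m)
      simpa only [mul_zero, zero_mul, add_zero] using t5
    refine ge_of_tendsto' hlim fun n => ?_
    have hε0 : (0 : ℝ) < 1 / ((n : ℝ) + 2) := by positivity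
    have hε1 : 1 / ((n : ℝ) + 2) < 1 := by
      rw [div_lt_one (by positivity)]
      have : (0 : ℝ) ≤ n := Nat.cast_nonneg _
      linarith
    obtain ⟨⟨cA, sA⟩, ⟨cC, sC⟩⟩ := hA p g e g' e' K hp hgp (1 / ((n : ℝ) + 2)) δ N hε0 hδ
      (by linarith)
    obtain ⟨iI, zI⟩ := hII _ _ cA sA cC sC
    have h0 : ∫ s, sg p * II (AF p g (1 / ((n : ℝ) + 2)) δ N) (CF p e (1 / ((n : ℝ) + 2)) δ N)
        (X s) (V s) (H s) ∂P = 0 := by
      rw [integral_const_mul, zI, mul_zero]
    rw [← h0]
    refine integral_mono (iI.const_mul _) (Integrable.mono' hbi (hFm n) (hbd n)) fun s => ?_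
    exact hC2 (1 / ((n : ℝ) + 2)) hε0 hε1 (X s) (V s) (H s)
  -- the second limit
  have hind : ∀ (A : Set ℝ) (x : ℝ), 0 ≤ A.indicator (fun _ => (1 : ℝ)) x ∧
      A.indicator (fun _ => (1 : ℝ)) x ≤ 1 := by
    intro A x
    by_cases h : x ∈ A
    · rw [Set.indicator_of_mem h]; norm_num
    · rw [Set.indicator_of_notMem h]; norm_num
  have step2 : 0 ≤ ∫ s, sg p * ((if 0 < jq (V s) then (1 : ℝ) else 0) * Ps s) ∂P := by
    set F : ℕ → S → ℝ := fun n s =>
      sg p * ((if 0 < jq (V s) then (1 : ℝ) else 0) *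
        kap (1 / ((n : ℝ) + 1)) ((n : ℝ) + 2) (jr (X s) (V s)) * Ps s) +
        K₁ * (Set.Icc (1 / ((n : ℝ) + 1)) (2 * (1 / ((n : ℝ) + 1)))).indicator
          (fun _ => (1 : ℝ)) (jr (X s) (V s)) * (1 + jj (X s) (V s) (H s)) +
        K₁ * (Set.Ici ((n : ℝ) + 2)).indicator (fun _ => (1 : ℝ)) (jr (X s) (V s)) *
          jj (X s) (V s) (H s) ^ m with hF
    have hmi : Measurable fun s => (if 0 < jq (V s) then (1 : ℝ) else 0) :=
      Measurable.ite (measurableSet_lt measurable_const hmq) measurable_const measurable_const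
    have hFm : ∀ n, AEStronglyMeasurable (F n) P := by
      intro n
      refine Measurable.aestronglyMeasurable ?_
      have i2 : Measurable fun s => (Set.Icc (1 / ((n : ℝ) + 1)) (2 * (1 / ((n : ℝ) + 1)))).indicator
        (fun _ => (1 : ℝ)) (jr (X s) (V s)) :=
        (measurable_const.indicator measurableSet_Icc).comp hmr
      have i3 : Measurable fun s => (Set.Ici ((n : ℝ) + 2)).indicator
        (fun _ => (1 : ℝ)) (jr (X s) (V s)) :=
        (measurable_const.indicator measurableSet_Ici).comp hmr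
      have i5 : Measurable fun s => kap (1 / ((n : ℝ) + 1)) ((n : ℝ) + 2) (jr (X s) (V s)) :=
        (kap_cont _ _).measurable.comp hmr
      exact ((((hmi.mul i5).mul hmP).const_mul _).add
        ((i2.const_mul _).mul (hmJ.const_add _))).add ((i3.const_mul _).mul (hmJ.pow_const _))
    have hbd : ∀ n, ∀ᵐ s ∂P, ‖F n s‖ ≤ |Ps s| +
        K₁ * (1 + jj (X s) (V s) (H s)) + K₁ * jj (X s) (V s) (H s) ^ m := by
      intro n
      refine ae_of_all _ fun s => ?_
      have hJs := hJ0 s
      have hJs' := Real.rpow_nonneg hJs m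
      rw [Real.norm_eq_abs]
      have hite0 : (0 : ℝ) ≤ (if 0 < jq (V s) then (1 : ℝ) else 0) := by split_ifs <;> norm_num
      have hite1 : (if 0 < jq (V s) then (1 : ℝ) else 0) ≤ 1 := by split_ifs <;> norm_num
      have a1 : |sg p * ((if 0 < jq (V s) then (1 : ℝ) else 0) *
        kap (1 / ((n : ℝ) + 1)) ((n : ℝ) + 2) (jr (X s) (V s)) * Ps s)| ≤ |Ps s| := by
        rw [abs_mul, abs_mul, abs_mul, abs_of_nonneg hite0, abs_of_nonneg (kap_nonneg _ _ _)]
        have b1 : (if 0 < jq (V s) then (1 : ℝ) else 0) *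
          kap (1 / ((n : ℝ) + 1)) ((n : ℝ) + 2) (jr (X s) (V s)) ≤ 1 := by
          calc _ ≤ (1 : ℝ) * 1 := mul_le_mul hite1 (kap_le _ _ _) (kap_nonneg _ _ _) zero_le_one
            _ = 1 := one_mul _
        have b2 : (if 0 < jq (V s) then (1 : ℝ) else 0) *
          kap (1 / ((n : ℝ) + 1)) ((n : ℝ) + 2) (jr (X s) (V s)) * |Ps s| ≤ |Ps s| := by
          calc _ ≤ 1 * |Ps s| := mul_le_mul_of_nonneg_right b1 (abs_nonneg _)
            _ = _ := one_mul _
        calc |sg p| * ((if 0 < jq (V s) then (1 : ℝ) else 0) *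
          kap (1 / ((n : ℝ) + 1)) ((n : ℝ) + 2) (jr (X s) (V s)) * |Ps s|) ≤ 1 * |Ps s| :=
              mul_le_mul hsg b2 (mul_nonneg (mul_nonneg hite0 (kap_nonneg _ _ _))
                (abs_nonneg _)) zero_le_one
          _ = _ := one_mul _
      have gen : ∀ (A : Set ℝ) (x K W : ℝ), 0 < K → 0 ≤ W →
          |K * A.indicator (fun _ => (1 : ℝ)) x * W| ≤ K * W := by
        intro A x K W hK hW
        obtain ⟨c1, c2⟩ := hind A x
        rw [abs_of_nonneg (mul_nonneg (mul_nonneg hK.le c1) hW)]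
        refine mul_le_mul_of_nonneg_right ?_ hW
        calc K * A.indicator (fun _ => (1 : ℝ)) x ≤ K * 1 := mul_le_mul_of_nonneg_left c2 hK.le
          _ = K := mul_one _
      have a3 := gen (Set.Icc (1 / ((n : ℝ) + 1)) (2 * (1 / ((n : ℝ) + 1)))) (jr (X s) (V s)) K₁
        (1 + jj (X s) (V s) (H s)) hK1 (by linarith)
      have a4 := gen (Set.Ici ((n : ℝ) + 2)) (jr (X s) (V s)) K₁ (jj (X s) (V s) (H s) ^ m) hK1 hJs'
      simp only [hF]
      exact (abs_add_le _ _).trans (add_le_add ((abs_add_le _ _).trans (add_le_add a1 a3)) a4)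
    have hbi : Integrable (fun s => |Ps s| +
        K₁ * (1 + jj (X s) (V s) (H s)) + K₁ * jj (X s) (V s) (H s) ^ m) P := by
      have i1 : Integrable (fun s => 1 + jj (X s) (V s) (H s)) P := (integrable_const 1).add hJ
      exact (hIP.abs.add (i1.const_mul _)).add (hJm.const_mul _)
    have hlim : Tendsto (fun n => ∫ s, F n s ∂P) atTop (𝓝 (∫ s,
        sg p * ((if 0 < jq (V s) then (1 : ℝ) else 0) * Ps s) ∂P)) := by
      refine tendsto_integral_of_dominated_convergence _ hFm hbi hbd (ae_of_all _ fun s => ?_)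
      have ha : Tendsto (fun n : ℕ => 1 / ((n : ℝ) + 1)) atTop (𝓝 0) :=
        tendsto_one_div_add_atTop_nhds_zero_nat
      have t2 := ind_tendsto (jr_nonneg (X s) (V s)) (a := fun n : ℕ => 1 / ((n : ℝ) + 1))
        (fun n => by positivity) ha
      have t3 := indN_tendsto (jr (X s) (V s))
      have t1 : Tendsto (fun n : ℕ => (if 0 < jq (V s) then (1 : ℝ) else 0) *
        kap (1 / ((n : ℝ) + 1)) ((n : ℝ) + 2) (jr (X s) (V s))) atTop
        (𝓝 (if 0 < jq (V s) then (1 : ℝ) else 0)) := by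
        by_cases h : 0 < jq (V s)
        · simp only [h, if_true, one_mul]
          exact kap_tendsto (by unfold jr; positivity)
        · simp only [h, if_false, zero_mul]
          exact tendsto_const_nhds
      have t4 := (((t1.mul_const (Ps s)).const_mul (sg p)).add
        ((t2.const_mul K₁).mul_const (1 + jj (X s) (V s) (H s)))).add
        ((t3.const_mul K₁).mul_const (jj (X s) (V s) (H s) ^ m))
      simpa only [mul_zero, zero_mul, add_zero] using t4
    refine ge_of_tendsto' hlim fun n => ?_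
    refine step1 (1 / ((n : ℝ) + 1)) ((n : ℝ) + 2) (by positivity) ?_ ?_
    · rw [div_le_one (by positivity)]
      have : (0 : ℝ) ≤ n := Nat.cast_nonneg _
      linarith
    · have : (0 : ℝ) ≤ n := Nat.cast_nonneg _
      linarith
  -- conclusion
  have h3 : ∫ s, sg p * ((if 0 < jq (V s) then (1 : ℝ) else 0) * Ps s) ∂P =
      sg p * ((∫ s, |X s| ^ p ∂P) - Cp p * ∫ s, jr (X s) (V s) ^ (p / 2) ∂P) := by
    rw [integral_const_mul, ← integral_const_mul (Cp p), ← integral_sub hIX (hIr.const_mul _)]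
    congr 1
    refine integral_congr_ae ?_
    filter_upwards [hnull] with s hs
    by_cases h : 0 < jq (V s)
    · simp only [h, if_true, one_mul]
      rfl
    · have hq0 : jq (V s) = 0 := le_antisymm (not_lt.mp h) (jq_nonneg _)
      have hX0 := hs (jq_eq_zero hq0)
      simp only [h, if_false, zero_mul]
      have hr0 : jr (X s) (V s) = 0 := by
        unfold jr
        rw [hX0, hq0]; norm_num
      rw [hX0, ← hX0, hr0, hX0, abs_zero, Real.zero_rpow (by linarith), Real.zero_rpow (by linarith)]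
      ring
  rw [h3] at step2
  linarith

end Pool.Agent.T6.H5.PL
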