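import Pool.Agent.T6.H5.PW.Defs

/-!
Project PL (helper5), MP_4fa179_mp: random plane waves are extremal for all `L^p` norms.
Definitions and the statements of the modules.
-/

set_option autoImplicit false
open MeasureTheory Filter Topology Finset
open scoped ContDiff ENNReal

namespace Pool.Agent.T6.H5.PL

open Pool.Agent.Y139.SW Pool.Agent.T6.H5.PW

noncomputable section

/-- the mean of `|cos|^p` -/
def Cp (p : ℝ) : ℝ := (∫ t in (0 : ℝ)..Real.pi, |Real.cos t| ^ p) / Real.pi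

/-- the sign of `p - 2` -/
def sg (p : ℝ) : ℝ := if 2 < p then 1 else -1

/-! ### Functions of the angle -/

/-- `β(θ) = ∫_0^θ (|cos|^p - Cp)` -/
def be (p θ : ℝ) : ℝ := ∫ t in (0 : ℝ)..θ, (|Real.cos t| ^ p - Cp p)

/-- `D = β (p sin² - 1) + sin cos (|cos|^p - Cp)` -/
def De (p θ : ℝ) : ℝ := be p θ * (p * Real.sin θ ^ 2 - 1) +
  Real.sin θ * Real.cos θ * (|Real.cos θ| ^ p - Cp p)

/-- `γ(θ) = ∫_0^θ D` -/
def ga (p θ : ℝ) : ℝ := ∫ t in (0 : ℝ)..θ, De p t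

/-- module S: the signs -/
def StmtS : Prop := ∀ p : ℝ, 1 ≤ p → p ≠ 2 → ∀ θ : ℝ, 0 < θ → θ ≤ Real.pi / 2 →
  0 ≤ sg p * De p θ ∧ 0 ≤ sg p * (Real.sin θ * De p θ - Real.cos θ * ga p θ)

/-- the two auxiliary functions -/
structure GoodPair (p : ℝ) (g e g' e' : ℝ → ℝ) (K : ℝ) : Prop where
  hg : ∀ y ∈ Set.Ioo (-1 : ℝ) 1, HasDerivAt g (g' y) y
  he : ∀ y ∈ Set.Ioo (-1 : ℝ) 1, HasDerivAt e (e' y) y
  ode1 : ∀ y ∈ Set.Ioo (-1 : ℝ) 1, (1 - y ^ 2) * g' y - y * g y = |y| ^ p - Cp p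
  ode2 : ∀ y ∈ Set.Ioo (-1 : ℝ) 1, (1 - y ^ 2) * e' y - 2 * y * e y =
    (1 - y ^ 2) * ((p - 1) * g y - y * g' y)
  bg : ∀ y ∈ Set.Ioo (-1 : ℝ) 1, |g y| ≤ K
  be : ∀ y ∈ Set.Ioo (-1 : ℝ) 1, |e y| ≤ K
  pos1 : ∀ y ∈ Set.Ioo (-1 : ℝ) 1, 0 ≤ sg p * e y
  pos2 : ∀ y ∈ Set.Ioo (-1 : ℝ) 1,
    0 ≤ sg p * ((1 - y ^ 2) * ((p - 2) * e y - y * e' y) + e y)

/-- module GE: the auxiliary functions exist -/
def StmtGE : Prop := ∀ p : ℝ, 1 ≤ p → p ≠ 2 → ∃ (g e g' e' : ℝ → ℝ) (K : ℝ),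
  GoodPair p g e g' e' K

/-! ### The vector field, as functions of `z = (x, ρ)`, `x = F`, `ρ = F² + |∇F|²` -/

/-- `a = ρ^((p-1)/2) g(x/√ρ)` -/
def aF (p : ℝ) (g : ℝ → ℝ) (z : ℝ × ℝ) : ℝ := z.2 ^ ((p - 1) / 2) * g (z.1 / √z.2)

/-- `c = ρ^((p-2)/2) e(x/√ρ)` -/
def cF (p : ℝ) (e : ℝ → ℝ) (z : ℝ × ℝ) : ℝ := z.2 ^ ((p - 2) / 2) * e (z.1 / √z.2)

/-- cutoff in `ρ`: `0` for `ρ ≤ δ`, `1` for `2 δ ≤ ρ ≤ N`, `0` for `ρ ≥ 2 N` -/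
def kap (δ N ρ : ℝ) : ℝ :=
  Real.smoothTransition (ρ / δ - 1) * (1 - Real.smoothTransition (ρ / N - 1))

/-- cutoff in `q = ρ - x²` and `ρ` -/
def cut (ε δ N : ℝ) (z : ℝ × ℝ) : ℝ :=
  Real.smoothTransition ((z.2 - z.1 ^ 2) / ε - 1) * kap δ N z.2

/-- the first field -/
def AF (p : ℝ) (g : ℝ → ℝ) (ε δ N : ℝ) (z : ℝ × ℝ) : ℝ := cut ε δ N z * aF p g z

/-- the second field -/
def CF (p : ℝ) (e : ℝ → ℝ) (ε δ N : ℝ) (z : ℝ × ℝ) : ℝ := cut ε δ N z * cF p e z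

/-- module CA: the cut off fields are `C¹` with compact support -/
def StmtCA : Prop := ∀ (p : ℝ) (g e g' e' : ℝ → ℝ) (K : ℝ), 1 ≤ p → GoodPair p g e g' e' K →
  ∀ ε δ N : ℝ, 0 < ε → 0 < δ → 0 < N →
  (ContDiff ℝ 1 (AF p g ε δ N) ∧ HasCompactSupport (AF p g ε δ N)) ∧
  (ContDiff ℝ 1 (CF p e ε δ N) ∧ HasCompactSupport (CF p e ε δ N))

section jets

variable {d : ℕ}

/-- `q = |v|²` -/
def jq (v : Fin d → ℝ) : ℝ := ∑ i, v i ^ 2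

/-- `ρ = x² + |v|²` -/
def jr (x : ℝ) (v : Fin d → ℝ) : ℝ := x ^ 2 + jq v

/-- `H v` -/
def jh (H : Fin d → Fin d → ℝ) (v : Fin d → ℝ) (i : Fin d) : ℝ := ∑ j, H i j * v j

/-- the gradient of `ρ`: `w = 2 (x v + H v)` -/
def jw (x : ℝ) (v : Fin d → ℝ) (H : Fin d → Fin d → ℝ) (i : Fin d) : ℝ :=
  2 * (x * v i + jh H v i)

/-- `|H|²` -/
def jH (H : Fin d → Fin d → ℝ) : ℝ := ∑ i, ∑ j, H i j ^ 2

/-- the size of the jet -/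
def jj (x : ℝ) (v : Fin d → ℝ) (H : Fin d → Fin d → ℝ) : ℝ := jr x v + jH H

/-- the divergence of `A ∇F - 1/2 C ∇ρ` as a function of the jet -/
def II (A C : ℝ × ℝ → ℝ) (x : ℝ) (v : Fin d → ℝ) (H : Fin d → Fin d → ℝ) : ℝ :=
  fderiv ℝ A (x, jr x v) (1, 0) * jq v - A (x, jr x v) * x +
    (fderiv ℝ A (x, jr x v) (0, 1) - 1 / 2 * fderiv ℝ C (x, jr x v) (1, 0)) *
      ∑ i, v i * jw x v H i -
    1 / 2 * fderiv ℝ C (x, jr x v) (0, 1) * ∑ i, jw x v H i ^ 2 -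
    C (x, jr x v) * (jH H - x ^ 2)

/-- the derivative of `c` in `ρ` -/
def cR (p : ℝ) (e e' : ℝ → ℝ) (x ρ : ℝ) : ℝ :=
  ρ ^ ((p - 4) / 2) * ((p - 2) / 2 * e (x / √ρ) - 1 / 2 * (x / √ρ) * e' (x / √ρ))

/-- module CB: the exact formula for the divergence of the cut off field -/
def StmtCB : Prop := ∀ (p : ℝ) (g e g' e' : ℝ → ℝ) (K : ℝ), 1 ≤ p → GoodPair p g e g' e' K →
  ∀ ε δ N : ℝ, 0 < ε → 0 < δ → 0 < N →
  ∀ (d : ℕ) (x : ℝ) (v : Fin d → ℝ) (H : Fin d → Fin d → ℝ), 0 < jq v →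
  II (AF p g ε δ N) (CF p e ε δ N) x v H =
    Real.smoothTransition (jq v / ε - 1) * kap δ N (jr x v) *
      ((|x| ^ p - Cp p * jr x v ^ (p / 2)) -
        (1 / 2 * cR p e e' x (jr x v) * ∑ i, jw x v H i ^ 2 +
          cF p e (x, jr x v) * (jH H - x ^ 2 + x / jq v * ∑ i, v i * jw x v H i))) +
    1 / ε * deriv Real.smoothTransition (jq v / ε - 1) * kap δ N (jr x v) *
      ∑ i, 2 * jh H v i * (aF p g (x, jr x v) * v i - 1 / 2 * cF p e (x, jr x v) * jw x v H i) +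
    Real.smoothTransition (jq v / ε - 1) * deriv (kap δ N) (jr x v) *
      ∑ i, jw x v H i * (aF p g (x, jr x v) * v i - 1 / 2 * cF p e (x, jr x v) * jw x v H i)

/-- module CC: the pointwise inequality -/
def StmtCC : Prop := ∀ (p : ℝ) (g e g' e' : ℝ → ℝ) (K : ℝ), 1 ≤ p → p ≠ 2 →
  GoodPair p g e g' e' K → ∀ d : ℕ,
  ∃ K₁ : ℝ, 0 < K₁ ∧ ∀ δ N : ℝ, 0 < δ → δ ≤ 1 → 2 ≤ N → ∃ K₂ : ℝ, 0 < K₂ ∧ ∀ ε : ℝ, 0 < ε → ε < 1 →
  ∀ (x : ℝ) (v : Fin d → ℝ) (H : Fin d → Fin d → ℝ),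
  sg p * II (AF p g ε δ N) (CF p e ε δ N) x v H ≤
    sg p * (Real.smoothTransition (jq v / ε - 1) * kap δ N (jr x v) *
      (|x| ^ p - Cp p * jr x v ^ (p / 2))) +
    K₂ * (Set.Icc ε (2 * ε)).indicator (fun _ => (1 : ℝ)) (jq v) * (1 + jj x v H) +
    K₁ * (Set.Icc δ (2 * δ)).indicator (fun _ => (1 : ℝ)) (jr x v) * (1 + jj x v H) +
    K₁ * (Set.Ici N).indicator (fun _ => (1 : ℝ)) (jr x v) * jj x v H ^ (max p 2 / 2)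

/-- module CD: the inequality for random jets -/
def StmtCD.{u} : Prop := ∀ (p : ℝ), 1 ≤ p → p ≠ 2 → ∀ (d : ℕ) (S : Type u) [MeasurableSpace S]
  (P : Measure S) [IsProbabilityMeasure P] (X : S → ℝ) (V : S → Fin d → ℝ)
  (H : S → Fin d → Fin d → ℝ), Measurable X → (∀ i, Measurable fun s => V s i) →
  (∀ i j, Measurable fun s => H s i j) →
  Integrable (fun s => jj (X s) (V s) (H s)) P →
  Integrable (fun s => jj (X s) (V s) (H s) ^ (max p 2 / 2)) P →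
  (∀ᵐ s ∂P, V s = 0 → X s = 0) →
  (∀ A C : ℝ × ℝ → ℝ, ContDiff ℝ 1 A → HasCompactSupport A → ContDiff ℝ 1 C →
    HasCompactSupport C → Integrable (fun s => II A C (X s) (V s) (H s)) P ∧
      ∫ s, II A C (X s) (V s) (H s) ∂P = 0) →
  sg p * (Cp p * ∫ s, jr (X s) (V s) ^ (p / 2) ∂P) ≤ sg p * ∫ s, |X s| ^ p ∂P

end jets

/-! ### Waves -/

/-- the gradient -/
def gr {d : ℕ} (f : E d → ℝ) (y : E d) (i : Fin d) : ℝ := D i f y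

/-- the Hessian -/
def he {d : ℕ} (f : E d → ℝ) (y : E d) (i j : Fin d) : ℝ := D i (D j f) y

/-- module ID: the identity for waves -/
def StmtID.{u} : Prop := ∀ {d : ℕ} {S : Type u} [MeasurableSpace S] {P : Measure S}
  {τ : E d → S → S} [IsProbabilityMeasure P], (∀ x, MeasurePreserving (τ x) P P) →
  ∀ {G : S → E d → ℝ}, Wave P τ G → ∀ A C : ℝ × ℝ → ℝ, ContDiff ℝ 1 A → HasCompactSupport A →
  ContDiff ℝ 1 C → HasCompactSupport C →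
  Integrable (fun s => II A C (G s 0) (gr (G s) 0) (he (G s) 0)) P ∧
    ∫ s, II A C (G s 0) (gr (G s) 0) (he (G s) 0) ∂P = 0

/-- module NZ: the gradient vanishes only together with the function -/
def StmtNZ.{u} : Prop := ∀ {d : ℕ} {S : Type u} [MeasurableSpace S] {P : Measure S}
  {τ : E d → S → S} [IsProbabilityMeasure P], (∀ x, MeasurePreserving (τ x) P P) →
  ∀ {G : S → E d → ℝ}, Wave P τ G → ∀ᵐ s ∂P, gr (G s) 0 = 0 → G s 0 = 0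

/-- module MO: moments of the jet -/
def StmtMO.{u} : Prop := ∀ {d : ℕ} {S : Type u} [MeasurableSpace S] {P : Measure S}
  {τ : E d → S → S} [IsProbabilityMeasure P], (∀ x, MeasurePreserving (τ x) P P) →
  ∀ {G : S → E d → ℝ}, Wave P τ G → ∀ p : ℝ, 1 ≤ p → Integrable (fun s => |G s 0| ^ p) P →
  Integrable (fun s => jj (G s 0) (gr (G s) 0) (he (G s) 0)) P ∧
  Integrable (fun s => jj (G s 0) (gr (G s) 0) (he (G s) 0) ^ (max p 2 / 2)) P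

/-- module JE: Jensen's inequality and the case of equality -/
def StmtJE.{u} : Prop := ∀ {d : ℕ} {S : Type u} [MeasurableSpace S] {P : Measure S}
  {τ : E d → S → S} [IsProbabilityMeasure P], (∀ x, MeasurePreserving (τ x) P P) →
  ∀ {G : S → E d → ℝ}, Wave P τ G → ∀ p : ℝ, 1 ≤ p → p ≠ 2 →
  Integrable (fun s => jr (G s 0) (gr (G s) 0) ^ (p / 2)) P → 0 < ∫ s, G s 0 ^ 2 ∂P →
  sg p * (2 * ∫ s, G s 0 ^ 2 ∂P) ^ (p / 2) ≤ sg p * ∫ s, jr (G s 0) (gr (G s) 0) ^ (p / 2) ∂P ∧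
  (∫ s, jr (G s 0) (gr (G s) 0) ^ (p / 2) ∂P = (2 * ∫ s, G s 0 ^ 2 ∂P) ^ (p / 2) →
    ∀ᵐ s ∂P, ∃ (e : E d) (θ : ℝ), ‖e‖ = 1 ∧
      ∀ y, G s y = √(2 * ∫ s, G s 0 ^ 2 ∂P) * Real.cos (inner ℝ e y + θ))

end

end Pool.Agent.T6.H5.PL
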