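import Pool.Agent.T6.H5.PL.Defs

/-! Project PL (helper5), module GE (helper58): the auxiliary functions -/

set_option autoImplicit false
open MeasureTheory Filter Topology Finset
open scoped ContDiff ENNReal

namespace Pool.Agent.T6.H5.PL

open Pool.Agent.Y139.SW Pool.Agent.T6.H5.PW

namespace ModGE

/-- the integrand of `be` -/
noncomputable def ff (p t : ℝ) : ℝ := |Real.cos t| ^ p - Cp p

lemma cp_cont {p : ℝ} (hp : 1 ≤ p) : Continuous fun t : ℝ => |Real.cos t| ^ p :=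
  (Real.continuous_cos.abs).rpow_const fun x => Or.inr (by linarith)

lemma ff_cont {p : ℝ} (hp : 1 ≤ p) : Continuous (ff p) := (cp_cont hp).sub continuous_const

lemma pw_mem {p : ℝ} (hp : 1 ≤ p) (t : ℝ) : 0 ≤ |Real.cos t| ^ p ∧ |Real.cos t| ^ p ≤ 1 :=
  ⟨by positivity, Real.rpow_le_one (abs_nonneg _) (Real.abs_cos_le_one t) (by linarith)⟩

lemma Cp_mem {p : ℝ} (hp : 1 ≤ p) : 0 ≤ Cp p ∧ Cp p ≤ 1 := by
  unfold Cp
  have h0 : 0 ≤ ∫ t in (0 : ℝ)..Real.pi, |Real.cos t| ^ p :=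
    intervalIntegral.integral_nonneg Real.pi_pos.le fun t _ => (pw_mem hp t).1
  refine ⟨div_nonneg h0 Real.pi_pos.le, ?_⟩
  rw [div_le_one Real.pi_pos]
  have h1 : ∫ t in (0 : ℝ)..Real.pi, |Real.cos t| ^ p ≤ ∫ _ in (0 : ℝ)..Real.pi, (1 : ℝ) :=
    intervalIntegral.integral_mono_on Real.pi_pos.le ((cp_cont hp).intervalIntegrable _ _)
      (continuous_const.intervalIntegrable _ _) fun t _ => (pw_mem hp t).2
  simpa using h1

lemma ff_abs {p : ℝ} (hp : 1 ≤ p) (t : ℝ) : |ff p t| ≤ 1 := by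
  unfold ff
  have h1 := pw_mem hp t
  have h2 := Cp_mem hp
  rw [abs_le]
  constructor <;> linarith [h1.1, h1.2, h2.1, h2.2]

lemma be_eq (p θ : ℝ) : be p θ = ∫ t in (0 : ℝ)..θ, ff p t := rfl

lemma be_deriv {p : ℝ} (hp : 1 ≤ p) (θ : ℝ) : HasDerivAt (be p) (ff p θ) θ := by
  have : be p = fun θ => ∫ t in (0 : ℝ)..θ, ff p t := by funext θ; rfl
  rw [this]
  exact intervalIntegral.integral_hasDerivAt_right ((ff_cont hp).intervalIntegrable _ _)
    ((ff_cont hp).stronglyMeasurableAtFilter _ _) (ff_cont hp).continuousAt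

lemma be_cont {p : ℝ} (hp : 1 ≤ p) : Continuous (be p) :=
  continuous_iff_continuousAt.2 fun θ => (be_deriv hp θ).continuousAt

lemma De_eq (p θ : ℝ) : De p θ = be p θ * (p * Real.sin θ ^ 2 - 1) +
    Real.sin θ * Real.cos θ * ff p θ := rfl

lemma De_cont {p : ℝ} (hp : 1 ≤ p) : Continuous (De p) := by
  have : De p = fun θ => be p θ * (p * Real.sin θ ^ 2 - 1) +
    Real.sin θ * Real.cos θ * ff p θ := by funext θ; rfl
  rw [this]
  have h1 := be_cont hp
  have h2 := ff_cont hp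
  fun_prop

lemma ga_deriv {p : ℝ} (hp : 1 ≤ p) (θ : ℝ) : HasDerivAt (ga p) (De p θ) θ := by
  have : ga p = fun θ => ∫ t in (0 : ℝ)..θ, De p t := by funext θ; rfl
  rw [this]
  exact intervalIntegral.integral_hasDerivAt_right ((De_cont hp).intervalIntegrable _ _)
    ((De_cont hp).stronglyMeasurableAtFilter _ _) (De_cont hp).continuousAt

lemma ff_symm (p t : ℝ) : ff p (Real.pi - t) = ff p t := by
  unfold ff
  rw [Real.cos_pi_sub, abs_neg]

lemma be_pi {p : ℝ} (hp : 1 ≤ p) : be p Real.pi = 0 := by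
  unfold be
  rw [intervalIntegral.integral_sub ((cp_cont hp).intervalIntegrable _ _)
    (continuous_const.intervalIntegrable _ _)]
  simp only [intervalIntegral.integral_const, sub_zero, smul_eq_mul]
  unfold Cp
  field_simp [Real.pi_ne_zero]
  ring

/-- reflection for integrals -/
lemma refl_int {h : ℝ → ℝ} (hc : Continuous h) (t : ℝ) :
    ∫ u in (0 : ℝ)..(Real.pi - t), h u =
      (∫ u in (0 : ℝ)..Real.pi, h u) - ∫ u in (0 : ℝ)..t, h (Real.pi - u) := by
  have h1 : ∫ u in (0 : ℝ)..t, h (Real.pi - u) = ∫ u in (Real.pi - t)..Real.pi, h u := by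
    rw [intervalIntegral.integral_comp_sub_left (fun u => h u) Real.pi]
    simp
  rw [h1, eq_sub_iff_add_eq]
  exact intervalIntegral.integral_add_adjacent_intervals (hc.intervalIntegrable _ _)
    (hc.intervalIntegrable _ _)

lemma be_symm {p : ℝ} (hp : 1 ≤ p) (t : ℝ) : be p (Real.pi - t) = - be p t := by
  rw [be_eq, refl_int (ff_cont hp), ← be_eq, be_pi hp]
  simp only [ff_symm]
  rw [be_eq]; ring

lemma De_symm {p : ℝ} (hp : 1 ≤ p) (t : ℝ) : De p (Real.pi - t) = - De p t := by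
  rw [De_eq, De_eq, be_symm hp, ff_symm, Real.sin_pi_sub, Real.cos_pi_sub]
  ring

lemma ga_pi {p : ℝ} (hp : 1 ≤ p) : ga p Real.pi = 0 := by
  have h := refl_int (De_cont hp) 0
  have h2 := refl_int (De_cont hp) Real.pi
  simp only [De_symm hp, sub_self, intervalIntegral.integral_same,
    intervalIntegral.integral_neg] at h2
  unfold ga
  linarith

lemma ga_symm {p : ℝ} (hp : 1 ≤ p) (t : ℝ) : ga p (Real.pi - t) = ga p t := by
  have h := refl_int (De_cont hp) t
  have h3 := ga_pi hp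
  unfold ga at h3 ⊢
  rw [h, h3]
  simp only [De_symm hp, intervalIntegral.integral_neg]
  ring

lemma be_bound0 {p : ℝ} (hp : 1 ≤ p) {t : ℝ} (h0 : 0 ≤ t) : |be p t| ≤ t := by
  rw [be_eq, ← Real.norm_eq_abs]
  have := intervalIntegral.norm_integral_le_of_norm_le_const (a := 0) (b := t) (C := 1)
    (f := ff p) (fun x _ => by rw [Real.norm_eq_abs]; exact ff_abs hp x)
  simpa [abs_of_nonneg h0] using this

lemma le_sin {t : ℝ} (h0 : 0 ≤ t) (h1 : t ≤ Real.pi / 2) : t ≤ Real.pi / 2 * Real.sin t := by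
  have h := Real.mul_le_sin h0 h1
  have hpi := Real.pi_pos
  calc t = Real.pi / 2 * (2 / Real.pi * t) := by field_simp
    _ ≤ Real.pi / 2 * Real.sin t := mul_le_mul_of_nonneg_left h (by positivity)

lemma be_bound {p : ℝ} (hp : 1 ≤ p) {t : ℝ} (h0 : 0 ≤ t) (h1 : t ≤ Real.pi) :
    |be p t| ≤ Real.pi / 2 * Real.sin t := by
  by_cases h : t ≤ Real.pi / 2
  · exact (be_bound0 hp h0).trans (le_sin h0 h)
  · have h2 : 0 ≤ Real.pi - t := by linarith
    have h3 : Real.pi - t ≤ Real.pi / 2 := by linarith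
    have h4 := (be_bound0 hp h2).trans (le_sin h2 h3)
    rwa [be_symm hp, abs_neg, Real.sin_pi_sub] at h4

/-- the constant for `De` -/
noncomputable def MM (p : ℝ) : ℝ := (p + 1) * (Real.pi / 2) + 1

lemma MM_pos {p : ℝ} (hp : 1 ≤ p) : 0 < MM p := by
  unfold MM
  have := Real.pi_pos
  positivity

lemma De_bound {p : ℝ} (hp : 1 ≤ p) {t : ℝ} (h0 : 0 ≤ t) (h1 : t ≤ Real.pi) :
    |De p t| ≤ MM p * Real.sin t := by
  have hs : 0 ≤ Real.sin t := Real.sin_nonneg_of_nonneg_of_le_pi h0 h1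
  have hs1 : Real.sin t ≤ 1 := Real.sin_le_one t
  have h2 := be_bound hp h0 h1
  have h3 : |p * Real.sin t ^ 2 - 1| ≤ p + 1 := by
    rw [abs_le]
    constructor <;> nlinarith [sq_nonneg (Real.sin t), Real.sin_sq_le_one t]
  rw [De_eq]
  calc |be p t * (p * Real.sin t ^ 2 - 1) + Real.sin t * Real.cos t * ff p t|
      ≤ |be p t| * |p * Real.sin t ^ 2 - 1| + |Real.sin t| * |Real.cos t| * |ff p t| := by
        rw [← abs_mul, ← abs_mul, ← abs_mul]; exact abs_add_le _ _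
    _ ≤ (Real.pi / 2 * Real.sin t) * (p + 1) + Real.sin t * 1 * 1 := by
        rw [abs_of_nonneg hs]
        gcongr
        · exact Real.abs_cos_le_one t
        · exact ff_abs hp t
    _ = MM p * Real.sin t := by unfold MM; ring

lemma ga_bound0 {p : ℝ} (hp : 1 ≤ p) {t : ℝ} (h0 : 0 ≤ t) (h1 : t ≤ Real.pi) :
    |ga p t| ≤ MM p * (t ^ 2 / 2) := by
  have hM := MM_pos hp
  have h2 : ‖∫ u in (0 : ℝ)..t, De p u‖ ≤ ∫ u in (0 : ℝ)..t, MM p * u := by
    refine intervalIntegral.norm_integral_le_of_norm_le h0 ?_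
      ((by fun_prop : Continuous fun u : ℝ => MM p * u).intervalIntegrable _ _)
    refine Eventually.of_forall fun u hu => ?_
    rw [Real.norm_eq_abs]
    refine (De_bound hp hu.1.le (hu.2.trans h1)).trans ?_
    exact mul_le_mul_of_nonneg_left (Real.sin_le hu.1.le) hM.le
  rw [Real.norm_eq_abs] at h2
  have h3 : ∫ u in (0 : ℝ)..t, MM p * u = MM p * (t ^ 2 / 2) := by
    rw [intervalIntegral.integral_const_mul, integral_id]; ring
  rw [h3] at h2
  exact h2

lemma ga_bound1 {p : ℝ} (hp : 1 ≤ p) {t : ℝ} (h0 : 0 ≤ t) (h1 : t ≤ Real.pi / 2) :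
    |ga p t| ≤ MM p * (Real.pi ^ 2 / 8) * Real.sin t ^ 2 := by
  have hM := MM_pos hp
  have hpi := Real.pi_pos
  have h2 := ga_bound0 hp h0 (by linarith)
  have h3 := le_sin h0 h1
  have h4 : t ^ 2 ≤ (Real.pi / 2 * Real.sin t) ^ 2 := pow_le_pow_left₀ h0 h3 2
  calc |ga p t| ≤ MM p * (t ^ 2 / 2) := h2
    _ ≤ MM p * ((Real.pi / 2 * Real.sin t) ^ 2 / 2) := by gcongr
    _ = MM p * (Real.pi ^ 2 / 8) * Real.sin t ^ 2 := by ring

lemma ga_bound {p : ℝ} (hp : 1 ≤ p) {t : ℝ} (h0 : 0 ≤ t) (h1 : t ≤ Real.pi) :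
    |ga p t| ≤ MM p * (Real.pi ^ 2 / 8) * Real.sin t ^ 2 := by
  by_cases h : t ≤ Real.pi / 2
  · exact ga_bound1 hp h0 h
  · have h4 := ga_bound1 hp (t := Real.pi - t) (by linarith) (by linarith)
    rwa [ga_symm hp, Real.sin_pi_sub] at h4

lemma ga_sign (hS : StmtS) {p : ℝ} (hp : 1 ≤ p) (hp2 : p ≠ 2) {t : ℝ} (h0 : 0 < t)
    (h1 : t < Real.pi) : 0 ≤ sg p * ga p t := by
  have key : ∀ t : ℝ, 0 ≤ t → t ≤ Real.pi / 2 → 0 ≤ sg p * ga p t := by
    intro t h0 h1
    unfold ga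
    rw [← intervalIntegral.integral_const_mul]
    refine intervalIntegral.integral_nonneg h0 fun u hu => ?_
    rcases hu.1.eq_or_lt with h | h
    · rw [← h]
      simp [De_eq, be]
    · exact (hS p hp hp2 u h (hu.2.trans h1)).1
  by_cases h : t ≤ Real.pi / 2
  · exact key t h0.le h
  · have := key (Real.pi - t) (by linarith) (by linarith)
    rwa [ga_symm hp] at this

lemma Q_sign (hS : StmtS) {p : ℝ} (hp : 1 ≤ p) (hp2 : p ≠ 2) {t : ℝ} (h0 : 0 < t)
    (h1 : t < Real.pi) :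
    0 ≤ sg p * (Real.cos t * (Real.sin t * De p t - Real.cos t * ga p t)) := by
  have key : ∀ t : ℝ, 0 < t → t ≤ Real.pi / 2 →
      0 ≤ sg p * (Real.cos t * (Real.sin t * De p t - Real.cos t * ga p t)) := by
    intro t h0 h1
    have h2 := (hS p hp hp2 t h0 h1).2
    have h3 : 0 ≤ Real.cos t := Real.cos_nonneg_of_neg_pi_div_two_le_of_le (by linarith) h1
    have := mul_nonneg h3 h2
    linarith
  by_cases h : t ≤ Real.pi / 2
  · exact key t h0 h
  · have := key (Real.pi - t) (by linarith) (by linarith)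
    rw [ga_symm hp, De_symm hp, Real.sin_pi_sub, Real.cos_pi_sub] at this
    linarith

end ModGE

open ModGE in
theorem stmtGE (hS : StmtS) : StmtGE := by
  intro p hp hp2
  refine ⟨fun y => - be p (Real.arccos y) / √(1 - y ^ 2),
    fun y => ga p (Real.arccos y) / (1 - y ^ 2),
    fun y => (y * (- be p (Real.arccos y) / √(1 - y ^ 2)) + (|y| ^ p - Cp p)) / (1 - y ^ 2),
    fun y => - De p (Real.arccos y) / (√(1 - y ^ 2) * (1 - y ^ 2)) +
      2 * y * ga p (Real.arccos y) / (1 - y ^ 2) ^ 2,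
    Real.pi / 2 + MM p * (Real.pi ^ 2 / 8), ?_⟩
  have hsq : ∀ y ∈ Set.Ioo (-1 : ℝ) 1, 0 < 1 - y ^ 2 := by
    intro y hy
    have : y ^ 2 < 1 := by
      rw [sq_lt_one_iff_abs_lt_one, abs_lt]; exact hy
    linarith
  have hs : ∀ y ∈ Set.Ioo (-1 : ℝ) 1, 0 < √(1 - y ^ 2) := fun y hy => Real.sqrt_pos.2 (hsq y hy)
  have hss : ∀ y ∈ Set.Ioo (-1 : ℝ) 1, √(1 - y ^ 2) ^ 2 = 1 - y ^ 2 := fun y hy =>
    Real.sq_sqrt (hsq y hy).le
  have hcos : ∀ y ∈ Set.Ioo (-1 : ℝ) 1, Real.cos (Real.arccos y) = y := fun y hy =>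
    Real.cos_arccos hy.1.le hy.2.le
  have hth0 : ∀ y ∈ Set.Ioo (-1 : ℝ) 1, 0 < Real.arccos y := fun y hy =>
    Real.arccos_pos.2 hy.2
  have hth1 : ∀ y ∈ Set.Ioo (-1 : ℝ) 1, Real.arccos y < Real.pi := fun y hy => by
    rcases (Real.arccos_le_pi y).lt_or_eq with h | h
    · exact h
    · rw [Real.arccos_eq_pi] at h; linarith [hy.1]
  have hff : ∀ y ∈ Set.Ioo (-1 : ℝ) 1, ff p (Real.arccos y) = |y| ^ p - Cp p := fun y hy => by
    unfold ff; rw [hcos y hy]
  have harc : ∀ y ∈ Set.Ioo (-1 : ℝ) 1, HasDerivAt Real.arccos (-(1 / √(1 - y ^ 2))) y :=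
    fun y hy => Real.hasDerivAt_arccos hy.1.ne' hy.2.ne
  have hrt : ∀ y ∈ Set.Ioo (-1 : ℝ) 1, HasDerivAt (fun y : ℝ => √(1 - y ^ 2))
      (-y / √(1 - y ^ 2)) y := fun y hy => by
    have h1 : HasDerivAt (fun y : ℝ => 1 - y ^ 2) (-(2 * y)) y := by
      have := ((hasDerivAt_id y).pow 2).const_sub 1
      simpa using this
    have h2 := h1.sqrt (hsq y hy).ne'
    convert h2 using 1
    have := (hs y hy).ne'
    field_simp
  have hpoly : ∀ y : ℝ, HasDerivAt (fun y : ℝ => 1 - y ^ 2) (-(2 * y)) y := fun y => by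
    have := ((hasDerivAt_id y).pow 2).const_sub 1
    simpa using this
  have hDe : ∀ y ∈ Set.Ioo (-1 : ℝ) 1, De p (Real.arccos y) =
      be p (Real.arccos y) * (p * (1 - y ^ 2) - 1) + √(1 - y ^ 2) * y * (|y| ^ p - Cp p) := by
    intro y hy
    rw [De_eq, hff y hy, Real.sin_arccos, hcos y hy, hss y hy]
  constructor
  · intro y hy
    have h1 := (be_deriv hp (Real.arccos y)).comp y (harc y hy)
    refine HasDerivAt.congr_deriv (f := fun y => - be p (Real.arccos y) / √(1 - y ^ 2))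
      (h1.neg.div (hrt y hy) (hs y hy).ne') ?_
    have e1 := (hs y hy).ne'
    have e2 := hss y hy
    rw [hff y hy]
    simp only [Pi.neg_apply, Function.comp]
    generalize √(1 - y ^ 2) = S at e1 e2 ⊢
    rw [← e2]
    field_simp
    ring
  · intro y hy
    have h1 := (ga_deriv hp (Real.arccos y)).comp y (harc y hy)
    refine HasDerivAt.congr_deriv (f := fun y => ga p (Real.arccos y) / (1 - y ^ 2))
      (h1.div (hpoly y) (hsq y hy).ne') ?_
    have e1 := (hs y hy).ne'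
    have e2 := hss y hy
    have e3 := (hsq y hy).ne'
    simp only [Function.comp]
    field_simp
    ring
  · intro y hy
    have e3 := (hsq y hy).ne'
    have e1 := (hs y hy).ne'
    field_simp
    ring
  · intro y hy
    have e1 := (hs y hy).ne'
    have e2 := hss y hy
    have e3 := (hsq y hy).ne'
    rw [hDe y hy]
    generalize √(1 - y ^ 2) = S at e1 e2 ⊢
    have e4 : y ^ 2 = 1 - S ^ 2 := by linarith
    rw [← e2]
    field_simp
    linear_combination (- S * be p (Real.arccos y)) * e4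
  · intro y hy
    have h := be_bound hp (hth0 y hy).le (hth1 y hy).le
    rw [Real.sin_arccos] at h
    rw [abs_div, abs_neg, abs_of_pos (hs y hy), div_le_iff₀ (hs y hy)]
    have hM := MM_pos hp
    have : 0 ≤ MM p * (Real.pi ^ 2 / 8) * √(1 - y ^ 2) := by positivity
    linarith
  · intro y hy
    have h := ga_bound hp (hth0 y hy).le (hth1 y hy).le
    rw [Real.sin_arccos, hss y hy] at h
    rw [abs_div, abs_of_pos (hsq y hy), div_le_iff₀ (hsq y hy)]
    have : 0 ≤ Real.pi / 2 * (1 - y ^ 2) := mul_nonneg (by positivity) (hsq y hy).le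
    linarith
  · intro y hy
    have := ga_sign hS hp hp2 (hth0 y hy) (hth1 y hy)
    rw [← mul_div_assoc]
    exact div_nonneg this (hsq y hy).le
  · intro y hy
    have k1 := ga_sign hS hp hp2 (hth0 y hy) (hth1 y hy)
    have k2 := Q_sign hS hp hp2 (hth0 y hy) (hth1 y hy)
    rw [Real.sin_arccos, hcos y hy] at k2
    have e1 := (hs y hy).ne'
    have e2 := hss y hy
    have e3 := (hsq y hy).ne'
    have key : sg p * ((1 - y ^ 2) * ((p - 2) * (ga p (Real.arccos y) / (1 - y ^ 2)) -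
        y * (-De p (Real.arccos y) / (√(1 - y ^ 2) * (1 - y ^ 2)) +
          2 * y * ga p (Real.arccos y) / (1 - y ^ 2) ^ 2)) +
        ga p (Real.arccos y) / (1 - y ^ 2)) =
        (p - 1) * (sg p * ga p (Real.arccos y)) +
        (sg p * (y * (√(1 - y ^ 2) * De p (Real.arccos y) - y * ga p (Real.arccos y)))) /
          (1 - y ^ 2) := by
      generalize √(1 - y ^ 2) = S at e1 e2 ⊢
      have e4 : y ^ 2 = 1 - S ^ 2 := by linarith
      rw [← e2]
      field_simp
      linear_combination (- sg p * ga p (Real.arccos y)) * e4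
    rw [key]
    exact add_nonneg (mul_nonneg (by linarith) k1) (div_nonneg k2 (hsq y hy).le)

end Pool.Agent.T6.H5.PL
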