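import Pool.Agent.T6.H5.PL.Defs

/-!
Project PL (helper5), MP_4fa179_mp: module ID (helper60), the divergence identity for waves.
-/

set_option autoImplicit false
open MeasureTheory Filter Topology Finset
open scoped ContDiff ENNReal

namespace Pool.Agent.T6.H5.PL

open Pool.Agent.Y139.SW Pool.Agent.T6.H5.PW

noncomputable section

namespace ModID

variable {d : ℕ}

/-! ### calculus -/

lemma D_mul1 {f g : E d → ℝ} {y : E d} (hf : DifferentiableAt ℝ f y)
    (hg : DifferentiableAt ℝ g y) (i : Fin d) :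
    D i (fun w => f w * g w) y = D i f y * g y + f y * D i g y := by
  unfold D
  rw [fderiv_fun_mul hf hg]
  simp only [add_apply, smul_apply, smul_eq_mul]
  ring

lemma D_add1 {f g : E d → ℝ} {y : E d} (hf : DifferentiableAt ℝ f y)
    (hg : DifferentiableAt ℝ g y) (i : Fin d) :
    D i (fun w => f w + g w) y = D i f y + D i g y := by
  unfold D
  rw [fderiv_fun_add hf hg]
  simp only [add_apply]

lemma D_sub1 {f g : E d → ℝ} {y : E d} (hf : DifferentiableAt ℝ f y)
    (hg : DifferentiableAt ℝ g y) (i : Fin d) :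
    D i (fun w => f w - g w) y = D i f y - D i g y := by
  unfold D
  rw [fderiv_fun_sub hf hg]
  simp only [sub_apply]

lemma D_cmul1 {g : E d → ℝ} {y : E d} (c : ℝ)
    (hg : DifferentiableAt ℝ g y) (i : Fin d) :
    D i (fun w => c * g w) y = c * D i g y := by
  unfold D
  rw [fderiv_const_mul hg]
  simp only [smul_apply, smul_eq_mul]

lemma D_comp2 {A : ℝ × ℝ → ℝ} {f r : E d → ℝ} {y : E d} (hA : DifferentiableAt ℝ A (f y, r y))
    (hf : DifferentiableAt ℝ f y) (hr : DifferentiableAt ℝ r y) (i : Fin d) :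
    D i (fun w => A (f w, r w)) y = fderiv ℝ A (f y, r y) (1, 0) * D i f y +
      fderiv ℝ A (f y, r y) (0, 1) * D i r y := by
  unfold D
  have h1 : HasFDerivAt (fun w => A (f w, r w))
      ((fderiv ℝ A (f y, r y)).comp ((fderiv ℝ f y).prod (fderiv ℝ r y))) y :=
    HasFDerivAt.comp y hA.hasFDerivAt (hf.hasFDerivAt.prodMk hr.hasFDerivAt)
  rw [h1.fderiv]
  simp only [ContinuousLinearMap.coe_comp, Function.comp_apply, ContinuousLinearMap.prod_apply]
  have h2 : ((fderiv ℝ f y (EuclideanSpace.single i 1), fderiv ℝ r y (EuclideanSpace.single i 1)) :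
      ℝ × ℝ) = fderiv ℝ f y (EuclideanSpace.single i 1) • ((1 : ℝ), (0 : ℝ)) +
      fderiv ℝ r y (EuclideanSpace.single i 1) • ((0 : ℝ), (1 : ℝ)) := by
    simp
  rw [h2, map_add, map_smul, map_smul]
  simp only [smul_eq_mul]
  ring

/-- the function `ρ` of a smooth function -/
def rr (f : E d → ℝ) (y : E d) : ℝ := jr (f y) (gr f y)

/-- its gradient -/
def ww (f : E d → ℝ) (i : Fin d) (y : E d) : ℝ := jw (f y) (gr f y) (he f y) i

lemma rr_sm {f : E d → ℝ} (hf : ContDiff ℝ ∞ f) : ContDiff ℝ ∞ (rr f) := by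
  unfold rr jr jq gr
  refine (hf.pow 2).add (ContDiff.sum fun j _ => ?_)
  exact (D_sm hf j).pow 2

lemma ww_sm {f : E d → ℝ} (hf : ContDiff ℝ ∞ f) (i : Fin d) : ContDiff ℝ ∞ (ww f i) := by
  unfold ww jw jh gr he
  refine contDiff_const.mul ((hf.mul (D_sm hf i)).add (ContDiff.sum fun j _ => ?_))
  exact (D_sm (D_sm hf j) i).mul (D_sm hf j)

lemma D_rr {f : E d → ℝ} (hf : ContDiff ℝ ∞ f) (i : Fin d) (y : E d) :
    D i (rr f) y = ww f i y := by
  have e : rr f = fun y => f y * f y + ∑ j, D j f y * D j f y := by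
    funext y
    unfold rr jr jq gr
    simp only [pow_two]
  rw [e]
  have hs : ContDiff ℝ ∞ (fun y => ∑ j, D j f y * D j f y) :=
    ContDiff.sum fun j _ => (D_sm hf j).mul (D_sm hf j)
  rw [D_add1 (sdiff (hf.mul hf) y) (sdiff hs y), D_mul hf hf,
    D_sum Finset.univ (fun j => (D_sm hf j).mul (D_sm hf j)) i y]
  have e2 : ∀ j, D i (fun w => D j f w * D j f w) y = 2 * (D i (D j f) y * D j f y) := by
    intro j
    rw [D_mul (D_sm hf j) (D_sm hf j)]
    ring
  simp only [e2]
  unfold ww jw jh gr he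
  rw [← Finset.mul_sum]
  ring

lemma D_ww {f : E d → ℝ} (hf : ContDiff ℝ ∞ f) (i : Fin d) (y : E d) :
    D i (ww f i) y = 2 * (D i f y * D i f y + f y * D i (D i f) y +
      ∑ j, (D i (D i (D j f)) y * D j f y + D i (D j f) y * D i (D j f) y)) := by
  have hs : ContDiff ℝ ∞ (fun y => ∑ j, D i (D j f) y * D j f y) :=
    ContDiff.sum fun j _ => (D_sm (D_sm hf j) i).mul (D_sm hf j)
  have e : ww f i = fun y => 2 * (f y * D i f y + ∑ j, D i (D j f) y * D j f y) := rfl
  rw [e, D_cmul1 2 (sdiff ((hf.mul (D_sm hf i)).add hs) y),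
    D_add1 (sdiff (hf.mul (D_sm hf i)) y) (sdiff hs y), D_mul hf (D_sm hf i),
    D_sum Finset.univ (fun j => (D_sm (D_sm hf j) i).mul (D_sm hf j)) i y]
  have e2 : ∀ j, D i (fun w => D i (D j f) w * D j f w) y =
      D i (D i (D j f)) y * D j f y + D i (D j f) y * D i (D j f) y := by
    intro j
    rw [D_mul (D_sm (D_sm hf j) i) (D_sm hf j)]
  simp only [e2]

/-- the field -/
def UU (A C : ℝ × ℝ → ℝ) (f : E d → ℝ) (i : Fin d) (y : E d) : ℝ :=
  A (f y, rr f y) * D i f y - 1 / 2 * (C (f y, rr f y) * ww f i y)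

/-- its derivative -/
def DU (A C : ℝ × ℝ → ℝ) (f : E d → ℝ) (i : Fin d) (y : E d) : ℝ :=
  (fderiv ℝ A (f y, rr f y) (1, 0) * D i f y + fderiv ℝ A (f y, rr f y) (0, 1) * ww f i y) *
      D i f y + A (f y, rr f y) * D i (D i f) y -
    1 / 2 * ((fderiv ℝ C (f y, rr f y) (1, 0) * D i f y +
      fderiv ℝ C (f y, rr f y) (0, 1) * ww f i y) * ww f i y +
      C (f y, rr f y) * (2 * (D i f y * D i f y + f y * D i (D i f) y +
      ∑ j, (D i (D i (D j f)) y * D j f y + D i (D j f) y * D i (D j f) y))))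

lemma comp_sm {A : ℝ × ℝ → ℝ} (hA : ContDiff ℝ 1 A) {f : E d → ℝ} (hf : ContDiff ℝ ∞ f) :
    ContDiff ℝ 1 fun y => A (f y, rr f y) :=
  hA.comp ((hf.of_le (by simp)).prodMk ((rr_sm hf).of_le (by simp)))

lemma UU_sm {A C : ℝ × ℝ → ℝ} (hA : ContDiff ℝ 1 A) (hC : ContDiff ℝ 1 C) {f : E d → ℝ}
    (hf : ContDiff ℝ ∞ f) (i : Fin d) : ContDiff ℝ 1 (UU A C f i) := by
  have h1 : ContDiff ℝ 1 (D i f) := (D_sm hf i).of_le (by simp)
  have h2 : ContDiff ℝ 1 (ww f i) := (ww_sm hf i).of_le (by simp)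
  exact ((comp_sm hA hf).mul h1).sub (contDiff_const.mul ((comp_sm hC hf).mul h2))

lemma D_UU {A C : ℝ × ℝ → ℝ} (hA : ContDiff ℝ 1 A) (hC : ContDiff ℝ 1 C) {f : E d → ℝ}
    (hf : ContDiff ℝ ∞ f) (i : Fin d) (y : E d) : D i (UU A C f i) y = DU A C f i y := by
  have dA : DifferentiableAt ℝ (fun y => A (f y, rr f y)) y :=
    (comp_sm hA hf).differentiable (by simp) y
  have dC : DifferentiableAt ℝ (fun y => C (f y, rr f y)) y :=
    (comp_sm hC hf).differentiable (by simp) y
  have e : UU A C f i = fun y => A (f y, rr f y) * D i f y -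
    1 / 2 * (C (f y, rr f y) * ww f i y) := rfl
  have m1 : DifferentiableAt ℝ (fun y => A (f y, rr f y) * D i f y) y :=
    dA.mul (sdiff (D_sm hf i) y)
  have m2 : DifferentiableAt ℝ (fun y => C (f y, rr f y) * ww f i y) y :=
    dC.mul (sdiff (ww_sm hf i) y)
  have m3 : DifferentiableAt ℝ (fun y => 1 / 2 * (C (f y, rr f y) * ww f i y)) y :=
    m2.const_mul (1 / 2)
  rw [e, D_sub1 m1 m3, D_cmul1 (1 / 2) m2,
    D_mul1 dA (sdiff (D_sm hf i) y), D_mul1 dC (sdiff (ww_sm hf i) y),
    D_comp2 (hA.differentiable (by simp) _) (sdiff hf y) (sdiff (rr_sm hf) y),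
    D_comp2 (hC.differentiable (by simp) _) (sdiff hf y) (sdiff (rr_sm hf) y),
    D_rr hf, D_ww hf]
  rfl

/-- the divergence -/
lemma sum_DU {A C : ℝ × ℝ → ℝ} {f : E d → ℝ} (hf : ContDiff ℝ ∞ f) (eq : ∀ y, Lap f y = -f y)
    (y : E d) : ∑ i, DU A C f i y = II A C (f y) (gr f y) (he f y) := by
  have hL : Lap f = fun y => -f y := funext eq
  have h3 : ∀ j, ∑ i, D i (D i (D j f)) y = -D j f y := by
    intro j
    have h := Lap_D hf j y
    rw [hL] at h
    unfold Lap at h
    rw [h]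
    show fderiv ℝ (fun y => -f y) y _ = -fderiv ℝ f y _
    rw [fderiv_fun_neg]; rfl
  have h1 : ∑ i, D i (D i f) y = -f y := eq y
  obtain ⟨a0, ha0⟩ : ∃ a, a = A (f y, rr f y) := ⟨_, rfl⟩
  obtain ⟨a1, ha1⟩ : ∃ a, a = fderiv ℝ A (f y, rr f y) (1, 0) := ⟨_, rfl⟩
  obtain ⟨a2, ha2⟩ : ∃ a, a = fderiv ℝ A (f y, rr f y) (0, 1) := ⟨_, rfl⟩
  obtain ⟨c0, hc0⟩ : ∃ a, a = C (f y, rr f y) := ⟨_, rfl⟩
  obtain ⟨c1, hc1⟩ : ∃ a, a = fderiv ℝ C (f y, rr f y) (1, 0) := ⟨_, rfl⟩
  obtain ⟨c2, hc2⟩ : ∃ a, a = fderiv ℝ C (f y, rr f y) (0, 1) := ⟨_, rfl⟩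
  have hr : jr (f y) (gr f y) = rr f y := rfl
  have hw : ∀ i, jw (f y) (gr f y) (he f y) i = ww f i y := fun i => rfl
  unfold II DU
  simp only [hr, hw, ← ha0, ← ha1, ← ha2, ← hc0, ← hc1, ← hc2]
  have hq : jq (gr f y) = ∑ i, D i f y * D i f y := by
    unfold jq gr
    simp only [pow_two]
  have hH : jH (he f y) = ∑ i, ∑ j, D i (D j f) y * D i (D j f) y := by
    unfold jH he
    simp only [pow_two]
  rw [hq, hH]
  have e1 : ∑ i, ∑ j, (D i (D i (D j f)) y * D j f y + D i (D j f) y * D i (D j f) y) =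
      -(∑ i, D i f y * D i f y) + ∑ i, ∑ j, D i (D j f) y * D i (D j f) y := by
    simp only [Finset.sum_add_distrib]
    congr 1
    rw [Finset.sum_comm]
    simp only [← Finset.sum_mul, h3]
    rw [← Finset.sum_neg_distrib]
    refine Finset.sum_congr rfl fun i _ => ?_
    ring
  have e2 : ∑ i, ((a1 * D i f y + a2 * ww f i y) * D i f y + a0 * D i (D i f) y -
      1 / 2 * ((c1 * D i f y + c2 * ww f i y) * ww f i y +
      c0 * (2 * (D i f y * D i f y + f y * D i (D i f) y +
        ∑ j, (D i (D i (D j f)) y * D j f y + D i (D j f) y * D i (D j f) y))))) =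
      a1 * (∑ i, D i f y * D i f y) + (a2 - 1 / 2 * c1) * (∑ i, D i f y * ww f i y) +
      a0 * (∑ i, D i (D i f) y) - 1 / 2 * c2 * (∑ i, ww f i y ^ 2) -
      c0 * (∑ i, D i f y * D i f y) - c0 * f y * (∑ i, D i (D i f) y) -
      c0 * ∑ i, ∑ j, (D i (D i (D j f)) y * D j f y + D i (D j f) y * D i (D j f) y) := by
    simp only [Finset.mul_sum, ← Finset.sum_add_distrib, ← Finset.sum_sub_distrib]
    refine Finset.sum_congr rfl fun i _ => ?_
    simp only [← Finset.mul_sum]
    ring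
  rw [e2, e1, h1]
  have e3 : ∀ i, gr f y i = D i f y := fun i => rfl
  simp only [e3]
  ring

/-! ### stationarity -/

variable {S : Type*} [MeasurableSpace S] {P : Measure S} {τ : E d → S → S}

/-- measurable stationary fields -/
structure SC (τ : E d → S → S) (G : S → E d → ℝ) : Prop where
  meas : ∀ y, Measurable fun s => G s y
  cov : ∀ x s y, G (τ x s) y = G s (y + x)

lemma SC.int {G : S → E d → ℝ} (h : SC τ G) (hτ : ∀ x, MeasurePreserving (τ x) P P) (y : E d)
    {k : ℝ → ℝ} (hk : Measurable k) : ∫ s, k (G s y) ∂P = ∫ s, k (G s 0) ∂P := by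
  have e : ∀ s, G s y = G (τ y s) 0 := fun s => by rw [h.cov, zero_add]
  have m : Measurable fun s => k (G s 0) := hk.comp (h.meas 0)
  simp only [e]
  have h1 := integral_map (μ := P) (hτ y).measurable.aemeasurable
    (f := fun s => k (G s 0)) m.aestronglyMeasurable
  rw [(hτ y).map_eq] at h1
  exact h1.symm

lemma SC.integrable {G : S → E d → ℝ} (h : SC τ G) (hτ : ∀ x, MeasurePreserving (τ x) P P)
    (y : E d) (hi : Integrable (fun s => G s 0) P) : Integrable (fun s => G s y) P := by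
  have e : (fun s => G s y) = (fun s => G s 0) ∘ τ y := by
    funext s
    show G s y = G (τ y s) 0
    rw [h.cov, zero_add]
  rw [e]
  exact (hτ y).integrable_comp_of_integrable hi

lemma SC.der {G : S → E d → ℝ} (h : SC τ G) (hs : ∀ s, ContDiff ℝ 1 (G s)) (i : Fin d) :
    SC τ (fun s => D i (G s)) := by
  refine ⟨fun y => ?_, fun x s y => ?_⟩
  · refine measurable_of_tendsto_metrizable
      (f := fun (n : ℕ) s => (n : ℝ) • (G s (y + (n : ℝ)⁻¹ • EuclideanSpace.single i 1) - G s y))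
      (fun n => ?_) ?_
    · simp only [smul_eq_mul]
      exact measurable_const.mul ((h.meas _).sub (h.meas _))
    · rw [tendsto_pi_nhds]
      intro s
      exact (((hs s).differentiable (by simp) y).hasFDerivAt.lim_real
        (EuclideanSpace.single i 1)).comp tendsto_natCast_atTop_atTop
  · have e : G (τ x s) = fun y => G s (y + x) := funext fun y => h.cov x s y
    show fderiv ℝ (G (τ x s)) y _ = fderiv ℝ (G s) (y + x) _
    rw [e, fderiv_comp_add_right]

/-- the divergence lemma for `C¹` fields -/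
theorem div1 [IsProbabilityMeasure P] (hτ : ∀ x, MeasurePreserving (τ x) P P) {G : S → E d → ℝ}
    (h : SC τ G) (hs : ∀ s, ContDiff ℝ 1 (G s)) (i : Fin d)
    (i0 : Integrable (fun s => G s 0) P)
    (i1 : Integrable (fun s => D i (G s) 0) P) : ∫ s, D i (G s) 0 ∂P = 0 := by
  obtain ⟨e, he⟩ : ∃ e : E d, e = EuclideanSpace.single i 1 := ⟨_, rfl⟩
  have hd := h.der hs i
  have hc : ∀ s, Continuous (D i (G s)) := fun s =>
    ((hs s).continuous_fderiv (by simp)).clm_apply continuous_const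
  obtain ⟨K, hK⟩ : ∃ K : ℝ → S → ℝ, K = fun t s => D i (G s) (t • e) := ⟨_, rfl⟩
  have mK : Measurable (Function.uncurry K) := by
    refine measurable_uncurry_of_continuous_of_measurable (fun s => ?_) fun t => ?_
    · rw [hK]
      exact (hc s).comp (continuous_id.smul continuous_const)
    · rw [hK]; exact hd.meas _
  have sl : ∀ t, Integrable (K t) P := fun t => by
    rw [hK]; exact hd.integrable hτ _ i1
  have iK : Integrable (Function.uncurry K) ((volume.restrict (Set.Ioc (0 : ℝ) 1)).prod P) := by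
    rw [integrable_prod_iff mK.aestronglyMeasurable]
    refine ⟨ae_of_all _ fun t => sl t, ?_⟩
    have : (fun t => ∫ s, ‖Function.uncurry K (t, s)‖ ∂P) = fun _ => ∫ s, ‖D i (G s) 0‖ ∂P := by
      funext t
      rw [hK]
      exact hd.int hτ (t • e) measurable_norm
    rw [this]
    exact integrable_const _
  have sw := integral_integral_swap iK
  have l1 : ∫ t in Set.Ioc (0 : ℝ) 1, ∫ s, K t s ∂P = ∫ s, D i (G s) 0 ∂P := by
    have : ∀ t, ∫ s, K t s ∂P = ∫ s, D i (G s) 0 ∂P := fun t => by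
      rw [hK]
      exact hd.int hτ (t • e) measurable_id
    simp only [this]
    simp
  have l2 : ∀ s, ∫ t in Set.Ioc (0 : ℝ) 1, K t s = G s e - G s 0 := by
    intro s
    rw [← intervalIntegral.integral_of_le zero_le_one, hK]
    have := intervalIntegral.integral_eq_sub_of_hasDerivAt (a := 0) (b := 1)
      (f := fun t : ℝ => G s (t • e)) (f' := fun t => D i (G s) (t • e)) (fun t _ => ?_) ?_
    · rw [this, one_smul, zero_smul]
    · have h1 : HasDerivAt (fun t : ℝ => t • e) ((1 : ℝ) • e) t := (hasDerivAt_id t).smul_const e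
      have h2 := ((hs s).differentiable (by simp) (t • e)).hasFDerivAt.comp_hasDerivAt t h1
      rw [one_smul, he] at h2
      rw [he]
      exact h2
    · exact ((hc s).comp
        (continuous_id.smul continuous_const)).intervalIntegrable 0 1
  rw [l1] at sw
  rw [sw]
  simp only [l2]
  rw [integral_sub (h.integrable hτ e i0) i0]
  have := h.int hτ e (k := fun x => x) measurable_id
  rw [this, sub_self]

/-! ### integrability -/

/-- `Z` times every continuous function with compact support of `X` is integrable -/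
def Ic (P : Measure S) (X : S → ℝ × (Fin d → ℝ)) (Z : S → ℝ) : Prop :=
  ∀ Ψ : ℝ × (Fin d → ℝ) → ℝ, Continuous Ψ → HasCompactSupport Ψ →
    Integrable (fun s => Ψ (X s) * Z s) P

variable {X : S → ℝ × (Fin d → ℝ)}

lemma Ic.add {Z Z' : S → ℝ} (h : Ic P X Z) (h' : Ic P X Z') : Ic P X (fun s => Z s + Z' s) := by
  intro Ψ c k
  simp only [mul_add]
  exact (h Ψ c k).add (h' Ψ c k)

lemma Ic.cmul {Z : S → ℝ} (c : ℝ) (h : Ic P X Z) : Ic P X (fun s => c * Z s) := by
  intro Ψ k1 k2
  have e : (fun s => Ψ (X s) * (c * Z s)) = fun s => c * (Ψ (X s) * Z s) := by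
    funext s; ring
  rw [e]
  exact (h Ψ k1 k2).const_mul c

lemma Ic.sum {ι : Type*} (t : Finset ι) {Z : ι → S → ℝ} (h : ∀ j, Ic P X (Z j)) :
    Ic P X (fun s => ∑ j ∈ t, Z j s) := by
  intro Ψ c k
  simp only [Finset.mul_sum]
  exact integrable_finsetSum _ fun j _ => h j Ψ c k

lemma Ic.mulx {Z : S → ℝ} (h : Ic P X Z) : Ic P X (fun s => (X s).1 * Z s) := by
  intro Ψ c k
  have := h (fun p => Ψ p * p.1) (c.mul continuous_fst) k.mul_right
  simpa only [mul_assoc] using this

lemma Ic.mulv {Z : S → ℝ} (h : Ic P X Z) (i : Fin d) : Ic P X (fun s => (X s).2 i * Z s) := by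
  intro Ψ c k
  have := h (fun p => Ψ p * p.2 i) (c.mul ((continuous_apply i).comp continuous_snd)) k.mul_right
  simpa only [mul_assoc] using this

lemma Ic.of {Z : S → ℝ} (mX : Measurable X) (h : Integrable Z P) : Ic P X Z := by
  intro Ψ c k
  obtain ⟨M, hM⟩ := k.exists_bound_of_continuous c
  exact h.bdd_mul (c.measurable.comp mX).aestronglyMeasurable (ae_of_all _ fun s => hM (X s))

/-- functions of `(x, ρ)` with compact support, as functions of `(x, v)` -/
lemma cpt {Φ : ℝ × ℝ → ℝ} (c : Continuous Φ) (k : HasCompactSupport Φ) :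
    Continuous (fun p : ℝ × (Fin d → ℝ) => Φ (p.1, jr p.1 p.2)) ∧
      HasCompactSupport (fun p : ℝ × (Fin d → ℝ) => Φ (p.1, jr p.1 p.2)) := by
  have cj : Continuous (fun p : ℝ × (Fin d → ℝ) => (p.1, jr p.1 p.2)) := by
    unfold jr jq
    fun_prop
  refine ⟨c.comp cj, ?_⟩
  obtain ⟨R, hR⟩ := k.isCompact.isBounded.subset_closedBall (0 : ℝ × ℝ)
  refine HasCompactSupport.intro (K := Metric.closedBall 0 (|R| + 1)) (isCompact_closedBall _ _) ?_
  intro p hp
  by_contra h0
  apply hp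
  have h1 := hR (subset_tsupport _ h0)
  rw [mem_closedBall_zero_iff, Prod.norm_def] at h1
  simp only [Real.norm_eq_abs] at h1
  have h2 : |p.1| ≤ R := (le_max_left _ _).trans h1
  have h3 : |jr p.1 p.2| ≤ R := (le_max_right _ _).trans h1
  have h4 : R ≤ |R| := le_abs_self R
  rw [mem_closedBall_zero_iff, Prod.norm_def]
  refine max_le (by rw [Real.norm_eq_abs]; linarith) ?_
  rw [pi_norm_le_iff_of_nonneg (by positivity)]
  intro i
  rw [Real.norm_eq_abs]
  have h5 : p.2 i ^ 2 ≤ jr p.1 p.2 := by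
    unfold jr jq
    have := Finset.single_le_sum (f := fun i => p.2 i ^ 2) (fun j _ => sq_nonneg _)
      (Finset.mem_univ i)
    have h6 := sq_nonneg p.1
    linarith
  have h6 : p.2 i ^ 2 ≤ |R| := h5.trans ((le_abs_self _).trans (h3.trans h4))
  have h7 := abs_nonneg R
  have h8 : p.2 i ^ 2 ≤ (|R| + 1) ^ 2 := by nlinarith
  exact abs_le_of_sq_le_sq h8 (by positivity)

theorem main [IsProbabilityMeasure P] (hτ : ∀ x, MeasurePreserving (τ x) P P)
    {G : S → E d → ℝ} (W : Wave P τ G) {A C : ℝ × ℝ → ℝ} (hA : ContDiff ℝ 1 A)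
    (kA : HasCompactSupport A) (hC : ContDiff ℝ 1 C) (kC : HasCompactSupport C) (i : Fin d) :
    Integrable (fun s => DU A C (G s) i 0) P ∧ ∫ s, DU A C (G s) i 0 ∂P = 0 := by
  have W1 := fun i => W.der hτ i
  have W2 := fun j i => (W1 j).der hτ i
  have W3 := fun j i k => (W2 j i).der hτ k
  obtain ⟨X, hX⟩ : ∃ X : S → ℝ × (Fin d → ℝ), X = fun s => (G s 0, gr (G s) 0) := ⟨_, rfl⟩
  have mX : Measurable X := by
    rw [hX]
    exact (W.m0).prodMk (measurable_pi_lambda _ fun j => (W1 j).m0)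
  have x1 : ∀ s, (X s).1 = G s 0 := fun s => by rw [hX]
  have x2 : ∀ s j, (X s).2 j = D j (G s) 0 := fun s j => by rw [hX]; rfl
  -- basic members
  have I1 : Ic P X (fun _ => 1) := Ic.of mX (integrable_const _)
  have IH : ∀ i j, Ic P X (fun s => D i (D j (G s)) 0) := fun i j =>
    Ic.of mX (l2_l1 (W2 j i).m0 (W2 j i).l2)
  have IHH : ∀ i j k l, Ic P X (fun s => D i (D j (G s)) 0 * D k (D l (G s)) 0) := fun i j k l =>
    Ic.of mX (mul_l2 (W2 j i).m0 (W2 l k).m0 (W2 j i).l2 (W2 l k).l2)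
  have IT : ∀ i j k, Ic P X (fun s => D i (D j (D k (G s))) 0) := fun i j k =>
    Ic.of mX (l2_l1 (W3 k j i).m0 (W3 k j i).l2)
  -- products
  have Iv : ∀ i, Ic P X (fun s => D i (G s) 0) := by
    intro i
    have := I1.mulv i
    simpa only [x2, mul_one] using this
  have mv : ∀ {Z : S → ℝ}, Ic P X Z → ∀ i, Ic P X (fun s => D i (G s) 0 * Z s) := by
    intro Z hZ i
    have := hZ.mulv i
    simpa only [x2] using this
  have mx : ∀ {Z : S → ℝ}, Ic P X Z → Ic P X (fun s => G s 0 * Z s) := by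
    intro Z hZ
    have := hZ.mulx
    simpa only [x1] using this
  have ew : ∀ i s, ww (G s) i 0 = 2 * (G s 0 * D i (G s) 0 +
      ∑ j, D j (G s) 0 * D i (D j (G s)) 0) := by
    intro i s
    unfold ww jw jh gr he
    congr 2
    exact Finset.sum_congr rfl fun j _ => mul_comm _ _
  have Iw : ∀ i, Ic P X (fun s => ww (G s) i 0) := by
    intro i
    simp only [ew]
    exact ((mx (Iv i)).add (Ic.sum _ fun j => mv (IH i j) j)).cmul 2
  have Ivv : ∀ i, Ic P X (fun s => D i (G s) 0 * D i (G s) 0) := fun i => mv (Iv i) i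
  have IHw : ∀ i j k, Ic P X (fun s => D i (D j (G s)) 0 * ww (G s) k 0) := by
    intro i j k
    have e : (fun s => D i (D j (G s)) 0 * ww (G s) k 0) = fun s =>
        2 * (G s 0 * (D k (G s) 0 * D i (D j (G s)) 0) +
        ∑ l, D l (G s) 0 * (D i (D j (G s)) 0 * D k (D l (G s)) 0)) := by
      funext s
      rw [ew, mul_add, Finset.mul_sum, mul_add, mul_add, Finset.mul_sum, Finset.mul_sum]
      congr 1
      · ring
      · exact Finset.sum_congr rfl fun l _ => by ring
    rw [e]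
    exact ((mx (mv (IH i j) k)).add (Ic.sum _ fun l => mv (IHH i j k l) l)).cmul 2
  have Iww : ∀ i, Ic P X (fun s => ww (G s) i 0 * ww (G s) i 0) := by
    intro i
    have e : (fun s => ww (G s) i 0 * ww (G s) i 0) = fun s =>
        2 * (G s 0 * (D i (G s) 0 * ww (G s) i 0) +
        ∑ l, D l (G s) 0 * (D i (D l (G s)) 0 * ww (G s) i 0)) := by
      funext s
      obtain ⟨w, hw⟩ : ∃ w, w = ww (G s) i 0 := ⟨_, rfl⟩
      have e1 := ew i s
      rw [← hw] at e1 ⊢
      have e2 : ∑ l, D l (G s) 0 * (D i (D l (G s)) 0 * w) =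
          (∑ l, D l (G s) 0 * D i (D l (G s)) 0) * w := by
        rw [Finset.sum_mul]
        exact Finset.sum_congr rfl fun l _ => by ring
      rw [e2]
      nth_rewrite 1 [e1]
      ring
    rw [e]
    exact ((mx (mv (Iw i) i)).add (Ic.sum _ fun l => mv (IHw i l i) l)).cmul 2
  -- coefficients
  have co : ∀ {Φ : ℝ × ℝ → ℝ}, Continuous Φ → HasCompactSupport Φ → ∀ {Z : S → ℝ},
      Ic P X Z → Integrable (fun s => Φ (G s 0, rr (G s) 0) * Z s) P := by
    intro Φ c k Z hZ
    obtain ⟨c1, k1⟩ := cpt (d := d) c k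
    have h := hZ _ c1 k1
    have e : ∀ s, ((X s).1, jr (X s).1 (X s).2) = (G s 0, rr (G s) 0) := fun s => by
      rw [hX]; rfl
    simpa only [e] using h
  have cA1 : Continuous fun z => fderiv ℝ A z (1, 0) :=
    (hA.continuous_fderiv (by simp)).clm_apply continuous_const
  have cA2 : Continuous fun z => fderiv ℝ A z (0, 1) :=
    (hA.continuous_fderiv (by simp)).clm_apply continuous_const
  have cC1 : Continuous fun z => fderiv ℝ C z (1, 0) :=
    (hC.continuous_fderiv (by simp)).clm_apply continuous_const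
  have cC2 : Continuous fun z => fderiv ℝ C z (0, 1) :=
    (hC.continuous_fderiv (by simp)).clm_apply continuous_const
  have kA1 : HasCompactSupport fun z => fderiv ℝ A z (1, 0) := kA.fderiv_apply (𝕜 := ℝ) _
  have kA2 : HasCompactSupport fun z => fderiv ℝ A z (0, 1) := kA.fderiv_apply (𝕜 := ℝ) _
  have kC1 : HasCompactSupport fun z => fderiv ℝ C z (1, 0) := kC.fderiv_apply (𝕜 := ℝ) _
  have kC2 : HasCompactSupport fun z => fderiv ℝ C z (0, 1) := kC.fderiv_apply (𝕜 := ℝ) _
  have iU : Integrable (fun s => UU A C (G s) i 0) P := by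
    have t1 := co hA.continuous kA (Iv i)
    have t2 := (co hC.continuous kC (Iw i)).const_mul (1 / 2)
    exact t1.sub t2
  have Iz : Ic P X (fun s => 2 * (D i (G s) 0 * D i (G s) 0 + G s 0 * D i (D i (G s)) 0 +
      ∑ j, (D j (G s) 0 * D i (D i (D j (G s))) 0 +
        D i (D j (G s)) 0 * D i (D j (G s)) 0))) :=
    (((Ivv i).add (mx (IH i i))).add (Ic.sum _ fun j => (mv (IT i i j) j).add
      (IHH i j i j))).cmul 2
  have iDU : Integrable (fun s => DU A C (G s) i 0) P := by
    have t1 := co cA1 kA1 (Ivv i)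
    have t2 := co cA2 kA2 (mv (Iw i) i)
    have t3 := co hA.continuous kA (IH i i)
    have t4 := co cC1 kC1 (mv (Iw i) i)
    have t5 := co cC2 kC2 (Iww i)
    have t6 := co hC.continuous kC Iz
    have t := ((t1.add t2).add t3).sub (((t4.add t5).add t6).const_mul (1 / 2))
    refine t.congr (ae_of_all _ fun s => ?_)
    simp only [Pi.add_apply, Pi.sub_apply]
    unfold DU
    have e : ∑ j, (D j (G s) 0 * D i (D i (D j (G s))) 0 +
        D i (D j (G s)) 0 * D i (D j (G s)) 0) =
        ∑ j, (D i (D i (D j (G s))) 0 * D j (G s) 0 +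
        D i (D j (G s)) 0 * D i (D j (G s)) 0) :=
      Finset.sum_congr rfl fun j _ => by ring
    rw [e]
    ring
  refine ⟨iDU, ?_⟩
  have sc : SC τ (fun s => UU A C (G s) i) := by
    have mr : ∀ y, Measurable fun s => rr (G s) y := by
      intro y
      unfold rr jr jq gr
      exact ((W.sf.meas y).pow_const 2).add
        (Finset.measurable_sum _ fun j _ => ((W1 j).sf.meas y).pow_const 2)
    have mw : ∀ y, Measurable fun s => ww (G s) i y := by
      intro y
      unfold ww jw jh gr he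
      exact measurable_const.mul (((W.sf.meas y).mul ((W1 i).sf.meas y)).add
        (Finset.measurable_sum _ fun j _ => ((W2 j i).sf.meas y).mul ((W1 j).sf.meas y)))
    refine ⟨fun y => ?_, fun x s y => ?_⟩
    · unfold UU
      have m1 : Measurable fun s => A (G s y, rr (G s) y) :=
        hA.continuous.measurable.comp ((W.sf.meas y).prodMk (mr y))
      have m2 : Measurable fun s => C (G s y, rr (G s) y) :=
        hC.continuous.measurable.comp ((W.sf.meas y).prodMk (mr y))
      exact (m1.mul ((W1 i).sf.meas y)).sub (measurable_const.mul (m2.mul (mw y)))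
    · have c1 := W.sf.cov x s y
      have c2 : ∀ j, D j (G (τ x s)) y = D j (G s) (y + x) := fun j => (W1 j).sf.cov x s y
      have c3 : ∀ j k, D k (D j (G (τ x s))) y = D k (D j (G s)) (y + x) :=
        fun j k => (W2 j k).sf.cov x s y
      show UU A C (G (τ x s)) i y = UU A C (G s) i (y + x)
      unfold UU rr ww jr jw jq jh gr he
      simp only [c1, c2, c3]
  have h := div1 hτ sc (fun s => UU_sm hA hC (W.sf.smooth s) i) i iU (by
    refine iDU.congr (ae_of_all _ fun s => ?_)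
    exact (D_UU hA hC (W.sf.smooth s) i 0).symm)
  rw [← h]
  refine integral_congr_ae (ae_of_all _ fun s => ?_)
  exact (D_UU hA hC (W.sf.smooth s) i 0).symm

end ModID

/-- module ID -/
theorem stmtID.{u} : StmtID.{u} := by
  intro d S _ P τ _ hτ G W A C hA kA hC kC
  have e : ∀ s, II A C (G s 0) (gr (G s) 0) (he (G s) 0) = ∑ i, ModID.DU A C (G s) i 0 :=
    fun s => (ModID.sum_DU (W.sf.smooth s) (W.eq s) 0).symm
  simp only [e]
  have h := ModID.main hτ W hA kA hC kC
  refine ⟨integrable_finsetSum _ fun i _ => (h i).1, ?_⟩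
  rw [integral_finsetSum _ fun i _ => (h i).1]
  exact Finset.sum_eq_zero fun i _ => (h i).2

end

end Pool.Agent.T6.H5.PL
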