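import Pool.Agent.T6.H5.PL.Defs

/-!
Project PL (helper5), module JE (written by helper94): Jensen's inequality and the case of
equality.
-/

set_option autoImplicit false
open MeasureTheory Filter Topology Finset
open scoped ContDiff ENNReal

namespace Pool.Agent.T6.H5.PL

open Pool.Agent.Y139.SW Pool.Agent.T6.H5.PW

universe u

noncomputable section

namespace ModJE

variable {S : Type u} [MeasurableSpace S] {P : Measure S}

/-- Jensen's inequality for `x ^ (p / 2)` with equality case -/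
lemma jensen [IsProbabilityMeasure P] {ρ : S → ℝ} (h0 : ∀ s, 0 ≤ ρ s) (hi : Integrable ρ P)
    {p : ℝ} (hp : 1 ≤ p) (hp2 : p ≠ 2) (hint : Integrable (fun s => ρ s ^ (p / 2)) P) :
    sg p * (∫ s, ρ s ∂P) ^ (p / 2) ≤ sg p * ∫ s, ρ s ^ (p / 2) ∂P ∧
    (∫ s, ρ s ^ (p / 2) ∂P = (∫ s, ρ s ∂P) ^ (p / 2) → ∀ᵐ s ∂P, ρ s = ∫ s, ρ s ∂P) := by
  have hc : ContinuousOn (fun x : ℝ => x ^ (p / 2)) (Set.Ici 0) :=
    (Real.continuous_rpow_const (by linarith)).continuousOn
  have hm : ∀ᵐ s ∂P, ρ s ∈ Set.Ici (0 : ℝ) := ae_of_all _ h0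
  have hint' : Integrable ((fun x : ℝ => x ^ (p / 2)) ∘ ρ) P := hint
  rcases lt_or_gt_of_ne hp2 with h | h
  · have hs : StrictConcaveOn ℝ (Set.Ici 0) (fun x : ℝ => x ^ (p / 2)) :=
      Real.strictConcaveOn_rpow (by linarith) (by linarith)
    have hsg : sg p = -1 := by unfold sg; rw [if_neg (by linarith)]
    have h1 := hs.concaveOn.le_map_integral hc isClosed_Ici hm hi hint'
    have h2 := hs.ae_eq_const_or_lt_map_average hc isClosed_Ici hm hi hint'
    rw [average_eq_integral, average_eq_integral] at h2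
    refine ⟨by rw [hsg]; linarith, fun he => ?_⟩
    rcases h2 with h2 | h2
    · filter_upwards [h2] with s hs
      exact hs
    · exact absurd he h2.ne
  · have hs : StrictConvexOn ℝ (Set.Ici 0) (fun x : ℝ => x ^ (p / 2)) :=
      strictConvexOn_rpow (by linarith)
    have hsg : sg p = 1 := by unfold sg; rw [if_pos h]
    have h1 := hs.convexOn.map_integral_le hc isClosed_Ici hm hi hint'
    have h2 := hs.ae_eq_const_or_map_average_lt hc isClosed_Ici hm hi hint'
    rw [average_eq_integral, average_eq_integral] at h2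
    refine ⟨by rw [hsg]; linarith, fun he => ?_⟩
    rcases h2 with h2 | h2
    · filter_upwards [h2] with s hs
      exact hs
    · exact absurd he h2.ne'

end ModJE

open ModJE

/-- module JE -/
theorem stmtJE (hO : StmtO) : StmtJE.{u} := by
  intro d S _ P τ _ hτ G W p hp hp2 hint hpos
  have W1 := fun i => W.der hτ i
  have hen := W.energy hτ
  obtain ⟨sig, hsd⟩ : ∃ sig : ℝ, sig = ∫ s, G s 0 ^ 2 ∂P := ⟨_, rfl⟩
  rw [← hsd] at hpos hen
  simp only [← hsd]
  obtain ⟨ρ, hρ⟩ : ∃ ρ : S → ℝ, ρ = fun s => jr (G s 0) (gr (G s) 0) := ⟨_, rfl⟩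
  have ρv : ∀ s, ρ s = G s 0 ^ 2 + ∑ i, D i (G s) 0 ^ 2 := by intro s; rw [hρ]; rfl
  have ρ0 : ∀ s, 0 ≤ ρ s := fun s => by rw [ρv]; positivity
  have ρi : Integrable ρ P := by
    have h1 : Integrable (fun s => G s 0 ^ 2 + ∑ i, D i (G s) 0 ^ 2) P :=
      W.l2.add (integrable_finsetSum _ fun i _ => (W1 i).l2)
    have h2 : ρ = fun s => G s 0 ^ 2 + ∑ i, D i (G s) 0 ^ 2 := funext ρv
    rw [h2]; exact h1
  have ρe : ∫ s, ρ s ∂P = 2 * sig := by
    simp only [ρv]
    rw [integral_add W.l2 (integrable_finsetSum _ fun i _ => (W1 i).l2),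
      integral_finsetSum _ fun i _ => (W1 i).l2, hen, ← hsd]
    ring
  have hint' : Integrable (fun s => ρ s ^ (p / 2)) P := by rw [hρ]; exact hint
  have hJ := jensen ρ0 ρi hp hp2 hint'
  rw [ρe] at hJ
  have hρ' : ∀ s, jr (G s 0) (gr (G s) 0) = ρ s := fun s => by rw [hρ]
  simp only [hρ']
  refine ⟨hJ.1, fun he => ?_⟩
  have h1 := hJ.2 he
  -- the field `R`
  have hR : ∀ s y, G s y ^ 2 + ∑ i, D i (G s) y ^ 2 = ρ (τ y s) := by
    intro s y
    have e1 : G (τ y s) 0 = G s y := by rw [W.sf.cov, zero_add]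
    have e2 : ∀ i, D i (G (τ y s)) 0 = D i (G s) y := by
      intro i
      have h := (W1 i).sf.cov y s 0
      rw [zero_add] at h
      exact h
    rw [ρv, e1]
    simp only [e2]
  have hy : ∀ y, ∀ᵐ s ∂P, G s y ^ 2 + ∑ i, D i (G s) y ^ 2 = 2 * sig := by
    intro y
    have h2 := (hτ y).quasiMeasurePreserving.ae h1
    filter_upwards [h2] with s hs
    rw [hR, hs]
  obtain ⟨D0, hD0c, hD0⟩ := TopologicalSpace.exists_countable_dense (E d)
  have hall : ∀ᵐ s ∂P, ∀ y ∈ D0, G s y ^ 2 + ∑ i, D i (G s) y ^ 2 = 2 * sig :=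
    (ae_ball_iff hD0c).2 fun y _ => hy y
  filter_upwards [hall] with s hs
  have hc : Continuous (fun y => G s y ^ 2 + ∑ i, D i (G s) y ^ 2) :=
    ((W.sf.smooth s).continuous.pow 2).add
      (continuous_finsetSum _ fun i _ => ((W1 i).sf.smooth s).continuous.pow 2)
  have hconst : (fun y => G s y ^ 2 + ∑ i, D i (G s) y ^ 2) = fun _ => 2 * sig :=
    Continuous.ext_on hD0 hc continuous_const fun y hy => hs y hy
  have ha : 0 < √(2 * sig) := by positivity
  refine hO (G s) (W.sf.smooth s) (W.eq s) (√(2 * sig)) ha fun y => ?_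
  have h3 : G s y ^ 2 + ∑ i, D i (G s) y ^ 2 = 2 * sig := congrFun hconst y
  rw [Real.sq_sqrt (by positivity), ← h3]
  ring

end

end Pool.Agent.T6.H5.PL
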