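import Pool.Agent.T6.H5.PL.Defs

/-!
Project PL (helper5), MP_4fa179_mp, module MO (helper3): moments of the jet of a wave.
-/

set_option autoImplicit false
open MeasureTheory Filter Topology Finset
open scoped ContDiff ENNReal

namespace Pool.Agent.T6.H5.PL

open Pool.Agent.Y139.SW Pool.Agent.T6.H5.PW

noncomputable section

namespace ModMO

section

variable {S : Type*} [MeasurableSpace S] {P : Measure S}

lemma sq_mem {f : S → ℝ} {p : ℝ} (hf : MemLp f (ENNReal.ofReal p) P) :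
    MemLp (fun s => f s ^ 2) (ENNReal.ofReal (p / 2)) P := by
  have h := hf.norm_rpow_div 2
  have h1 : ENNReal.ofReal p / 2 = ENNReal.ofReal (p / 2) := by
    rw [ENNReal.ofReal_div_of_pos (by norm_num : (0 : ℝ) < 2)]
    norm_num
  rw [h1] at h
  have h2 : (fun s => ‖f s‖ ^ (2 : ℝ≥0∞).toReal) = fun s => f s ^ 2 := by
    funext s
    rw [ENNReal.toReal_ofNat, Real.rpow_ofNat, Real.norm_eq_abs, sq_abs]
  rwa [h2] at h

end

variable {d : ℕ}

lemma norm_single (i : Fin d) : ‖(EuclideanSpace.single i (1 : ℝ) : E d)‖ ≤ 1 := by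
  simp

end ModMO

theorem stmtMO.{u} (hB : StmtB.{u}) : StmtMO.{u} := by
  intro d S _ P τ _ hτ G W p hp hI
  have Wi : ∀ i : Fin d, Wave P τ (fun s => D i (G s)) := fun i => W.der hτ i
  have Wij : ∀ i j : Fin d, Wave P τ (fun s => D i (D j (G s))) := fun i j => (Wi j).der hτ i
  have e : (fun s => jj (G s 0) (gr (G s) 0) (he (G s) 0)) = fun s =>
      (G s 0 ^ 2 + ∑ i, D i (G s) 0 ^ 2) + ∑ i, ∑ j, D i (D j (G s)) 0 ^ 2 := rfl
  have h1 : Integrable (fun s => jj (G s 0) (gr (G s) 0) (he (G s) 0)) P := by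
    rw [e]
    refine (W.l2.add (integrable_finsetSum _ fun i _ => (Wi i).l2)).add
      (integrable_finsetSum _ fun i _ => integrable_finsetSum _ fun j _ => (Wij i j).l2)
  refine ⟨h1, ?_⟩
  rcases le_or_gt p 2 with h2 | h2
  · rw [max_eq_right h2]
    simpa using h1
  · rw [max_eq_left h2.le]
    have hq : (1 : ℝ≥0∞) ≤ ENNReal.ofReal p := by
      rw [← ENNReal.ofReal_one]
      exact ENNReal.ofReal_le_ofReal hp
    have hp0 : ENNReal.ofReal p ≠ 0 := by
      rw [Ne, ENNReal.ofReal_eq_zero]; linarith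
    have m0 : MemLp (fun s => G s 0) (ENNReal.ofReal p) P := by
      rw [← integrable_norm_rpow_iff W.m0.aestronglyMeasurable hp0 ENNReal.ofReal_ne_top]
      rw [ENNReal.toReal_ofReal (by linarith)]
      simpa using hI
    have mi : ∀ i : Fin d, MemLp (fun s => D i (G s) 0) (ENNReal.ofReal p) P := by
      intro i
      refine ⟨(Wi i).m0.aestronglyMeasurable, ?_⟩
      exact lt_of_le_of_lt (hB hτ W _ (ModMO.norm_single i) _ hq) m0.2
    have mij : ∀ i j : Fin d, MemLp (fun s => D i (D j (G s)) 0) (ENNReal.ofReal p) P := by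
      intro i j
      refine ⟨(Wij i j).m0.aestronglyMeasurable, ?_⟩
      exact lt_of_le_of_lt (hB hτ (Wi j) _ (ModMO.norm_single i) _ hq) (mi j).2
    have hall : MemLp (fun s => (G s 0 ^ 2 + ∑ i, D i (G s) 0 ^ 2) +
        ∑ i, ∑ j, D i (D j (G s)) 0 ^ 2) (ENNReal.ofReal (p / 2)) P := by
      refine ((ModMO.sq_mem m0).add (memLp_finsetSum _ fun i _ => ModMO.sq_mem (mi i))).add
        (memLp_finsetSum _ fun i _ => memLp_finsetSum _ fun j _ => ModMO.sq_mem (mij i j))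
    have h3 := hall.integrable_norm_rpow (by rw [Ne, ENNReal.ofReal_eq_zero]; linarith)
      ENNReal.ofReal_ne_top
    rw [ENNReal.toReal_ofReal (by linarith)] at h3
    refine h3.congr (Eventually.of_forall fun s => ?_)
    have h4 : 0 ≤ (G s 0 ^ 2 + ∑ i, D i (G s) 0 ^ 2) + ∑ i, ∑ j, D i (D j (G s)) 0 ^ 2 := by
      positivity
    show ‖(G s 0 ^ 2 + ∑ i, D i (G s) 0 ^ 2) + ∑ i, ∑ j, D i (D j (G s)) 0 ^ 2‖ ^ (p / 2) =
      ((G s 0 ^ 2 + ∑ i, D i (G s) 0 ^ 2) + ∑ i, ∑ j, D i (D j (G s)) 0 ^ 2) ^ (p / 2)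
    rw [Real.norm_of_nonneg h4]

end

end Pool.Agent.T6.H5.PL
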