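import Pool.Agent.T6.H5.PL.Defs

/-!
Project PL (helper5), module NZ (helper29): the gradient vanishes only together with the function.
-/

set_option autoImplicit false
open MeasureTheory Filter Topology Finset
open scoped ContDiff ENNReal

namespace Pool.Agent.T6.H5.PL

open Pool.Agent.Y139.SW Pool.Agent.T6.H5.PW

noncomputable section

namespace ModNZ

/-- the simple zeros of a differentiable function of one variable are countable -/
theorem simple_zeros {φ φ' : ℝ → ℝ} (h : ∀ t, HasDerivAt φ (φ' t) t) :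
    Set.Countable {t | φ t = 0 ∧ φ' t ≠ 0} := by
  have hd : DiscreteTopology {t | φ t = 0 ∧ φ' t ≠ 0} := by
    rw [discreteTopology_subtype_iff]
    intro x hx
    have h1 : ∀ᶠ z in 𝓝[≠] x, φ z ≠ 0 := (h x).eventually_ne hx.2
    rw [← disjoint_iff, Filter.disjoint_principal_right]
    filter_upwards [h1] with z hz hz'
    exact hz hz'.1
  exact Set.countable_coe_iff.1 (countable_of_Lindelof_of_discrete)

theorem key {d : ℕ} {S : Type*} [MeasurableSpace S] {P : Measure S} {τ : E d → S → S}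
    [IsProbabilityMeasure P] (hτ : ∀ x, MeasurePreserving (τ x) P P) {u : S → E d → ℝ}
    (hu : SF τ u) (j : Fin d) : ∀ᵐ s ∂P, u s 0 = 0 → D j (u s) 0 = 0 := by
  obtain ⟨e, he⟩ : ∃ e : E d, e = EuclideanSpace.single j 1 := ⟨_, rfl⟩
  have hd := hu.der j
  -- the set
  set A : Set (E d × S) := {p | u p.2 p.1 = 0 ∧ D j (u p.2) p.1 ≠ 0} with hA
  have mA : MeasurableSet A := by
    apply MeasurableSet.inter
    · exact (joint hu) (measurableSet_singleton 0)
    · exact ((joint hd) (measurableSet_singleton 0)).compl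
  have mc : Measurable fun p : ℝ × S => ((p.1 • e, p.2) : E d × S) := by fun_prop
  set B : Set (ℝ × S) := (fun p : ℝ × S => ((p.1 • e, p.2) : E d × S)) ⁻¹' A with hB
  have mB : MeasurableSet B := mc mA
  set μ : Measure ℝ := volume.restrict (Set.Ioc (0 : ℝ) 1) with hμ
  have h0 : (μ.prod P) B = 0 := by
    rw [Measure.prod_apply_symm mB, lintegral_eq_zero_iff' (by
      exact (measurable_measure_prodMk_right mB).aemeasurable)]
    refine ae_of_all _ fun s => ?_
    have hc : Set.Countable {t : ℝ | u s (t • e) = 0 ∧ D j (u s) (t • e) ≠ 0} := by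
      refine simple_zeros (φ := fun t => u s (t • e)) (φ' := fun t => D j (u s) (t • e))
        fun t => ?_
      have h1 : HasDerivAt (fun t : ℝ => t • e) ((1 : ℝ) • e) t := (hasDerivAt_id t).smul_const e
      have h2 := (sdiff (hu.smooth s) (t • e)).hasFDerivAt.comp_hasDerivAt t h1
      rw [one_smul, he] at h2
      rw [he]
      exact h2
    have h2 : (fun x : ℝ => (x, s)) ⁻¹' B = {t : ℝ | u s (t • e) = 0 ∧ D j (u s) (t • e) ≠ 0} := rfl
    show μ ((fun x : ℝ => (x, s)) ⁻¹' B) = 0
    rw [h2]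
    exact hc.measure_zero μ
  rw [Measure.measure_prod_null mB] at h0
  have hne : NeZero μ := by
    refine ⟨fun h => ?_⟩
    have : μ Set.univ = 1 := by
      rw [hμ, Measure.restrict_apply_univ, Real.volume_Ioc]; simp
    rw [h] at this
    simp at this
  obtain ⟨t, ht⟩ := h0.exists
  have ht' : P (Prod.mk t ⁻¹' B) = 0 := ht
  -- stationarity
  have h3 : Prod.mk t ⁻¹' B = τ (t • e) ⁻¹' {s | u s 0 = 0 ∧ D j (u s) 0 ≠ 0} := by
    ext s
    show (u s (t • e) = 0 ∧ D j (u s) (t • e) ≠ 0) ↔
      (u (τ (t • e) s) 0 = 0 ∧ D j (u (τ (t • e) s)) 0 ≠ 0)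
    have e1 : u (τ (t • e) s) 0 = u s (t • e) := by rw [hu.cov, zero_add]
    have e2 : D j (u (τ (t • e) s)) 0 = D j (u s) (t • e) := by
      have := hd.cov (t • e) s 0
      rw [zero_add] at this
      exact this
    rw [e1, e2]
  have m0 : MeasurableSet {s | u s 0 = 0 ∧ D j (u s) 0 ≠ 0} := by
    apply MeasurableSet.inter
    · exact (hu.meas 0) (measurableSet_singleton 0)
    · exact ((hd.meas 0) (measurableSet_singleton 0)).compl
  rw [h3, (hτ (t • e)).measure_preimage m0.nullMeasurableSet] at ht'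
  rw [ae_iff]
  convert ht' using 2
  ext s
  simp

end ModNZ

/-- module NZ -/
theorem stmtNZ.{u} : StmtNZ.{u} := by
  intro d S _ P τ _ hτ G W
  have h : ∀ i j : Fin d, ∀ᵐ s ∂P, D i (G s) 0 = 0 → D j (D i (G s)) 0 = 0 := fun i j =>
    ModNZ.key hτ (W.sf.der i) j
  have h' : ∀ᵐ s ∂P, ∀ i, D i (G s) 0 = 0 → D i (D i (G s)) 0 = 0 := by
    rw [ae_all_iff]
    exact fun i => h i i
  filter_upwards [h'] with s hs hg
  have h1 : ∀ i, D i (D i (G s)) 0 = 0 := fun i => hs i (congrFun hg i)
  have h2 := W.eq s 0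
  unfold Lap at h2
  simp only [h1, Finset.sum_const_zero] at h2
  linarith

end

end Pool.Agent.T6.H5.PL
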