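import Pool.Agent.T6.H5.PL.Defs

set_option autoImplicit false
open MeasureTheory Filter Topology Finset
open scoped ContDiff ENNReal

namespace Pool.Agent.T6.H5.PL

open Pool.Agent.Y139.SW Pool.Agent.T6.H5.PW

namespace ModS

theorem cont_abs_cos (p : ℝ) (hp : 1 ≤ p) : Continuous fun t : ℝ => |Real.cos t| ^ p :=
  (Real.continuous_cos.abs).rpow_const fun _ => Or.inr (by linarith)

theorem be_deriv (p : ℝ) (hp : 1 ≤ p) (θ : ℝ) :
    HasDerivAt (be p) (|Real.cos θ| ^ p - Cp p) θ := by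
  have hc : Continuous fun t : ℝ => |Real.cos t| ^ p - Cp p :=
    (cont_abs_cos p hp).sub continuous_const
  exact (hc.integral_hasStrictDerivAt 0 θ).hasDerivAt

theorem be_cont (p : ℝ) (hp : 1 ≤ p) : Continuous (be p) :=
  continuous_iff_continuousAt.2 fun θ => (be_deriv p hp θ).continuousAt

theorem be_zero (p : ℝ) : be p 0 = 0 := by
  unfold be
  exact intervalIntegral.integral_same

theorem be_half (p : ℝ) (hp : 1 ≤ p) : be p (Real.pi / 2) = 0 := by
  have hc := cont_abs_cos p hp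
  have h1 : ∫ t in (0:ℝ)..Real.pi, |Real.cos t| ^ p =
      2 * ∫ t in (0:ℝ)..(Real.pi / 2), |Real.cos t| ^ p := by
    have h2 : ∫ t in (0:ℝ)..(Real.pi / 2), |Real.cos (Real.pi - t)| ^ p =
        ∫ t in (Real.pi - Real.pi / 2)..(Real.pi - 0), |Real.cos t| ^ p :=
      intervalIntegral.integral_comp_sub_left (fun t => |Real.cos t| ^ p) Real.pi
    have h3 : ∫ t in (0:ℝ)..(Real.pi / 2), |Real.cos (Real.pi - t)| ^ p =
        ∫ t in (0:ℝ)..(Real.pi / 2), |Real.cos t| ^ p := by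
      simp only [Real.cos_pi_sub, abs_neg]
    have h4 : Real.pi - Real.pi / 2 = Real.pi / 2 := by ring
    rw [h4, sub_zero] at h2
    have h5 := intervalIntegral.integral_add_adjacent_intervals
      (hc.intervalIntegrable (μ := volume) 0 (Real.pi / 2))
      (hc.intervalIntegrable (μ := volume) (Real.pi / 2) Real.pi)
    rw [← h5, ← h2, h3]
    ring
  unfold be
  rw [intervalIntegral.integral_sub (hc.intervalIntegrable _ _)
    (continuous_const.intervalIntegrable _ _), intervalIntegral.integral_const]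
  unfold Cp
  rw [h1]
  have := Real.pi_pos
  simp only [smul_eq_mul]
  field_simp
  ring

theorem Cp_le (p : ℝ) (hp : 2 < p) : Cp p ≤ 1 / 2 := by
  unfold Cp
  rw [div_le_iff₀ Real.pi_pos]
  have h1 : ∫ t in (0:ℝ)..Real.pi, |Real.cos t| ^ p ≤ ∫ t in (0:ℝ)..Real.pi, Real.cos t ^ 2 := by
    apply intervalIntegral.integral_mono_on Real.pi_pos.le
    · exact (cont_abs_cos p (by linarith)).intervalIntegrable _ _
    · exact (Real.continuous_cos.pow 2).intervalIntegrable _ _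
    · intro x _
      calc |Real.cos x| ^ p ≤ |Real.cos x| ^ (2:ℝ) :=
            Real.rpow_le_rpow_of_exponent_ge' (abs_nonneg _) (Real.abs_cos_le_one x)
              (by norm_num) hp.le
        _ = Real.cos x ^ 2 := by
            rw [Real.rpow_two, sq_abs]
  rw [integral_cos_sq] at h1
  simp at h1
  linarith

theorem le_Cp (p : ℝ) (hp1 : 1 ≤ p) (hp : p < 2) : 1 / 2 ≤ Cp p := by
  unfold Cp
  rw [le_div_iff₀ Real.pi_pos]
  have h1 : ∫ t in (0:ℝ)..Real.pi, Real.cos t ^ 2 ≤ ∫ t in (0:ℝ)..Real.pi, |Real.cos t| ^ p := by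
    apply intervalIntegral.integral_mono_on Real.pi_pos.le
    · exact (Real.continuous_cos.pow 2).intervalIntegrable _ _
    · exact (cont_abs_cos p hp1).intervalIntegrable _ _
    · intro x _
      calc Real.cos x ^ 2 = |Real.cos x| ^ (2:ℝ) := by rw [Real.rpow_two, sq_abs]
        _ ≤ |Real.cos x| ^ p :=
            Real.rpow_le_rpow_of_exponent_ge' (abs_nonneg _) (Real.abs_cos_le_one x)
              (by linarith) hp.le
  rw [integral_cos_sq] at h1
  simp at h1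
  linarith

/-- the auxiliary function of `z = sin²` -/
noncomputable def F (p z : ℝ) : ℝ :=
  (1 - z) ^ ((p - 2) / 2) * (1 + (p - 1) * z) / (3 * p - 2 + 2 * p * z)

/-- its derivative -/
noncomputable def F' (p z : ℝ) : ℝ :=
  (1 - z) ^ ((p - 4) / 2) * (p * (p - 2) * (3 - 3 * (p + 1) * z - 2 * (p - 1) * z ^ 2)) /
    (2 * (3 * p - 2 + 2 * p * z) ^ 2)

theorem F_deriv {p z : ℝ} (hp : 1 ≤ p) (h0 : 0 ≤ z) (h1 : z < 1) :
    HasDerivAt (F p) (F' p z) z := by
  have hz : 0 < 1 - z := by linarith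
  have hden : 0 < 3 * p - 2 + 2 * p * z := by nlinarith
  have e1 : HasDerivAt (fun y : ℝ => (1 - y) ^ ((p - 2) / 2))
      (-1 * ((p - 2) / 2) * (1 - z) ^ ((p - 2) / 2 - 1)) z :=
    HasDerivAt.rpow_const (by simpa using (hasDerivAt_id z).const_sub 1) (Or.inl hz.ne')
  have e2 : HasDerivAt (fun y : ℝ => 1 + (p - 1) * y) (p - 1) z := by
    simpa using ((hasDerivAt_id z).const_mul (p - 1)).const_add 1
  have e3 : HasDerivAt (fun y : ℝ => 3 * p - 2 + 2 * p * y) (2 * p) z := by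
    simpa using ((hasDerivAt_id z).const_mul (2 * p)).const_add (3 * p - 2)
  have e4 := (e1.mul e2).div e3 hden.ne'
  refine e4.congr_deriv ?_
  have hr1 : (1 - z) ^ ((p - 2) / 2 - 1) = (1 - z) ^ ((p - 4) / 2) := by
    congr 1; ring
  have hr2 : (1 - z) ^ ((p - 2) / 2) = (1 - z) ^ ((p - 4) / 2) * (1 - z) := by
    rw [show (p - 2) / 2 = (p - 4) / 2 + 1 by ring, Real.rpow_add_one hz.ne']
  simp only [Pi.mul_apply]
  rw [hr1, hr2, F']
  field_simp
  ring

/-- signs -/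
theorem sg_cases {p : ℝ} (hp : 1 ≤ p) (hp2 : p ≠ 2) :
    (sg p = 1 ∧ 2 < p ∧ Cp p ≤ 1 / 2) ∨ (sg p = -1 ∧ p < 2 ∧ 1 / 2 ≤ Cp p) := by
  rcases lt_or_gt_of_ne hp2 with h | h
  · refine Or.inr ⟨?_, h, le_Cp p hp h⟩
    unfold sg
    rw [if_neg (by linarith)]
  · refine Or.inl ⟨?_, h, Cp_le p h⟩
    unfold sg
    rw [if_pos h]

/-- the function `Z` -/
noncomputable def Z (p θ : ℝ) : ℝ :=
  Cp p * (3 * p - 2 + 2 * p * Real.sin θ ^ 2) -
    2 * (p - 1) * Real.cos θ ^ (p - 2) * (1 + (p - 1) * Real.sin θ ^ 2)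

theorem Z_eq {p θ : ℝ} (hp : 1 < p) (hc : 0 < Real.cos θ) :
    Z p θ = 2 * (p - 1) * (3 * p - 2 + 2 * p * Real.sin θ ^ 2) *
      (Cp p / (2 * (p - 1)) - F p (Real.sin θ ^ 2)) := by
  have hden : 0 < 3 * p - 2 + 2 * p * Real.sin θ ^ 2 := by
    have := sq_nonneg (Real.sin θ)
    nlinarith
  have hp1 : p - 1 ≠ 0 := by
    intro h; linarith
  have h1 : (1 - Real.sin θ ^ 2) ^ ((p - 2) / 2) = Real.cos θ ^ (p - 2) := by
    have h2 : 1 - Real.sin θ ^ 2 = Real.cos θ ^ (2:ℝ) := by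
      rw [Real.rpow_two]
      linarith [Real.sin_sq_add_cos_sq θ]
    rw [h2, ← Real.rpow_mul hc.le]
    congr 1; ring
  unfold Z F
  rw [h1]
  have hd := hden.ne'
  set Dn := 3 * p - 2 + 2 * p * Real.sin θ ^ 2 with hDn
  field_simp

theorem Z_cross {p x1 x2 : ℝ} (hp : 1 < p) (hp2 : p ≠ 2) (h0 : 0 < x1) (h12 : x1 < x2)
    (h2 : x2 < Real.pi / 2) (hZ1 : 0 < sg p * Z p x1) (hZ2 : sg p * Z p x2 < 0) : False := by
  have hpi := Real.pi_pos
  have hc1 : 0 < Real.cos x1 := Real.cos_pos_of_mem_Ioo ⟨by linarith, by linarith⟩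
  have hc2 : 0 < Real.cos x2 := Real.cos_pos_of_mem_Ioo ⟨by linarith, by linarith⟩
  have hs1 : 0 < Real.sin x1 := Real.sin_pos_of_pos_of_lt_pi h0 (by linarith)
  have hs12 : Real.sin x1 < Real.sin x2 :=
    Real.sin_lt_sin_of_lt_of_le_pi_div_two (by linarith) (by linarith) h12
  rw [Z_eq hp hc1] at hZ1
  rw [Z_eq hp hc2] at hZ2
  set z1 := Real.sin x1 ^ 2 with hz1
  set z2 := Real.sin x2 ^ 2 with hz2
  have hz10 : 0 < z1 := by positivity
  have hz12 : z1 < z2 := by rw [hz1, hz2]; nlinarith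
  have hz21 : z2 < 1 := by
    have := Real.sin_sq_add_cos_sq x2
    rw [hz2]
    nlinarith
  have hA : ∀ z : ℝ, 0 < z → 0 < 2 * (p - 1) * (3 * p - 2 + 2 * p * z) := by
    intro z hz
    have : 0 < 3 * p - 2 + 2 * p * z := by nlinarith
    have : 0 < p - 1 := by linarith
    positivity
  set τ := Cp p / (2 * (p - 1)) with hτ
  -- signs of the differences
  have hA1 := hA z1 hz10
  have hA2 := hA z2 (by linarith)
  have hs1' : 0 < sg p * (τ - F p z1) := by
    by_contra hcon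
    push Not at hcon
    nlinarith
  have hs2' : sg p * (τ - F p z2) < 0 := by
    by_contra hcon
    push Not at hcon
    nlinarith
  have hF0 : F p 0 = 1 / (3 * p - 2) := by
    unfold F
    simp
  have h3p : 0 < 3 * p - 2 := by linarith
  have hp1 : 0 < p - 1 := by linarith
  have hs0 : 0 ≤ sg p * (F p 0 - τ) := by
    rw [hF0, hτ]
    rcases sg_cases hp.le hp2 with ⟨h, hlt, hC⟩ | ⟨h, hlt, hC⟩
    · rw [h, one_mul, sub_nonneg, div_le_div_iff₀ (by positivity) h3p]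
      nlinarith
    · rw [h]
      have : 1 / (3 * p - 2) ≤ Cp p / (2 * (p - 1)) := by
        rw [div_le_div_iff₀ h3p (by positivity)]
        nlinarith
      linarith
  -- mean value theorem
  have hcont : ∀ a b : ℝ, 0 ≤ a → b < 1 → ContinuousOn (F p) (Set.Icc a b) := by
    intro a b ha hb z hz
    exact (F_deriv hp.le (ha.trans hz.1) (hz.2.trans_lt hb)).continuousAt.continuousWithinAt
  obtain ⟨ξ1, hξ1, hd1⟩ := exists_hasDerivAt_eq_slope (F p) (F' p) hz10
    (hcont 0 z1 le_rfl (by linarith))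
    (fun z hz => F_deriv hp.le hz.1.le (by linarith [hz.2]))
  obtain ⟨ξ2, hξ2, hd2⟩ := exists_hasDerivAt_eq_slope (F p) (F' p) hz12
    (hcont z1 z2 hz10.le hz21)
    (fun z hz => F_deriv hp.le (by linarith [hz.1]) (by linarith [hz.2]))
  have hd1' : sg p * F' p ξ1 < 0 := by
    rw [hd1, sub_zero, ← mul_div_assoc]
    apply div_neg_of_neg_of_pos _ hz10
    nlinarith
  have hd2' : 0 < sg p * F' p ξ2 := by
    rw [hd2, ← mul_div_assoc]
    apply div_pos _ (by linarith)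
    nlinarith
  have hBr : ∀ z : ℝ, 0 < z → z < 1 → sg p * F' p z =
      ((1 - z) ^ ((p - 4) / 2) * (p * (sg p * (p - 2))) / (2 * (3 * p - 2 + 2 * p * z) ^ 2)) *
        (3 - 3 * (p + 1) * z - 2 * (p - 1) * z ^ 2) := by
    intro z _ _
    unfold F'
    ring
  have hco : ∀ z : ℝ, 0 < z → z < 1 →
      0 < (1 - z) ^ ((p - 4) / 2) * (p * (sg p * (p - 2))) /
        (2 * (3 * p - 2 + 2 * p * z) ^ 2) := by
    intro z hz hz'
    have e1 : 0 < (1 - z) ^ ((p - 4) / 2) := Real.rpow_pos_of_pos (by linarith) _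
    have e2 : 0 < sg p * (p - 2) := by
      rcases sg_cases hp.le hp2 with ⟨h, hlt, _⟩ | ⟨h, hlt, _⟩
      · rw [h]; linarith
      · rw [h]; linarith
    have e3 : 0 < 3 * p - 2 + 2 * p * z := by nlinarith
    positivity
  have hξ1' : ξ1 < 1 := by linarith [hξ1.2]
  have hξ2' : ξ2 < 1 := by linarith [hξ2.2]
  have hξ20 : 0 < ξ2 := by linarith [hξ2.1]
  rw [hBr ξ1 hξ1.1 hξ1'] at hd1'
  rw [hBr ξ2 hξ20 hξ2'] at hd2'
  have hb1 : 3 - 3 * (p + 1) * ξ1 - 2 * (p - 1) * ξ1 ^ 2 < 0 := by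
    have := hco ξ1 hξ1.1 hξ1'
    by_contra hcon
    push Not at hcon
    nlinarith
  have hb2 : 0 < 3 - 3 * (p + 1) * ξ2 - 2 * (p - 1) * ξ2 ^ 2 := by
    have := hco ξ2 hξ20 hξ2'
    exact (mul_pos_iff_of_pos_left this).1 hd2'
  have hξ12 : ξ1 < ξ2 := hξ1.2.trans hξ2.1
  have hξ10 := hξ1.1
  have h5 : ξ1 ^ 2 ≤ ξ2 ^ 2 := by nlinarith
  nlinarith

/-- the function `T` -/
noncomputable def T (p θ : ℝ) : ℝ :=
  (p - 1) * (be p θ - Real.sin θ * Real.cos θ * Cp p) + p * Real.cos θ ^ 2 * be p θ -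
    Real.sin θ * Real.cos θ ^ (p + 1)

/-- the function `Q` -/
noncomputable def Q (p θ : ℝ) : ℝ :=
  (2 * Real.cos θ ^ (p - 1) * (p - 1 + Real.sin θ ^ 2) - (3 * p - 2) * Cp p * Real.cos θ) /
    Real.sin θ - 2 * p * be p θ

theorem T_deriv {p θ : ℝ} (hp : 1 ≤ p) (h0 : 0 < θ) (h1 : θ < Real.pi / 2) :
    HasDerivAt (T p) (Real.sin θ * Real.cos θ * Q p θ) θ := by
  have hc : 0 < Real.cos θ := Real.cos_pos_of_mem_Ioo ⟨by linarith [Real.pi_pos], h1⟩
  have hs : 0 < Real.sin θ := Real.sin_pos_of_pos_of_lt_pi h0 (by linarith [Real.pi_pos])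
  have eb := be_deriv p hp θ
  rw [abs_of_pos hc] at eb
  have es := Real.hasDerivAt_sin θ
  have ec := Real.hasDerivAt_cos θ
  have er : HasDerivAt (fun y => Real.cos y ^ (p + 1))
      (-Real.sin θ * (p + 1) * Real.cos θ ^ (p + 1 - 1)) θ := ec.rpow_const (Or.inl hc.ne')
  have e := ((eb.sub ((es.mul ec).mul_const (Cp p))).const_mul (p - 1)).add
    (((ec.pow 2).const_mul p).mul eb) |>.sub (es.mul er)
  refine e.congr_deriv ?_
  have hr1 : Real.cos θ ^ (p + 1 - 1) = Real.cos θ ^ (p - 1) * Real.cos θ := by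
    rw [show p + 1 - 1 = (p - 1) + 1 by ring, Real.rpow_add_one hc.ne']
  have hr2 : Real.cos θ ^ (p + 1) = Real.cos θ ^ (p - 1) * Real.cos θ * Real.cos θ := by
    rw [show p + 1 = (p - 1) + 1 + 1 by ring, Real.rpow_add_one hc.ne', Real.rpow_add_one hc.ne']
  have hr3 : Real.cos θ ^ p = Real.cos θ ^ (p - 1) * Real.cos θ := by
    rw [← Real.rpow_add_one hc.ne']
    congr 1; ring
  have hsc := Real.sin_sq_add_cos_sq θ
  unfold Q
  simp only [Pi.pow_apply]
  rw [hr1, hr2, hr3]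
  field_simp
  generalize Real.cos θ ^ (p - 1) = R
  generalize be p θ = B
  norm_num
  linear_combination ((p - 1) * (R * Real.cos θ + Cp p)) * hsc

theorem Q_deriv {p θ : ℝ} (hp : 1 ≤ p) (h0 : 0 < θ) (h1 : θ < Real.pi / 2) :
    HasDerivAt (Q p) (Z p θ / Real.sin θ ^ 2) θ := by
  have hc : 0 < Real.cos θ := Real.cos_pos_of_mem_Ioo ⟨by linarith [Real.pi_pos], h1⟩
  have hs : 0 < Real.sin θ := Real.sin_pos_of_pos_of_lt_pi h0 (by linarith [Real.pi_pos])
  have eb := be_deriv p hp θ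
  rw [abs_of_pos hc] at eb
  have es := Real.hasDerivAt_sin θ
  have ec := Real.hasDerivAt_cos θ
  have er : HasDerivAt (fun y => Real.cos y ^ (p - 1))
      (-Real.sin θ * (p - 1) * Real.cos θ ^ (p - 1 - 1)) θ := ec.rpow_const (Or.inl hc.ne')
  have e := ((((er.const_mul 2).mul ((es.pow 2).const_add (p - 1))).sub
    (ec.const_mul ((3 * p - 2) * Cp p))).div es hs.ne').sub (eb.const_mul (2 * p))
  refine e.congr_deriv ?_
  have hr1 : Real.cos θ ^ (p - 1) = Real.cos θ ^ (p - 2) * Real.cos θ := by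
    rw [← Real.rpow_add_one hc.ne']
    congr 1; ring
  have hr2 : Real.cos θ ^ (p - 1 - 1) = Real.cos θ ^ (p - 2) := by
    congr 1; ring
  have hr3 : Real.cos θ ^ p = Real.cos θ ^ (p - 2) * Real.cos θ * Real.cos θ := by
    rw [← Real.rpow_add_one hc.ne', ← Real.rpow_add_one hc.ne']
    congr 1; ring
  have hsc := Real.sin_sq_add_cos_sq θ
  unfold Z
  simp only [Pi.pow_apply, Pi.sub_apply, Pi.mul_apply]
  rw [hr2, hr1, hr3]
  field_simp
  generalize Real.cos θ ^ (p - 2) = R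
  norm_num
  linear_combination (Cp p * (3 * p - 2) - 2 * (p - 1) * (Real.sin θ ^ 2 + 1) * R) * hsc

theorem T_cont {p : ℝ} (hp : 1 ≤ p) : Continuous (T p) := by
  have hb := be_cont p hp
  have h1 : Continuous fun θ : ℝ => Real.cos θ ^ (p + 1) :=
    Real.continuous_cos.rpow_const fun _ => Or.inr (by linarith)
  unfold T
  fun_prop

theorem T_nonneg {p x : ℝ} (hp : 1 ≤ p) (hp2 : p ≠ 2) (hx0 : 0 < x) (hx1 : x < Real.pi / 2) :
    0 ≤ sg p * T p x := by
  have hpi := Real.pi_pos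
  by_contra hcon
  push Not at hcon
  have hT0 : T p 0 = 0 := by
    unfold T
    rw [be_zero]
    simp
  have hT1 : T p (Real.pi / 2) = 0 := by
    unfold T
    rw [be_half p hp, Real.cos_pi_div_two, Real.zero_rpow (by linarith)]
    simp
  have hsc : ∀ θ : ℝ, 0 < θ → θ < Real.pi / 2 → 0 < Real.sin θ * Real.cos θ := by
    intro θ h0 h1
    exact mul_pos (Real.sin_pos_of_pos_of_lt_pi h0 (by linarith))
      (Real.cos_pos_of_mem_Ioo ⟨by linarith, h1⟩)
  obtain ⟨ξ1, hξ1, hd1⟩ := exists_hasDerivAt_eq_slope (T p)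
    (fun θ => Real.sin θ * Real.cos θ * Q p θ) hx0 (T_cont hp).continuousOn
    (fun θ hθ => T_deriv hp hθ.1 (hθ.2.trans hx1))
  obtain ⟨ξ2, hξ2, hd2⟩ := exists_hasDerivAt_eq_slope (T p)
    (fun θ => Real.sin θ * Real.cos θ * Q p θ) hx1 (T_cont hp).continuousOn
    (fun θ hθ => T_deriv hp (hx0.trans hθ.1) hθ.2)
  simp only [hT0, hT1] at hd1 hd2
  have hξ1b : ξ1 < Real.pi / 2 := hξ1.2.trans hx1
  have hξ2a : 0 < ξ2 := hx0.trans hξ2.1
  have hξ12 : ξ1 < ξ2 := hξ1.2.trans hξ2.1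
  have hQ1 : sg p * Q p ξ1 < 0 := by
    have h1 := hsc ξ1 hξ1.1 hξ1b
    have h2 : Real.sin ξ1 * Real.cos ξ1 * (sg p * Q p ξ1) = (sg p * T p x) / (x - 0) := by
      have : Real.sin ξ1 * Real.cos ξ1 * (sg p * Q p ξ1) =
        sg p * (Real.sin ξ1 * Real.cos ξ1 * Q p ξ1) := by ring
      rw [this, hd1]
      ring
    have h3 : (sg p * T p x) / (x - 0) < 0 := div_neg_of_neg_of_pos hcon (by linarith)
    rw [← h2] at h3
    by_contra hcon2
    push Not at hcon2
    have := mul_nonneg h1.le hcon2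
    linarith
  have hQ2 : 0 < sg p * Q p ξ2 := by
    have h1 := hsc ξ2 hξ2a hξ2.2
    have h2 : Real.sin ξ2 * Real.cos ξ2 * (sg p * Q p ξ2) =
        -(sg p * T p x) / (Real.pi / 2 - x) := by
      have : Real.sin ξ2 * Real.cos ξ2 * (sg p * Q p ξ2) =
        sg p * (Real.sin ξ2 * Real.cos ξ2 * Q p ξ2) := by ring
      rw [this, hd2]
      ring
    have h3 : 0 < -(sg p * T p x) / (Real.pi / 2 - x) := div_pos (by linarith) (by linarith)
    rw [← h2] at h3
    exact (mul_pos_iff_of_pos_left h1).1 h3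
  obtain ⟨ξ4, hξ4, hd4⟩ := exists_hasDerivAt_eq_slope (Q p)
    (fun θ => Z p θ / Real.sin θ ^ 2) hξ12
    (fun θ hθ => (Q_deriv hp (hξ1.1.trans_le hθ.1)
      (hθ.2.trans_lt hξ2.2)).continuousAt.continuousWithinAt)
    (fun θ hθ => Q_deriv hp (hξ1.1.trans hθ.1) (hθ.2.trans hξ2.2))
  have hξ4a : 0 < ξ4 := hξ1.1.trans hξ4.1
  have hs2 : ∀ θ : ℝ, 0 < θ → θ < Real.pi / 2 → 0 < Real.sin θ ^ 2 := by
    intro θ h0 h1
    have := Real.sin_pos_of_pos_of_lt_pi h0 (by linarith)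
    positivity
  have hZ4 : 0 < sg p * Z p ξ4 := by
    have h1 := hs2 ξ4 hξ4a (hξ4.2.trans hξ2.2)
    have h2 : (sg p * Z p ξ4) / Real.sin ξ4 ^ 2 =
        (sg p * Q p ξ2 - sg p * Q p ξ1) / (ξ2 - ξ1) := by
      have : (sg p * Z p ξ4) / Real.sin ξ4 ^ 2 = sg p * (Z p ξ4 / Real.sin ξ4 ^ 2) := by ring
      rw [this, hd4]
      ring
    have h3 : 0 < (sg p * Q p ξ2 - sg p * Q p ξ1) / (ξ2 - ξ1) :=
      div_pos (by linarith) (by linarith)
    rw [← h2] at h3
    exact (div_pos_iff_of_pos_right h1).1 h3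
  rcases eq_or_lt_of_le hp with hp1 | hp1
  · -- p = 1
    subst hp1
    rcases sg_cases (le_refl (1:ℝ)) hp2 with ⟨_, h, _⟩ | ⟨h, _, hC⟩
    · norm_num at h
    · rw [h] at hZ4
      unfold Z at hZ4
      have h5 := sq_nonneg (Real.sin ξ4)
      nlinarith
  · -- p > 1
    have hQh : Q p (Real.pi / 2) = 0 := by
      unfold Q
      rw [be_half p hp, Real.cos_pi_div_two, Real.zero_rpow (by linarith)]
      simp
    have hQc : ContinuousOn (Q p) (Set.Icc ξ2 (Real.pi / 2)) := by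
      have h1 : Continuous fun θ : ℝ => Real.cos θ ^ (p - 1) :=
        Real.continuous_cos.rpow_const fun _ => Or.inr (by linarith)
      have hb := be_cont p hp
      unfold Q
      apply ContinuousOn.sub
      · apply ContinuousOn.div
        · fun_prop
        · fun_prop
        · intro θ hθ
          exact (Real.sin_pos_of_pos_of_lt_pi (hξ2a.trans_le hθ.1) (by linarith [hθ.2])).ne'
      · fun_prop
    obtain ⟨ξ3, hξ3, hd3⟩ := exists_hasDerivAt_eq_slope (Q p)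
      (fun θ => Z p θ / Real.sin θ ^ 2) hξ2.2 hQc
      (fun θ hθ => Q_deriv hp (hξ2a.trans hθ.1) hθ.2)
    rw [hQh] at hd3
    have hZ3 : sg p * Z p ξ3 < 0 := by
      have h1 := hs2 ξ3 (hξ2a.trans hξ3.1) hξ3.2
      have h2 : (sg p * Z p ξ3) / Real.sin ξ3 ^ 2 = (-(sg p * Q p ξ2)) / (Real.pi / 2 - ξ2) := by
        have : (sg p * Z p ξ3) / Real.sin ξ3 ^ 2 = sg p * (Z p ξ3 / Real.sin ξ3 ^ 2) := by ring
        rw [this, hd3]
        ring
      have h3 : (-(sg p * Q p ξ2)) / (Real.pi / 2 - ξ2) < 0 :=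
        div_neg_of_neg_of_pos (by linarith) (by linarith [hξ2.2])
      rw [← h2] at h3
      by_contra hcon2
      push Not at hcon2
      have := div_nonneg hcon2 h1.le
      linarith
    exact Z_cross hp1 hp2 hξ4a (hξ4.2.trans hξ3.1) hξ3.2 hZ4 hZ3

/-- `D` without the absolute value -/
noncomputable def D0 (p θ : ℝ) : ℝ := be p θ * (p * Real.sin θ ^ 2 - 1) +
  Real.sin θ * Real.cos θ * (Real.cos θ ^ p - Cp p)

theorem De_eq {p θ : ℝ} (h0 : 0 ≤ θ) (h1 : θ ≤ Real.pi / 2) : De p θ = D0 p θ := by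
  have hc : 0 ≤ Real.cos θ := Real.cos_nonneg_of_mem_Icc ⟨by linarith [Real.pi_pos], h1⟩
  unfold De D0
  rw [abs_of_nonneg hc]

theorem D0_deriv {p θ : ℝ} (hp : 1 ≤ p) (h0 : 0 < θ) (h1 : θ < Real.pi / 2) :
    HasDerivAt (fun y => D0 p y / Real.cos y) (Real.sin θ * T p θ / Real.cos θ ^ 2) θ := by
  have hc : 0 < Real.cos θ := Real.cos_pos_of_mem_Ioo ⟨by linarith [Real.pi_pos], h1⟩
  have eb := be_deriv p hp θ
  rw [abs_of_pos hc] at eb
  have es := Real.hasDerivAt_sin θ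
  have ec := Real.hasDerivAt_cos θ
  have er : HasDerivAt (fun y => Real.cos y ^ p)
      (-Real.sin θ * p * Real.cos θ ^ (p - 1)) θ := ec.rpow_const (Or.inl hc.ne')
  have e := ((eb.mul (((es.pow 2).const_mul p).sub_const 1)).add
    ((es.mul ec).mul (er.sub_const (Cp p)))).div ec hc.ne'
  refine e.congr_deriv ?_
  have hr2 : Real.cos θ ^ (p + 1) = Real.cos θ ^ (p - 1) * Real.cos θ * Real.cos θ := by
    rw [← Real.rpow_add_one hc.ne', ← Real.rpow_add_one hc.ne']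
    congr 1; ring
  have hr3 : Real.cos θ ^ p = Real.cos θ ^ (p - 1) * Real.cos θ := by
    rw [← Real.rpow_add_one hc.ne']
    congr 1; ring
  have hsc := Real.sin_sq_add_cos_sq θ
  unfold T
  simp only [Pi.pow_apply, Pi.add_apply, Pi.mul_apply]
  rw [hr2, hr3]
  field_simp
  generalize Real.cos θ ^ (p - 1) = R
  generalize be p θ = B
  norm_num
  linear_combination (p * Real.sin θ * B - Cp p * Real.cos θ + R * Real.cos θ ^ 2) * hsc

theorem D0_cont {p : ℝ} (hp : 1 ≤ p) : Continuous (D0 p) := by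
  have h1 : Continuous fun θ : ℝ => Real.cos θ ^ p :=
    Real.continuous_cos.rpow_const fun _ => Or.inr (by linarith)
  have hb := be_cont p hp
  unfold D0
  fun_prop

theorem De_cont {p : ℝ} (hp : 1 ≤ p) : Continuous (De p) := by
  have h1 := cont_abs_cos p hp
  have hb := be_cont p hp
  unfold De
  fun_prop

theorem mono {p t x : ℝ} (hp : 1 ≤ p) (hp2 : p ≠ 2) (h0 : 0 ≤ t) (htx : t ≤ x)
    (hx : x < Real.pi / 2) :
    sg p * (D0 p t / Real.cos t) ≤ sg p * (D0 p x / Real.cos x) := by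
  have hpi := Real.pi_pos
  rcases eq_or_lt_of_le htx with rfl | hlt
  · exact le_rfl
  have hcp : ∀ θ ∈ Set.Icc t x, 0 < Real.cos θ := fun θ hθ =>
    Real.cos_pos_of_mem_Ioo ⟨by linarith [hθ.1], by linarith [hθ.2]⟩
  obtain ⟨ξ, hξ, hd⟩ := exists_hasDerivAt_eq_slope (fun y => D0 p y / Real.cos y)
    (fun θ => Real.sin θ * T p θ / Real.cos θ ^ 2) hlt
    ((D0_cont hp).continuousOn.div Real.continuous_cos.continuousOn
      fun θ hθ => (hcp θ hθ).ne')
    (fun θ hθ => D0_deriv hp (h0.trans_lt hθ.1) (hθ.2.trans hx))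
  have hT := T_nonneg hp hp2 (h0.trans_lt hξ.1) (hξ.2.trans hx)
  have hs := Real.sin_pos_of_pos_of_lt_pi (h0.trans_lt hξ.1) (by linarith [hξ.2])
  have hc := hcp ξ ⟨hξ.1.le, hξ.2.le⟩
  have h1 : 0 ≤ sg p * (Real.sin ξ * T p ξ / Real.cos ξ ^ 2) := by
    have : sg p * (Real.sin ξ * T p ξ / Real.cos ξ ^ 2) =
      Real.sin ξ * (sg p * T p ξ) / Real.cos ξ ^ 2 := by ring
    rw [this]
    positivity
  rw [hd] at h1
  have h2 : 0 < x - t := by linarith
  have h3 : sg p * (D0 p x / Real.cos x) - sg p * (D0 p t / Real.cos t) =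
      (sg p * ((D0 p x / Real.cos x - D0 p t / Real.cos t) / (x - t))) * (x - t) := by
    field_simp
  have h4 := mul_nonneg h1 h2.le
  rw [← h3] at h4
  linarith

theorem D0_nonneg {p x : ℝ} (hp : 1 ≤ p) (hp2 : p ≠ 2) (h0 : 0 ≤ x) (hx : x < Real.pi / 2) :
    0 ≤ sg p * (D0 p x / Real.cos x) := by
  have h1 := mono hp hp2 le_rfl h0 hx
  have h2 : D0 p 0 = 0 := by
    unfold D0
    rw [be_zero]
    simp
  rw [h2] at h1
  simpa using h1

theorem ga_le {p x : ℝ} (hp : 1 ≤ p) (hp2 : p ≠ 2) (h0 : 0 ≤ x) (hx : x < Real.pi / 2) :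
    sg p * ga p x ≤ sg p * (D0 p x / Real.cos x) * Real.sin x := by
  have hpi := Real.pi_pos
  have h1 : sg p * ga p x = ∫ t in (0:ℝ)..x, sg p * De p t := by
    unfold ga
    rw [intervalIntegral.integral_const_mul]
  have h2 : sg p * (D0 p x / Real.cos x) * Real.sin x =
      ∫ t in (0:ℝ)..x, sg p * (D0 p x / Real.cos x) * Real.cos t := by
    rw [intervalIntegral.integral_const_mul, integral_cos, Real.sin_zero, sub_zero]
  rw [h1, h2]
  apply intervalIntegral.integral_mono_on h0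
  · exact ((De_cont hp).const_mul _).intervalIntegrable _ _
  · exact (Real.continuous_cos.const_mul _).intervalIntegrable _ _
  · intro t ht
    have hc : 0 < Real.cos t := Real.cos_pos_of_mem_Ioo ⟨by linarith [ht.1], by linarith [ht.2]⟩
    rw [De_eq ht.1 (by linarith [ht.2])]
    have h3 := mono hp hp2 ht.1 ht.2 hx
    calc sg p * D0 p t = sg p * (D0 p t / Real.cos t) * Real.cos t := by
          field_simp
      _ ≤ _ := mul_le_mul_of_nonneg_right h3 hc.le

end ModS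

theorem stmtS : StmtS := by
  intro p hp hp2 θ h0 h1
  have hpi := Real.pi_pos
  rcases eq_or_lt_of_le h1 with rfl | hlt
  · have hD : De p (Real.pi / 2) = 0 := by
      unfold De
      rw [ModS.be_half p hp, Real.cos_pi_div_two]
      simp
    rw [hD, Real.cos_pi_div_two]
    simp
  · have hc : 0 < Real.cos θ := Real.cos_pos_of_mem_Ioo ⟨by linarith, hlt⟩
    have h2 := ModS.D0_nonneg hp hp2 h0.le hlt
    have h3 := ModS.ga_le hp hp2 h0.le hlt
    rw [ModS.De_eq h0.le h1]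
    have h4 : sg p * ModS.D0 p θ = sg p * (ModS.D0 p θ / Real.cos θ) * Real.cos θ := by
      field_simp
    constructor
    · rw [h4]
      exact mul_nonneg h2 hc.le
    · have h5 := mul_le_mul_of_nonneg_left h3 hc.le
      have h6 : sg p * (Real.sin θ * ModS.D0 p θ - Real.cos θ * ga p θ) =
          (sg p * ModS.D0 p θ) * Real.sin θ - Real.cos θ * (sg p * ga p θ) := by ring
      rw [h6, h4]
      have h7 : Real.cos θ * (sg p * (ModS.D0 p θ / Real.cos θ) * Real.sin θ) =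
        sg p * (ModS.D0 p θ / Real.cos θ) * Real.cos θ * Real.sin θ := by ring
      linarith

end Pool.Agent.T6.H5.PL
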