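import Pool.Agent.T6.H5.PL.W
import Pool.Agent.T6.H5.PL.S
import Pool.Agent.T6.H5.PL.GE
import Pool.Agent.T6.H5.PL.CA
import Pool.Agent.T6.H5.PL.CB
import Pool.Agent.T6.H5.PL.CC
import Pool.Agent.T6.H5.PL.CD
import Pool.Agent.T6.H5.PL.ID
import Pool.Agent.T6.H5.PL.NZ
import Pool.Agent.T6.H5.PL.MO
import Pool.Agent.T6.H5.PL.JE
import Pool.Agent.T6.H5.PW.Fin

set_option autoImplicit false

namespace Pool.Agent.T6.H5.PL

theorem stmtFL_all.{u} : StmtFL.{u} :=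
  fl (stmtCD (stmtGE stmtS) stmtCA (stmtCC stmtCB)) stmtID stmtNZ
    (stmtMO Pool.Agent.T6.H5.PW.stmtB_all) (stmtJE Pool.Agent.T6.H5.PW.stmtO)

end Pool.Agent.T6.H5.PL
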