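import Pool.Agent.T6.H5.PL.Defs
import Pool.Agent.T6.H5.PW.W

/-!
Project PL (helper5): assembly for flows and the canonical space.
-/

set_option autoImplicit false
open MeasureTheory Filter Topology Finset
open scoped ContDiff ENNReal

namespace Pool.Agent.T6.H5.PL

open Pool.Agent.Y139.SW Pool.Agent.T6.H5.PW

noncomputable section

lemma Cp_pos (p : ℝ) (hp : 0 ≤ p) : 0 < Cp p := by
  unfold Cp
  refine div_pos ?_ Real.pi_pos
  have hc : Continuous fun t : ℝ => |Real.cos t| ^ p :=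
    (Real.continuous_cos.abs).rpow_const fun _ => Or.inr hp
  refine intervalIntegral.integral_pos Real.pi_pos hc.continuousOn ?_ ⟨0, ?_, ?_⟩
  · intro x _
    exact Real.rpow_nonneg (abs_nonneg _) _
  · exact ⟨le_rfl, Real.pi_pos.le⟩
  · rw [Real.cos_zero, abs_one, Real.one_rpow]; exact one_pos

lemma sg_sq (p : ℝ) : sg p * sg p = 1 := by
  unfold sg; split_ifs <;> norm_num

/-- everything, for flows -/
def StmtFL.{u} : Prop := ∀ {d : ℕ} {S : Type u} [MeasurableSpace S] {P : Measure S}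
  {τ : E d → S → S} [IsProbabilityMeasure P], (∀ x, MeasurePreserving (τ x) P P) →
  ∀ {G : S → E d → ℝ}, Wave P τ G → ∀ p : ℝ, 1 ≤ p → p ≠ 2 → Integrable (fun s => |G s 0| ^ p) P →
  0 < ∫ s, G s 0 ^ 2 ∂P →
  sg p * (Cp p * (2 * ∫ s, G s 0 ^ 2 ∂P) ^ (p / 2)) ≤
    sg p * (Cp p * ∫ s, jr (G s 0) (gr (G s) 0) ^ (p / 2) ∂P) ∧
  sg p * (Cp p * ∫ s, jr (G s 0) (gr (G s) 0) ^ (p / 2) ∂P) ≤ sg p * ∫ s, |G s 0| ^ p ∂P ∧
  (∫ s, |G s 0| ^ p ∂P = Cp p * (2 * ∫ s, G s 0 ^ 2 ∂P) ^ (p / 2) →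
    ∀ᵐ s ∂P, ∃ (e : E d) (θ : ℝ), ‖e‖ = 1 ∧
      ∀ y, G s y = √(2 * ∫ s, G s 0 ^ 2 ∂P) * Real.cos (inner ℝ e y + θ))

lemma jr_nn {d : ℕ} (x : ℝ) (v : Fin d → ℝ) : 0 ≤ jr x v := by
  unfold jr jq
  have := Finset.sum_nonneg fun (i : Fin d) (_ : i ∈ Finset.univ) => sq_nonneg (v i)
  nlinarith [sq_nonneg x]

theorem fl.{u} (hCD : StmtCD.{u}) (hID : StmtID.{u}) (hNZ : StmtNZ.{u}) (hMO : StmtMO.{u})
    (hJE : StmtJE.{u}) : StmtFL.{u} := by
  intro d S _ P τ _ hτ G W p hp hp2 hint hpos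
  obtain ⟨m1, m2⟩ := hMO hτ W p hp hint
  have mX : Measurable fun s => G s 0 := W.m0
  have mV : ∀ i, Measurable fun s => gr (G s) 0 i := fun i => (W.der hτ i).m0
  have mH : ∀ i j, Measurable fun s => he (G s) 0 i j := fun i j =>
    ((W.der hτ j).der hτ i).m0
  have k1 := hCD p hp hp2 d S P (fun s => G s 0) (fun s => gr (G s) 0) (fun s => he (G s) 0)
    mX mV mH m1 m2 (hNZ hτ W) (hID hτ W)
  have mjr : Measurable fun s => jr (G s 0) (gr (G s) 0) := by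
    unfold jr jq
    exact (mX.pow_const 2).add (Finset.measurable_sum _ fun i _ => (mV i).pow_const 2)
  have ijr : Integrable (fun s => jr (G s 0) (gr (G s) 0) ^ (p / 2)) P := by
    refine Integrable.mono' ((integrable_const (1 : ℝ)).add m2)
      (mjr.pow_const _).aestronglyMeasurable (ae_of_all _ fun s => ?_)
    have h0 := jr_nn (G s 0) (gr (G s) 0)
    have hH : 0 ≤ jH (he (G s) 0) := by
      unfold jH
      exact Finset.sum_nonneg fun i _ => Finset.sum_nonneg fun j _ => sq_nonneg _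
    have hle : jr (G s 0) (gr (G s) 0) ≤ jj (G s 0) (gr (G s) 0) (he (G s) 0) := by
      unfold jj; linarith
    have hnn : 0 ≤ jj (G s 0) (gr (G s) 0) (he (G s) 0) ^ (max p 2 / 2) :=
      Real.rpow_nonneg (h0.trans hle) _
    rw [Real.norm_eq_abs, abs_of_nonneg (Real.rpow_nonneg h0 _)]
    show _ ≤ 1 + jj (G s 0) (gr (G s) 0) (he (G s) 0) ^ (max p 2 / 2)
    rcases le_or_gt (jr (G s 0) (gr (G s) 0)) 1 with h1 | h1
    · have := Real.rpow_le_one h0 h1 (by linarith : 0 ≤ p / 2)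
      linarith
    · have e1 : jr (G s 0) (gr (G s) 0) ^ (p / 2) ≤ jr (G s 0) (gr (G s) 0) ^ (max p 2 / 2) :=
        Real.rpow_le_rpow_of_exponent_le h1.le (by
          have := le_max_left p 2; linarith)
      have e2 : jr (G s 0) (gr (G s) 0) ^ (max p 2 / 2) ≤
          jj (G s 0) (gr (G s) 0) (he (G s) 0) ^ (max p 2 / 2) :=
        Real.rpow_le_rpow h0 hle (by
          have := le_max_left p 2; linarith)
      linarith
  obtain ⟨j1, j2⟩ := hJE hτ W p hp hp2 ijr hpos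
  have c0 := Cp_pos p (by linarith)
  have a1 : sg p * (Cp p * (2 * ∫ s, G s 0 ^ 2 ∂P) ^ (p / 2)) ≤
      sg p * (Cp p * ∫ s, jr (G s 0) (gr (G s) 0) ^ (p / 2) ∂P) := by
    have := mul_le_mul_of_nonneg_left j1 c0.le
    calc _ = Cp p * (sg p * (2 * ∫ s, G s 0 ^ 2 ∂P) ^ (p / 2)) := by ring
      _ ≤ Cp p * (sg p * ∫ s, jr (G s 0) (gr (G s) 0) ^ (p / 2) ∂P) := this
      _ = _ := by ring
  refine ⟨a1, k1, fun heq => j2 ?_⟩
  rw [heq] at k1
  have a2 := le_antisymm a1 k1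
  have a3 := congrArg (fun t => sg p * t) a2
  simp only [← mul_assoc, sg_sq, one_mul] at a3
  exact (mul_left_cancel₀ c0.ne' a3).symm

variable {d : ℕ} {S : Type*} [MeasurableSpace S] {P : Measure S}

theorem fin [IsProbabilityMeasure P] {F : S → E d → ℝ} (hF : StmtFL.{0})
    (mF : ∀ y, Measurable fun s => F s y)
    (sF : ∀ s, ContDiff ℝ ∞ (F s)) (eF : ∀ s y, Lap (F s) y + F s y = 0)
    (st : ∀ x : E d, P.map (fun s y => F s (y + x)) = P.map (fun s y => F s y))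
    (l2 : Integrable (fun s => F s 0 ^ 2) P) (p : ℝ) (hp : 1 ≤ p) (hp2 : p ≠ 2)
    (lp : Integrable (fun s => |F s 0| ^ p) P) (pos : 0 < ∫ s, F s 0 ^ 2 ∂P) :
    sg p * (Cp p * (2 * ∫ s, F s 0 ^ 2 ∂P) ^ (p / 2)) ≤
      sg p * (Cp p * ∫ s, jr (F s 0) (gr (F s) 0) ^ (p / 2) ∂P) ∧
    sg p * (Cp p * ∫ s, jr (F s 0) (gr (F s) 0) ^ (p / 2) ∂P) ≤ sg p * ∫ s, |F s 0| ^ p ∂P ∧
    (∫ s, |F s 0| ^ p ∂P = Cp p * (2 * ∫ s, F s 0 ^ 2 ∂P) ^ (p / 2) →
      ∀ᵐ s ∂P, ∃ (e : E d) (θ : ℝ), ‖e‖ = 1 ∧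
        ∀ y, F s y = √(2 * ∫ s, F s 0 ^ 2 ∂P) * Real.cos (inner ℝ e y + θ)) := by
  obtain ⟨Φ, hΦ⟩ : ∃ Φ : S → Sp d, Φ = fun s => ⟨F s, sF s, fun y => by
    have := eF s y; linarith⟩ := ⟨_, rfl⟩
  have v1 : ∀ s, (Φ s).1 = F s := fun s => by rw [hΦ]
  have mΦ : Measurable Φ := by
    rw [hΦ]
    exact Measurable.subtype_mk (measurable_pi_iff.2 mF)
  have hQ : IsProbabilityMeasure (P.map Φ) := Measure.isProbabilityMeasure_map mΦ.aemeasurable
  have hτ : ∀ x : E d, MeasurePreserving (sh x) (P.map Φ) (P.map Φ) := by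
    intro x
    refine ⟨sh_me x, ?_⟩
    rw [Measure.map_map (sh_me x) mΦ]
    ext A mA
    obtain ⟨B, mB, rfl⟩ := mA
    have e1 : ((sh x ∘ Φ) ⁻¹' (Subtype.val ⁻¹' B)) = (fun s y => F s (y + x)) ⁻¹' B := by
      ext s
      show (fun y => (Φ s).1 (y + x)) ∈ B ↔ (fun y => F s (y + x)) ∈ B
      rw [v1]
    have e2 : (Φ ⁻¹' (Subtype.val ⁻¹' B)) = (fun s y => F s y) ⁻¹' B := by
      ext s
      show (Φ s).1 ∈ B ↔ (fun y => F s y) ∈ B
      rw [v1]
    have mV : MeasurableSet (Subtype.val ⁻¹' B : Set (Sp d)) := ⟨B, mB, rfl⟩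
    rw [Measure.map_apply ((sh_me x).comp mΦ) mV, Measure.map_apply mΦ mV, e1, e2,
      ← Measure.map_apply (measurable_pi_iff.2 fun y => mF (y + x)) mB,
      ← Measure.map_apply (measurable_pi_iff.2 fun y => mF y) mB, st x]
  have m0 : Measurable fun f : Sp d => f.1 0 :=
    (measurable_pi_apply 0).comp measurable_subtype_coe
  have ei : ∀ (g : Sp d → ℝ), Measurable g → ∫ f, g f ∂(P.map Φ) = ∫ s, g (Φ s) ∂P := by
    intro g hg
    exact integral_map (μ := P) mΦ.aemeasurable hg.aestronglyMeasurable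
  have ii : ∀ (g : Sp d → ℝ), Measurable g → Integrable (fun s => g (Φ s)) P →
      Integrable g (P.map Φ) := by
    intro g hg h
    exact (integrable_map_measure hg.aestronglyMeasurable mΦ.aemeasurable).2 h
  have W : Wave (P.map Φ) sh (fun f : Sp d => f.1) := by
    refine ⟨⟨fun y => (measurable_pi_apply y).comp measurable_subtype_coe, fun f => f.2.1,
      fun x f y => rfl⟩, fun f y => f.2.2 y, ii _ (m0.pow_const 2) ?_⟩
    simp only [v1]
    exact l2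
  have mV : ∀ i, Measurable fun f : Sp d => gr f.1 0 i := fun i => (W.der hτ i).m0
  have mjr : Measurable fun f : Sp d => jr (f.1 0) (gr f.1 0) := by
    unfold jr jq
    exact (m0.pow_const 2).add (Finset.measurable_sum _ fun i _ => (mV i).pow_const 2)
  have e2 : ∫ f, (f.1 0) ^ 2 ∂(P.map Φ) = ∫ s, F s 0 ^ 2 ∂P := by
    rw [ei _ (m0.pow_const 2)]; simp only [v1]
  have e3 : ∫ f, |f.1 0| ^ p ∂(P.map Φ) = ∫ s, |F s 0| ^ p ∂P := by
    rw [ei (fun f => |f.1 0| ^ p) ((measurable_norm.comp m0).pow_const p)]; simp only [v1]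
  have e4 : ∫ f, jr (f.1 0) (gr f.1 0) ^ (p / 2) ∂(P.map Φ) =
      ∫ s, jr (F s 0) (gr (F s) 0) ^ (p / 2) ∂P := by
    rw [ei (fun f => jr (f.1 0) (gr f.1 0) ^ (p / 2)) (mjr.pow_const _)]; simp only [v1]
  have i3 : Integrable (fun f : Sp d => |f.1 0| ^ p) (P.map Φ) := by
    refine ii _ ((measurable_norm.comp m0).pow_const p) ?_
    simp only [v1]
    exact lp
  have key := hF hτ W p hp hp2 i3 (by rw [e2]; exact pos)
  rw [e2, e3, e4] at key
  obtain ⟨h1, h2, h3⟩ := key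
  refine ⟨h1, h2, fun heq => ?_⟩
  have h4 := ae_of_ae_map mΦ.aemeasurable (h3 heq)
  filter_upwards [h4] with s hs
  obtain ⟨e, θ, he, hy⟩ := hs
  refine ⟨e, θ, he, fun y => ?_⟩
  rw [← v1 s]
  exact hy y

end

end Pool.Agent.T6.H5.PL
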